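import Pool.Agent.X243.Sol.Cnt6

/-!
The Tate conjecture at two over extensions of the ground field for 100% of the elliptic surfaces with a
section of order two.
-/

set_option autoImplicit false
set_option linter.all false

open Polynomial IsDedekindDomain NumberField
open scoped Classical

namespace Pool.Agent.X243.Sol

open Pool.Agent.TH115.GD Pool.Agent.X243.Tate Pool.Agent.Y160.T3

section map

theorem I2_map {R S : Type} [CommRing R] [CommRing S] (θ : R ≃+* S) {N : ℕ} {f : R[X]}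
    (h : I2 N f) : I2 N (f.map (θ : R →+* S)) := by
  obtain ⟨h1, π, h2, h3, h4⟩ := h
  refine ⟨?_, π.map (θ : R →+* S), mapEq_irr θ h2, ?_, (mapRingHom (θ : R →+* S)).map_dvd h4⟩
  · rw [natDegree_map_eq_of_injective θ.injective, h1]
  · rw [natDegree_map_eq_of_injective θ.injective, h3]

theorem I3_map {R S : Type} [CommRing R] [CommRing S] (θ : R ≃+* S) {N : ℕ} {f : R[X]}
    (h : I3 N f) : I3 N (f.map (θ : R →+* S)) := by
  obtain ⟨d, π, T, h1, h2, h3, h4, h5, h6⟩ := h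
  refine ⟨θ d, π.map (θ : R →+* S), T.image θ, (map_ne_zero_iff _ θ.injective).2 h1,
    h2.map _, mapEq_irr θ h3, ?_, ?_, ?_⟩
  · rw [natDegree_map_eq_of_injective θ.injective, h4]
  · rw [Finset.card_image_of_injective _ θ.injective, h5]
  · rw [h6, Polynomial.map_mul, Polynomial.map_mul, map_C, Polynomial.map_prod,
      Finset.prod_image (fun x _ y _ h => θ.injective h)]
    congr 1
    refine Finset.prod_congr rfl fun c _ => ?_
    rw [Polynomial.map_sub, map_X, map_C]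
    rfl

end map

section main

variable {A k : Type} [Field A] [NumberField A] [Field k] [NumberField k] [Algebra A k]

theorem full_of {N B : ℕ} (hN : 3 ≤ N) {f : (𝓞 A)[X]} (hf : f.natDegree ≤ N)
    (hirr : Irreducible (f.map (algebraMap (𝓞 A) k))) {p p' : HeightOneSpectrum (𝓞 A)}
    (hp : p ∈ Zset A k B) (hp' : p' ∈ Zset A k B)
    (h2 : I2 N (f.map (Ideal.Quotient.mk p.asIdeal)))
    (h3 : I3 N (f.map (Ideal.Quotient.mk p'.asIdeal))) :
    Full (f.map (algebraMap (𝓞 A) k)) := by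
  obtain ⟨⟨P, a1, a2⟩, -⟩ := hp
  obtain ⟨⟨P', b1, b2⟩, -⟩ := hp'
  obtain ⟨θ, hθ⟩ := exists_theta p P a1 a2
  obtain ⟨θ', hθ'⟩ := exists_theta p' P' b1 b2
  have e2 := I2_map θ h2
  have e3 := I3_map θ' h3
  rw [← red_map hθ] at e2
  rw [← red_map hθ'] at e3
  intro E _ _ _ _ hspl
  rw [← map_twice (A := A) (k := k) f] at hirr hspl ⊢
  exact surj_of hN (natDegree_map_le.trans hf) hirr e2 e3 E hspl

theorem tate_ext {a b : k[X]} {N : ℕ} (hN : 5 ≤ N) (hb : I1 N b) (hd : I1 N (a ^ 2 - 4 * b))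
    (fb : Full b) (fd : Full (a ^ 2 - 4 * b)) {L L' K F : Type} [Field L] [Algebra k L] [Field L']
    [Algebra L L'] [Algebra k L'] [IsScalarTower k L L'] [Field K] [Algebra L[X] K]
    [Field F] [Algebra L'[X] F] [IsFractionRing L'[X] F] [Algebra K F] (hT : IsTower L L' K F)
    (M : IntermediateField k L') (hMn : Normal k M)
    (hM : ∀ x : L, IsAlgebraic k x → algebraMap L L' x ∈ M)
    (h1 : ¬ (b.map (algebraMap k M)).Splits)
    (h2 : ¬ ((a ^ 2 - 4 * b).map (algebraMap k M)).Splits) :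
    TateAtTwo (F := F) L' (crvT (algebraMap L[X] K (a.map (algebraMap k L)))
      (algebraMap L[X] K (b.map (algebraMap k L)))) := by
  haveI := hT.sep
  haveI : CharZero L := charZero_of_injective_algebraMap (algebraMap k L).injective
  obtain ⟨i1, n1⟩ := three_of hb.1.separable (by rw [hb.2]; exact hN) fb L L' M hM h1
  obtain ⟨i2, n2⟩ := three_of hd.1.separable (by rw [hd.2]; exact hN) fd L L' M hM h2
  have e : (a ^ 2 - 4 * b).map (algebraMap k L) =
      (a.map (algebraMap k L)) ^ 2 - 4 * (b.map (algebraMap k L)) := by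
    rw [Polynomial.map_sub, Polynomial.map_pow, Polynomial.map_mul, Polynomial.map_ofNat]
  have s1 : (b.map (algebraMap k L)).Separable := hb.1.separable.map
  have s2 : ((a ^ 2 - 4 * b).map (algebraMap k L)).Separable := hd.1.separable.map
  rw [e] at i2 n2 s2
  exact genericT hT (two_ne_zero) (u := 1) (v := 1) (m := 0) (n := 0) (π := b.map (algebraMap k L))
    (ρ := (a.map (algebraMap k L)) ^ 2 - 4 * (b.map (algebraMap k L))) one_ne_zero one_ne_zero
    i1 i2 s1 s2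
    (by rw [C_1, one_mul, mul_zero, zero_add, pow_one])
    (by rw [C_1, one_mul, mul_zero, zero_add, pow_one]) n1 n2

theorem tate_rad {a b : k[X]} {N : ℕ} (hN : 5 ≤ N) (hb : I1 N b) (hd : I1 N (a ^ 2 - 4 * b))
    (fb : Full b) (fd : Full (a ^ 2 - 4 * b)) {L L' K F : Type} [Field L] [Algebra k L] [Field L']
    [Algebra L L'] [Algebra k L'] [IsScalarTower k L L'] [Field K] [Algebra L[X] K]
    [Field F] [Algebra L'[X] F] [IsFractionRing L'[X] F] [Algebra K F] (hT : IsTower L L' K F)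
    (hM : ∀ x : L, IsAlgebraic k x → algebraMap L L' x ∈ solvableByRad k L') :
    TateAtTwo (F := F) L' (crvT (algebraMap L[X] K (a.map (algebraMap k L)))
      (algebraMap L[X] K (b.map (algebraMap k L)))) := by
  haveI := hT.sep
  haveI : CharZero L' := charZero_of_injective_algebraMap (algebraMap k L').injective
  haveI : IsSepClosed L' := IsSepClosure.sep_closed L
  haveI : IsAlgClosed L' := inferInstance
  exact tate_ext hN hb hd fb fd hT (solvableByRad k L') normal_rad hM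
    (not_splits_rad hb.1 (by rw [hb.2]; exact hN) fb)
    (not_splits_rad hd.1 (by rw [hd.2]; exact hN) fd)

theorem tate_good3 {m N B : ℕ} (hmN : 2 * m ≤ N) (hN : 5 ≤ N)
    {y : Fin (m + 1) ⊕ Fin (N + 1) → 𝓞 A}
    (h : ∀ s : Bool × Fin 3, ∃ p ∈ Zset A k B, (fun j => Ideal.Quotient.mk p.asIdeal (y j)) ∈
      Gev3 m N s (𝓞 A ⧸ p.asIdeal)) (a b : k[X])
    (ha : a = (bF (y ∘ Sum.inl)).map (algebraMap (𝓞 A) k))
    (hb : b = (bF (y ∘ Sum.inr)).map (algebraMap (𝓞 A) k)) :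
    (I1 N b ∧ Full b) ∧ (I1 N (a ^ 2 - 4 * b) ∧ Full (a ^ 2 - 4 * b)) := by
  have key : ∀ s : Bool, I1 N ((pol s y).map (algebraMap (𝓞 A) k)) ∧
      Full ((pol s y).map (algebraMap (𝓞 A) k)) := by
    intro s
    obtain ⟨p0, z0, e0⟩ := h (s, 0)
    obtain ⟨p1, z1, e1⟩ := h (s, 1)
    obtain ⟨p2, z2, e2⟩ := h (s, 2)
    have e0' : cf s (fun j => Ideal.Quotient.mk p0.asIdeal (y j)) ∈ E1 (𝓞 A ⧸ p0.asIdeal) N := e0
    have e1' : cf s (fun j => Ideal.Quotient.mk p1.asIdeal (y j)) ∈ E2 (𝓞 A ⧸ p1.asIdeal) N := e1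
    have e2' : cf s (fun j => Ideal.Quotient.mk p2.asIdeal (y j)) ∈ E3 (𝓞 A ⧸ p2.asIdeal) N := e2
    have f0 : I1 N (bF (cf s (fun j => Ideal.Quotient.mk p0.asIdeal (y j)))) := e0'
    have f1 : I2 N (bF (cf s (fun j => Ideal.Quotient.mk p1.asIdeal (y j)))) := e1'
    have f2 : I3 N (bF (cf s (fun j => Ideal.Quotient.mk p2.asIdeal (y j)))) := e2'
    rw [bF_cf s hmN, ← pol_map] at f0 f1 f2
    have hirr := lift_irr z0 (pol_nd s hmN y) f0.2 f0.1
    exact ⟨hirr, full_of (by omega) (pol_nd s hmN y) hirr.1 z1 z2 f1 f2⟩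
  have e1 : (pol true y).map (algebraMap (𝓞 A) k) = b := by rw [hb]; rfl
  have e2 : (pol false y).map (algebraMap (𝓞 A) k) = a ^ 2 - 4 * b := by
    rw [ha, hb, pol]
    simp only [Bool.false_eq_true, if_false, Polynomial.map_sub, Polynomial.map_pow,
      Polynomial.map_mul, Polynomial.map_ofNat]
  have k1 := key true
  have k2 := key false
  rw [e1] at k1
  rw [e2] at k2
  exact ⟨k1, k2⟩

theorem Gev3_Z {m N : ℕ} (hN : 3 ≤ N) (s : Bool × Fin 3) {p : HeightOneSpectrum (𝓞 A)}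
    (hp : p ∈ Zset A k (2 * N + 2)) :
    (1 / ((DD N : ℕ) : ℝ)) * (Nat.card (𝓞 A ⧸ p.asIdeal) : ℝ) ^
      (Fintype.card (Fin (m + 1) ⊕ Fin (N + 1))) ≤
      ((Gev3 m N s (𝓞 A ⧸ p.asIdeal)).ncard : ℝ) := by
  haveI := p.isMaximal
  letI : Field (𝓞 A ⧸ p.asIdeal) := Ideal.Quotient.field p.asIdeal
  haveI : Finite (𝓞 A ⧸ p.asIdeal) := Ideal.finiteQuotientOfFreeOfNeBot _ p.ne_bot
  exact Gev3_card hN hp.2.2 (two_quot A k hp) s

variable (A k) in
theorem dens_three {m N : ℕ} (hN : 3 ≤ N) (η : ℝ) (hη : 0 < η) :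
    ∃ M : Ideal (𝓞 A), M ≠ ⊥ ∧
      (1 - η) * (Nat.card (𝓞 A ⧸ M) : ℝ) ^ (Fintype.card (Fin (m + 1) ⊕ Fin (N + 1))) ≤
      (({x : Fin (m + 1) ⊕ Fin (N + 1) → 𝓞 A ⧸ M | ∀ s : Bool × Fin 3,
        ∃ p ∈ Zset A k (2 * N + 2), ∀ y : Fin (m + 1) ⊕ Fin (N + 1) → 𝓞 A,
          (∀ j, Ideal.Quotient.mk M (y j) = x j) →
          (fun j => Ideal.Quotient.mk p.asIdeal (y j)) ∈
            Gev3 m N s (𝓞 A ⧸ p.asIdeal)}).ncard : ℝ) := by
  refine density (Zset A k (2 * N + 2)) (Zset_inf A k _)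
    (fun s p => Gev3 m N s (𝓞 A ⧸ p.asIdeal)) (c := 1 / ((DD N : ℕ) : ℝ)) ?_ ?_ η hη
  · have hD : 0 < DD N := by
      have := D3_pos N
      unfold DD
      have h3 : 0 < 4 * N := by omega
      positivity
    have : (0 : ℝ) < ((DD N : ℕ) : ℝ) := by exact_mod_cast hD
    positivity
  · intro s p hp
    exact Gev3_Z hN s hp

end main

end Pool.Agent.X243.Sol
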