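import Pool.Agent.X243.Sol.Surj

/-!
Frobenius elements acting on the roots of a polynomial `f` and on square roots of the values of a
polynomial `g` at the roots.
-/

set_option autoImplicit false
set_option linter.all false

open Polynomial IsLocalRing IsDedekindDomain NumberField
open scoped Classical

namespace Pool.Agent.X243.Sol

open Pool.Agent.X243.Tate

section frob

variable {k : Type} [Field k] [NumberField k] (P : HeightOneSpectrum (𝓞 k))

/-- The Frobenius element in a finite Galois extension. -/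
theorem frob_int {E : Type} [Field E] [NumberField E] [Algebra k E] [IsGalois k E] :
    ∃ (B : ValuationSubring E) (hB : Dom P k B) (σ : E ≃ₐ[k] E),
      ∀ (c : 𝓞 k), c ∉ P.asIdeal → ∀ θ : E, IsIntegral (𝓞 k) (algebraMap (𝓞 k) E c * θ) →
        θ ∈ B ∧ σ θ ∈ B ∧ red B (σ θ) = red B θ ^ Nat.card (𝓞 k ⧸ P.asIdeal) := by
  obtain ⟨B, hB⟩ := exists_Dom (L := E) P (k := k)
  -- the integers are in `B`
  have hint : ∀ y : 𝓞 E, (y : E) ∈ B := by
    intro y
    have h1 : IsIntegral (𝓞 k) (y : E) := by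
      have h2 : IsIntegral ℤ (y : E) := y.2
      exact h2.tower_top
    have h3 : IsIntegral B (y : E) := by
      obtain ⟨g, hg, hgy⟩ := h1
      refine ⟨g.map (rO hB), hg.map _, ?_⟩
      rw [eval₂_map]
      have : (algebraMap B E).comp (rO hB) = algebraMap (𝓞 k) E := by
        ext x
        show algebraMap k E (algebraMap (𝓞 k) k x) = _
        rw [← IsScalarTower.algebraMap_apply]
      rw [this]
      exact hgy
    obtain ⟨z, hz⟩ := IsIntegrallyClosed.isIntegral_iff.1 h3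
    rw [← hz]
    exact z.2
  let ι : 𝓞 E →+* B := (algebraMap (𝓞 E) E).codRestrict B.toSubring hint
  let ρ : 𝓞 E →+* ResidueField B := (residue B).comp ι
  obtain ⟨Q, hQ⟩ : ∃ Q : Ideal (𝓞 E), Q = RingHom.ker ρ := ⟨_, rfl⟩
  haveI hQp : Q.IsPrime := by rw [hQ]; exact RingHom.ker_isPrime ρ
  have hρk : ∀ x : 𝓞 k, ρ (algebraMap (𝓞 k) (𝓞 E) x) = rB hB x := by
    intro x
    show residue B _ = residue B _
    congr 1
  have hunder : Q.under (𝓞 k) = P.asIdeal := by
    symm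
    refine P.isMaximal.eq_of_le ?_ ?_
    · exact Ideal.IsPrime.ne_top inferInstance
    · intro x hx
      show algebraMap (𝓞 k) (𝓞 E) x ∈ Q
      rw [hQ, RingHom.mem_ker, hρk]
      exact rB_zero hB hx
  have hQb : Q ≠ ⊥ := by
    intro h
    obtain ⟨x, hx, hx0⟩ := Submodule.exists_mem_ne_zero_of_ne_bot P.ne_bot
    apply hx0
    have h1 : algebraMap (𝓞 k) (𝓞 E) x ∈ Q := by
      rw [hQ, RingHom.mem_ker, hρk]
      exact rB_zero hB hx
    rw [h] at h1
    exact (FaithfulSMul.algebraMap_injective (𝓞 k) (𝓞 E)) (by rw [map_zero]; exact h1)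
  haveI : Finite (𝓞 E ⧸ Q) := Ideal.finiteQuotientOfFreeOfNeBot _ hQb
  obtain ⟨σ, hσ⟩ := IsArithFrobAt.exists_of_isInvariant (𝓞 k) (Gal(E/k)) Q
  refine ⟨B, hB, σ, ?_⟩
  have hfrob : ∀ y : 𝓞 E, ρ (σ • y) = ρ y ^ Nat.card (𝓞 k ⧸ P.asIdeal) := by
    intro y
    have h1 := hσ y
    rw [hunder] at h1
    have h2 : σ • y - y ^ Nat.card (𝓞 k ⧸ P.asIdeal) ∈ RingHom.ker ρ := by rw [← hQ]; exact h1
    rw [RingHom.mem_ker, map_sub, map_pow, sub_eq_zero] at h2
    exact h2
  have hsmul : ∀ y : 𝓞 E, ((σ • y : 𝓞 E) : E) = σ (y : E) := fun y => rfl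
  intro c hc
  have hc0 : rB hB c ≠ 0 := rB_ne hB hc
  have hck : algebraMap (𝓞 k) E c ≠ 0 := by
    intro h
    apply hc0
    show residue B _ = 0
    have : rO hB c = 0 := by
      apply Subtype.ext
      show algebraMap k E (algebraMap (𝓞 k) k c) = 0
      rw [← IsScalarTower.algebraMap_apply]
      exact h
    rw [this, map_zero]
  have hcinv : (algebraMap (𝓞 k) E c)⁻¹ ∈ B := by
    have h1 : rO hB c ∉ maximalIdeal B := by
      rw [← residue_eq_zero_iff]
      exact hc0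
    have h2 : IsUnit (rO hB c) := by
      by_contra h
      exact h1 ((mem_maximalIdeal _).2 h)
    obtain ⟨u, hu⟩ := h2
    have h3 : ((u⁻¹ : Bˣ) : E) = (algebraMap (𝓞 k) E c)⁻¹ := by
      have h4 : ((u : B) : E) * ((u⁻¹ : Bˣ) : B) = 1 := by
        have := congrArg (fun z : B => (z : E)) (u.mul_inv)
        exact this
      have h5 : ((u : B) : E) = algebraMap (𝓞 k) E c := by
        rw [hu]
        show algebraMap k E (algebraMap (𝓞 k) k c) = _
        rw [← IsScalarTower.algebraMap_apply]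
      rw [h5] at h4
      exact eq_inv_of_mul_eq_one_right h4
    rw [← h3]
    exact ((u⁻¹ : Bˣ) : B).2
  have hcB : algebraMap (𝓞 k) E c ∈ B := by
    have := hB.mem c
    rwa [← IsScalarTower.algebraMap_apply] at this
  have hredc : red B (algebraMap (𝓞 k) E c) = rB hB c := by
    rw [red, dif_pos hcB]
    show residue B _ = residue B _
    congr 1
  have hmemB : ∀ θ : E, ∀ y : 𝓞 E, (y : E) = algebraMap (𝓞 k) E c * θ →
      θ ∈ B ∧ rB hB c * red B θ = ρ y := by
    intro θ y hy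
    have h1 : θ = (algebraMap (𝓞 k) E c)⁻¹ * (y : E) := by
      rw [hy, inv_mul_cancel_left₀ hck]
    have h2 : θ ∈ B := by
      rw [h1]
      exact mul_mem hcinv (hint y)
    refine ⟨h2, ?_⟩
    rw [← hredc, ← red_mul hcB h2, ← hy]
    exact red_coe (ι y)
  intro θ hθ
  obtain ⟨y, hy⟩ : ∃ y : 𝓞 E, (y : E) = algebraMap (𝓞 k) E c * θ :=
    ⟨⟨_, isIntegral_trans (R := ℤ) _ hθ⟩, rfl⟩
  obtain ⟨h1, h2⟩ := hmemB θ y hy
  have hy' : ((σ • y : 𝓞 E) : E) = algebraMap (𝓞 k) E c * σ θ := by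
    rw [hsmul, hy, map_mul]
    congr 1
    rw [IsScalarTower.algebraMap_apply (𝓞 k) k E, σ.commutes]
  obtain ⟨h3, h4⟩ := hmemB (σ θ) (σ • y) hy'
  refine ⟨h1, h3, ?_⟩
  have h5 : rB hB c ^ Nat.card (𝓞 k ⧸ P.asIdeal) = rB hB c := by
    haveI := P.isMaximal
    letI : Field (𝓞 k ⧸ P.asIdeal) := Ideal.Quotient.field P.asIdeal
    haveI : Finite (𝓞 k ⧸ P.asIdeal) := Ideal.finiteQuotientOfFreeOfNeBot _ P.ne_bot
    letI := Fintype.ofFinite (𝓞 k ⧸ P.asIdeal)
    rw [← jB_mk, ← map_pow, Nat.card_eq_fintype_card, FiniteField.pow_card]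
  apply mul_left_cancel₀ hc0
  rw [h4, hfrob, ← h2, mul_pow, h5]

/-- The event: `a` splits, and `b` has a square and a nonsquare among its values at the roots. -/
def J4 {R : Type} [CommRing R] (N : ℕ) (a b : R[X]) : Prop :=
  ∃ (d : R) (S : Finset R) (c₁ c₂ : R), d ≠ 0 ∧ S.card = N ∧ a = C d * ∏ c ∈ S, (X - C c) ∧
    c₁ ∈ S ∧ c₂ ∈ S ∧ IsSquare (b.eval c₁) ∧ b.eval c₁ ≠ 0 ∧ ¬ IsSquare (b.eval c₂)

/-- A Frobenius element which fixes the roots, with two different signs. -/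
theorem frob_sign {a b : (𝓞 k)[X]} {N : ℕ} (ha : a.natDegree ≤ N)
    (h2 : (2 : 𝓞 k ⧸ P.asIdeal) ≠ 0)
    (hJ : J4 N (a.map (Ideal.Quotient.mk P.asIdeal)) (b.map (Ideal.Quotient.mk P.asIdeal)))
    {E : Type} [Field E] [NumberField E] [Algebra k E] [IsGalois k E]
    (hspl : ((a.map (algebraMap (𝓞 k) k)).map (algebraMap k E)).Splits)
    (β : E → E) (hβ : ∀ θ, aeval θ (a.map (algebraMap (𝓞 k) k)) = 0 →
      β θ ^ 2 = aeval θ (b.map (algebraMap (𝓞 k) k))) :
    ∃ (s : E ≃ₐ[k] E) (θ₁ θ₂ : E), aeval θ₁ (a.map (algebraMap (𝓞 k) k)) = 0 ∧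
      aeval θ₂ (a.map (algebraMap (𝓞 k) k)) = 0 ∧ β θ₁ ≠ 0 ∧ β θ₂ ≠ 0 ∧ s (β θ₁) = β θ₁ ∧
      s (β θ₂) = - β θ₂ ∧
      ∀ θ, aeval θ (a.map (algebraMap (𝓞 k) k)) = 0 → s θ = θ := by
  haveI := P.isMaximal
  letI : Field (𝓞 k ⧸ P.asIdeal) := Ideal.Quotient.field P.asIdeal
  haveI : Finite (𝓞 k ⧸ P.asIdeal) := Ideal.finiteQuotientOfFreeOfNeBot _ P.ne_bot
  letI := Fintype.ofFinite (𝓞 k ⧸ P.asIdeal)
  obtain ⟨d, S, c₁, c₂, hd, hS, hfac, hc₁, hc₂, hsq₁, hne₁, hsq₂⟩ := hJ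
  obtain ⟨B, hB, s, hs⟩ := frob_int (E := E) P
  set fb := a.map (Ideal.Quotient.mk P.asIdeal) with hfb
  have hmon : (∏ c ∈ S, (X - C c) : (𝓞 k ⧸ P.asIdeal)[X]).Monic := monic_prod_X_sub_C (fun c => c) S
  have hdeg : fb.natDegree = N := by
    rw [hfac, natDegree_C_mul hd, natDegree_finset_prod_X_sub_C_eq_card, hS]
  have hsep : fb.Separable := by
    rw [hfac]
    apply Separable.unit_mul (isUnit_C.2 (isUnit_iff_ne_zero.2 hd))
    apply separable_prod_X_sub_C_iff'.2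
    exact fun x _ y _ h => h
  have hfN : a.natDegree = N := le_antisymm ha (hdeg ▸ natDegree_map_le)
  have hlc : fb.leadingCoeff = Ideal.Quotient.mk P.asIdeal a.leadingCoeff := by
    rw [leadingCoeff, hdeg, hfb, coeff_map, leadingCoeff, hfN]
  have hc : a.leadingCoeff ∉ P.asIdeal := by
    intro h
    apply leadingCoeff_ne_zero.2 hsep.ne_zero
    rw [hlc, Ideal.Quotient.eq_zero_iff_mem]
    exact h
  have hinjk : Function.Injective (algebraMap (𝓞 k) k) := IsFractionRing.injective (𝓞 k) k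
  have ha0 : a ≠ 0 := by
    rintro rfl
    apply hc
    rw [leadingCoeff_zero]
    exact Ideal.zero_mem _
  obtain ⟨F, hF⟩ : ∃ F, F = a.map (algebraMap (𝓞 k) k) := ⟨_, rfl⟩
  rw [← hF] at hspl hβ ⊢
  have hF0 : F ≠ 0 := hF ▸ (Polynomial.map_ne_zero_iff hinjk).2 ha0
  have hFE0 : F.map (algebraMap k E) ≠ 0 :=
    (Polynomial.map_ne_zero_iff (algebraMap k E).injective).2 hF0
  -- integrality
  have hθint : ∀ θ, aeval θ F = 0 → IsIntegral (𝓞 k) (algebraMap (𝓞 k) E a.leadingCoeff * θ) := by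
    intro θ hθ
    rw [hF, aeval_map_algebraMap] at hθ
    have := isIntegral_leadingCoeff_smul a θ hθ
    rwa [Algebra.smul_def] at this
  have hθs : ∀ θ, aeval θ F = 0 → θ ∈ B ∧ s θ ∈ B ∧
      red B (s θ) = red B θ ^ Nat.card (𝓞 k ⧸ P.asIdeal) := fun θ hθ => hs _ hc θ (hθint θ hθ)
  have hrt : ∀ θ : E, θ ∈ (F.map (algebraMap k E)).roots ↔ aeval θ F = 0 := by
    intro θ
    rw [mem_roots hFE0, IsRoot.def, eval_map_algebraMap]
  -- the evaluation
  have hev : ∀ (g : (𝓞 k)[X]) (θ : E) (hθ : θ ∈ B), red B (aeval θ (g.map (algebraMap (𝓞 k) k))) =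
      ((g.map (Ideal.Quotient.mk P.asIdeal)).map (jB hB)).eval (red B θ) ∧
      aeval θ (g.map (algebraMap (𝓞 k) k)) ∈ B := by
    intro g θ hθ
    have h1 : aeval θ (g.map (algebraMap (𝓞 k) k)) =
        (((g.map (rO hB)).eval ⟨θ, hθ⟩ : B) : E) := by
      have h2 : algebraMap B E ((g.map (rO hB)).eval ⟨θ, hθ⟩) =
          ((g.map (rO hB)).map (algebraMap B E)).eval θ :=
        (eval_map_apply (f := algebraMap B E) (p := g.map (rO hB)) (x := (⟨θ, hθ⟩ : B))).symm
      rw [show (((g.map (rO hB)).eval ⟨θ, hθ⟩ : B) : E) =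
        algebraMap B E ((g.map (rO hB)).eval ⟨θ, hθ⟩) from rfl, h2, map_rO, eval_map_algebraMap]
    refine ⟨?_, ?_⟩
    · have h3 : red B θ = residue B ⟨θ, hθ⟩ := red_coe (⟨θ, hθ⟩ : B)
      rw [h1, red_coe, ← map_rB hB g, h3]
      exact (eval_map_apply (f := residue B) (p := g.map (rO hB)) (x := (⟨θ, hθ⟩ : B))).symm
    · rw [h1]
      exact ((g.map (rO hB)).eval ⟨θ, hθ⟩).2
  have hBθ : ∀ θ ∈ (F.map (algebraMap k E)).roots, θ ∈ B := fun θ h => (hθs θ ((hrt θ).1 h)).1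
  have hlcF : F.leadingCoeff = algebraMap (𝓞 k) k a.leadingCoeff := by
    rw [hF, leadingCoeff_map_of_injective hinjk]
  have hfacE : (a.map (rO hB)) = C (rO hB a.leadingCoeff) *
      ((F.map (algebraMap k E)).roots.attach.map
        (fun θ => (X - C (⟨θ.1, hBθ θ.1 θ.2⟩ : B)))).prod := by
    apply Polynomial.map_injective (algebraMap B E) Subtype.val_injective
    rw [map_rO, Polynomial.map_mul, map_C, Polynomial.map_multiset_prod, Multiset.map_map]
    have h1 : (Multiset.map ((Polynomial.map (algebraMap B E)) ∘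
        (fun θ : {x // x ∈ (F.map (algebraMap k E)).roots} => (X - C (⟨θ.1, hBθ θ.1 θ.2⟩ : B))))
        (F.map (algebraMap k E)).roots.attach) =
        (F.map (algebraMap k E)).roots.map (fun θ => X - C θ) := by
      conv_rhs => rw [← Multiset.attach_map_val (F.map (algebraMap k E)).roots]
      rw [Multiset.map_map]
      refine Multiset.map_congr rfl fun θ _ => ?_
      simp only [Function.comp, Polynomial.map_sub, map_X, map_C]
      rfl
    rw [h1]
    have h2 := hspl.eq_prod_roots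
    have hl : algebraMap B E (rO hB a.leadingCoeff) = (F.map (algebraMap k E)).leadingCoeff := by
      rw [leadingCoeff_map, hlcF]
      rfl
    rw [← hF, hl]
    exact h2
  have hfac2 : fb.map (jB hB) = C (jB hB fb.leadingCoeff) *
      ((F.map (algebraMap k E)).roots.map (fun θ => X - C (red B θ))).prod := by
    rw [hfb, ← map_rB hB a, hfacE, Polynomial.map_mul, map_C, Polynomial.map_multiset_prod,
      Multiset.map_map, ← hfb, hlc]
    congr 2
    conv_rhs => rw [← Multiset.attach_map_val (F.map (algebraMap k E)).roots]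
    rw [Multiset.map_map]
    refine Multiset.map_congr rfl fun θ _ => ?_
    simp only [Function.comp, Polynomial.map_sub, map_X, map_C]
    congr 2
    exact (red_coe (⟨θ.1, hBθ θ.1 θ.2⟩ : B)).symm
  have hsep2 : (fb.map (jB hB)).Separable := hsep.map
  have hroots2 : (fb.map (jB hB)).roots = (F.map (algebraMap k E)).roots.map (red B) := by
    have h1 : fb.map (jB hB) ≠ 0 := hsep2.ne_zero
    rw [hfac2, roots_C_mul]
    · have h3 : (F.map (algebraMap k E)).roots.map (fun θ => X - C (red B θ)) =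
          ((F.map (algebraMap k E)).roots.map (red B)).map (fun x => X - C x) := by
        rw [Multiset.map_map]; rfl
      rw [h3, roots_multiset_prod_X_sub_C]
    · intro h0
      rw [h0, C_0, zero_mul] at hfac2
      exact h1 hfac2
  have hnd : ((F.map (algebraMap k E)).roots.map (red B)).Nodup := by
    rw [← hroots2]
    exact nodup_roots hsep2
  have hinj : ∀ θ θ' : E, aeval θ F = 0 → aeval θ' F = 0 → red B θ = red B θ' → θ = θ' := by
    intro θ θ' h1 h3 h4
    exact Multiset.inj_on_of_nodup_map hnd θ ((hrt θ).2 h1) θ' ((hrt θ').2 h3) h4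
  have hrS : ∀ x, x ∈ (fb.map (jB hB)).roots ↔ ∃ c ∈ S, jB hB c = x := by
    intro x
    rw [mem_roots hsep2.ne_zero, IsRoot.def, hfac, Polynomial.map_mul, map_C, Polynomial.map_prod,
      eval_mul, eval_C, eval_prod, mul_eq_zero, Finset.prod_eq_zero_iff]
    constructor
    · rintro (h | ⟨c, hcS, h⟩)
      · exact absurd ((map_eq_zero_iff _ (jB hB).injective).1 h) hd
      · refine ⟨c, hcS, ?_⟩
        rw [Polynomial.map_sub, map_X, map_C, eval_sub, eval_X, eval_C, sub_eq_zero] at h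
        exact h.symm
    · rintro ⟨c, hcS, rfl⟩
      exact Or.inr ⟨c, hcS, by rw [Polynomial.map_sub, map_X, map_C, eval_sub, eval_X, eval_C,
        sub_self]⟩
  have hpowq : ∀ c : 𝓞 k ⧸ P.asIdeal, jB hB c ^ Nat.card (𝓞 k ⧸ P.asIdeal) = jB hB c := by
    intro c
    rw [← map_pow, Nat.card_eq_fintype_card, FiniteField.pow_card]
  have hfix : ∀ θ, aeval θ F = 0 → s θ = θ := by
    intro θ hθ
    have h1 : red B θ ∈ (fb.map (jB hB)).roots := by
      rw [hroots2]
      exact Multiset.mem_map_of_mem _ ((hrt θ).2 hθ)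
    obtain ⟨c, -, hc'⟩ := (hrS _).1 h1
    apply hinj _ _ _ hθ
    · rw [(hθs θ hθ).2.2, ← hc', hpowq]
    · rw [aeval_algHom_apply s θ F, hθ, map_zero]
  have hex : ∀ c ∈ S, ∃ θ, aeval θ F = 0 ∧ red B θ = jB hB c := by
    intro c hcS
    have h1 : jB hB c ∈ (fb.map (jB hB)).roots := (hrS _).2 ⟨c, hcS, rfl⟩
    rw [hroots2, Multiset.mem_map] at h1
    obtain ⟨θ, hθ, h3⟩ := h1
    exact ⟨θ, (hrt θ).1 hθ, h3⟩
  -- the square roots
  have hβint : ∀ θ, aeval θ F = 0 → IsIntegral (𝓞 k)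
      (algebraMap (𝓞 k) E (a.leadingCoeff ^ b.natDegree) * β θ) := by
    intro θ hθ
    apply IsIntegral.of_pow (n := 2) (by norm_num)
    rw [mul_pow, hβ θ hθ, aeval_map_algebraMap, aeval_eq_sum_range, Finset.mul_sum]
    refine IsIntegral.sum _ fun i hi => ?_
    have hi' : i ≤ b.natDegree := by
      rw [Finset.mem_range] at hi
      omega
    obtain ⟨j, hj⟩ := Nat.exists_eq_add_of_le hi'
    have e : algebraMap (𝓞 k) E (a.leadingCoeff ^ b.natDegree) ^ 2 * b.coeff i • θ ^ i =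
        algebraMap (𝓞 k) E (a.leadingCoeff ^ b.natDegree * a.leadingCoeff ^ j * b.coeff i) *
          (algebraMap (𝓞 k) E a.leadingCoeff * θ) ^ i := by
      rw [Algebra.smul_def, hj]
      simp only [map_mul, map_pow]
      ring
    rw [e]
    exact isIntegral_algebraMap.mul ((hθint θ hθ).pow i)
  have hcpow : a.leadingCoeff ^ b.natDegree ∉ P.asIdeal := by
    intro h
    exact hc (P.isPrime.mem_of_pow_mem _ h)
  have hβs : ∀ θ, aeval θ F = 0 → β θ ∈ B ∧ s (β θ) ∈ B ∧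
      red B (s (β θ)) = red B (β θ) ^ Nat.card (𝓞 k ⧸ P.asIdeal) :=
    fun θ hθ => hs _ hcpow _ (hβint θ hθ)
  have hβpm : ∀ θ, aeval θ F = 0 → s (β θ) = β θ ∨ s (β θ) = - β θ := by
    intro θ hθ
    apply sq_eq_sq_iff_eq_or_eq_neg.1
    rw [← map_pow, hβ θ hθ, ← aeval_algHom_apply s θ, hfix θ hθ]
  have hredsq : ∀ θ, aeval θ F = 0 → ∀ c, red B θ = jB hB c →
      red B (β θ) ^ 2 = jB hB ((b.map (Ideal.Quotient.mk P.asIdeal)).eval c) := by
    intro θ hθ c hc'
    rw [← red_pow (hβs θ hθ).1, hβ θ hθ, (hev b θ (hθs θ hθ).1).1, hc', eval_map_apply]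
  obtain ⟨θ₁, z₁, w₁⟩ := hex c₁ hc₁
  obtain ⟨θ₂, z₂, w₂⟩ := hex c₂ hc₂
  have q₁ := hredsq θ₁ z₁ c₁ w₁
  have q₂ := hredsq θ₂ z₂ c₂ w₂
  have hne : red B (β θ₁) ≠ 0 := by
    intro h0
    rw [h0, zero_pow two_ne_zero] at q₁
    exact hne₁ ((map_eq_zero_iff _ (jB hB).injective).1 q₁.symm)
  have h2B : (2 : ResidueField B) ≠ 0 := by
    rw [← map_ofNat (jB hB) 2]
    exact (map_ne_zero_iff _ (jB hB).injective).2 h2
  have hz0 : red B (0 : E) = 0 := by
    have : red B ((0 : B) : E) = residue B 0 := red_coe 0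
    rw [map_zero] at this
    exact this
  refine ⟨s, θ₁, θ₂, z₁, z₂, ?_, ?_, ?_, ?_, hfix⟩
  · intro h0
    apply hne
    rw [h0, hz0]
  · intro h0
    apply hsq₂
    rw [h0, hz0, zero_pow two_ne_zero] at q₂
    have := (map_eq_zero_iff _ (jB hB).injective).1 q₂.symm
    rw [this]
    exact IsSquare.zero
  · rcases hβpm θ₁ z₁ with h | h
    · exact h
    · exfalso
      obtain ⟨y, hy⟩ := hsq₁
      have h3 : red B (β θ₁) = jB hB y ∨ red B (β θ₁) = - jB hB y := by
        apply sq_eq_sq_iff_eq_or_eq_neg.1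
        rw [q₁, hy, map_mul, sq]
      have h4 : red B (β θ₁) ^ Nat.card (𝓞 k ⧸ P.asIdeal) = red B (β θ₁) := by
        rcases h3 with h3 | h3
        · rw [h3, hpowq]
        · rw [h3, ← map_neg, hpowq]
      have h5 := (hβs θ₁ z₁).2.2
      have h6 : red B (- β θ₁) = - red B (β θ₁) := by
        have h7 : red B ((- (⟨β θ₁, (hβs θ₁ z₁).1⟩ : B) : B) : E) =
            residue B (- (⟨β θ₁, (hβs θ₁ z₁).1⟩ : B)) := red_coe _
        rw [map_neg] at h7
        have h8 : red B (β θ₁) = residue B (⟨β θ₁, (hβs θ₁ z₁).1⟩ : B) :=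
          red_coe (⟨β θ₁, (hβs θ₁ z₁).1⟩ : B)
        rw [h8]
        exact h7
      rw [h, h6, h4] at h5
      have h9 : 2 * red B (β θ₁) = 0 := by
        linear_combination -h5
      rcases mul_eq_zero.1 h9 with h10 | h10
      · exact h2B h10
      · exact hne h10
  · rcases hβpm θ₂ z₂ with h | h
    · exfalso
      have h5 := (hβs θ₂ z₂).2.2
      rw [h] at h5
      obtain ⟨y, hy⟩ := fixed_mem (jB hB) h5.symm
      apply hsq₂
      refine ⟨y, (jB hB).injective ?_⟩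
      rw [map_mul, hy, ← q₂, sq]
    · exact h

end frob

end Pool.Agent.X243.Sol
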