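import Pool.Agent.X243.Sol.Good
import Pool.Agent.X243.Sol.Frob2

/-!
No constant multiple of `b` is a square modulo `a`, over extensions of a number field.
-/

set_option autoImplicit false
set_option linter.all false

open Polynomial IsDedekindDomain NumberField
open scoped Classical

namespace Pool.Agent.X243.Sol

open Pool.Agent.TH115.GD Pool.Agent.X243.Tate

section ext

variable {k : Type} [Field k] {F : k[X]} {E : Type} [Field E] [Algebra k E] [FiniteDimensional k E]
  [IsGalois k E] {L L' : Type} [Field L] [Field L'] [Algebra k L] [Algebra L L'] [Algebra k L']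
  [IsScalarTower k L L'] [IsGalois L L'] [Algebra E L'] [IsScalarTower k E L']

/-- The elements which fix `M ∩ E` extend. -/
theorem lift_fix (M : IntermediateField k L') (hM : ∀ x : L, IsAlgebraic k x → algebraMap L L' x ∈ M)
    {σ : E ≃ₐ[k] E} (hσ : σ ∈ (ME E M).fixingSubgroup) :
    ∃ g : L' ≃ₐ[L] L', ∀ x : E, g (algebraMap E L' x) = algebraMap E L' (σ x) := by
  let ρ : (L' ≃ₐ[L] L') →* (E ≃ₐ[k] E) :=
    (AlgEquiv.restrictNormalHom E).comp (AlgEquiv.restrictScalarsHom k)
  have hρ : ∀ (g : L' ≃ₐ[L] L') (x : E), algebraMap E L' (ρ g x) = g (algebraMap E L' x) := by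
    intro g x
    exact AlgEquiv.restrictNormal_commutes (g.restrictScalars k) E x
  have hle : IntermediateField.fixedField ρ.range ≤ ME E M := by
    intro x hx
    rw [IntermediateField.mem_fixedField_iff] at hx
    rw [mem_ME]
    have h1 : algebraMap E L' x ∈ Set.range (algebraMap L L') := by
      rw [InfiniteGalois.mem_range_algebraMap_iff_fixed]
      intro g
      rw [← hρ, hx _ ⟨g, rfl⟩]
    obtain ⟨y, hy⟩ := h1
    rw [← hy]
    apply hM
    rw [← isAlgebraic_algebraMap_iff (algebraMap L L').injective, hy]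
    exact (Algebra.IsAlgebraic.isAlgebraic (R := k) x).algebraMap
  have hmem : σ ∈ ρ.range := by
    rw [← IntermediateField.fixingSubgroup_fixedField ρ.range]
    exact IntermediateField.fixingSubgroup_le hle hσ
  obtain ⟨g, rfl⟩ := hmem
  exact ⟨g, fun θ => (hρ g θ).symm⟩

/-- The even permutations of the roots are induced by elements which fix `M ∩ E`. -/
theorem even_fix (hspl : (F.map (algebraMap k E)).Splits)
    (hsurj : Function.Surjective (MulAction.toPermHom (E ≃ₐ[k] E) (F.rootSet E)))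
    (h5 : 5 ≤ Nat.card (F.rootSet E)) (M : IntermediateField k L') [Normal k M]
    (hns : ¬ (F.map (algebraMap k M)).Splits) (c : Equiv.Perm (F.rootSet E))
    (hc : c ∈ alternatingGroup (F.rootSet E)) :
    ∃ σ ∈ (ME E M).fixingSubgroup, MulAction.toPermHom (E ≃ₐ[k] E) (F.rootSet E) σ = c := by
  haveI hn2 : ((ME E M).fixingSubgroup.map
      (MulAction.toPermHom (E ≃ₐ[k] E) (F.rootSet E))).Normal :=
    (ME_normal (E := E) M).map _ hsurj
  have hnt : Nontrivial ((ME E M).fixingSubgroup.map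
      (MulAction.toPermHom (E ≃ₐ[k] E) (F.rootSet E))) := by
    rw [Subgroup.nontrivial_iff_ne_bot]
    intro hbot
    apply hns
    have h1 : ∀ θ ∈ F.rootSet E, θ ∈ ME E M := by
      intro θ hθ
      rw [← IsGalois.fixedField_fixingSubgroup (ME E M)]
      rw [IntermediateField.mem_fixedField_iff]
      intro σ hσ
      have h2 : MulAction.toPermHom (E ≃ₐ[k] E) (F.rootSet E) σ = 1 := by
        rw [← Subgroup.mem_bot, ← hbot]
        exact ⟨σ, hσ, rfl⟩
      have h3 := congrArg (fun p : Equiv.Perm (F.rootSet E) => ((p ⟨θ, hθ⟩ : F.rootSet E) : E)) h2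
      exact h3
    have h4 : (F.map (algebraMap k L')).Splits := by
      rw [IsScalarTower.algebraMap_eq k E L', ← Polynomial.map_map]
      exact hspl.map _
    apply IntermediateField.splits_of_splits h4
    intro x hx
    rw [← hspl.image_rootSet_algebraMap (B := L')] at hx
    obtain ⟨θ, hθ, rfl⟩ := hx
    exact h1 θ hθ
  have halt := Equiv.Perm.alternatingGroup_le_of_normal h5 hnt
  obtain ⟨σ, hσ, h⟩ := halt hc
  exact ⟨σ, hσ, h⟩

end ext

section sgn

variable {k : Type} [Field k] [NumberField k]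

/-- There is an automorphism which fixes the roots of `a`, and changes the sign of `√b(θ₂)` but not of
`√b(θ₁)`. -/
def SgnE (a b : k[X]) : Prop :=
  ∀ (E : Type) [Field E] [NumberField E] [Algebra k E] [IsGalois k E],
    (a.map (algebraMap k E)).Splits → ∀ β : E → E,
      (∀ θ, aeval θ a = 0 → β θ ^ 2 = aeval θ b) →
      ∃ (s : E ≃ₐ[k] E) (θ₁ θ₂ : E), aeval θ₁ a = 0 ∧ aeval θ₂ a = 0 ∧ β θ₁ ≠ 0 ∧ β θ₂ ≠ 0 ∧
        s (β θ₁) = β θ₁ ∧ s (β θ₂) = - β θ₂ ∧ ∀ θ, aeval θ a = 0 → s θ = θ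

/-- The contradiction in a large finite extension. -/
theorem key_aux {a b : k[X]} (ha : a.Separable) (h5 : 5 ≤ a.natDegree) (hfull : Full a)
    (hsg : SgnE a b) (L L' : Type) [Field L] [Field L'] [Algebra k L] [Algebra L L'] [Algebra k L']
    [IsScalarTower k L L'] [IsGalois L L'] [IsAlgClosed L'] (M : IntermediateField k L') [Normal k M]
    (hM : ∀ x : L, IsAlgebraic k x → algebraMap L L' x ∈ M)
    (hns : ¬ (a.map (algebraMap k M)).Splits) (δ : L) (hδ : δ ≠ 0) (z : L[X])
    (hdvd : a.map (algebraMap k L) ∣ z ^ 2 - C δ * b.map (algebraMap k L))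
    {E : Type} [Field E] [NumberField E] [Algebra k E] [IsGalois k E] [Algebra E L']
    [IsScalarTower k E L'] (hspa : (a.map (algebraMap k E)).Splits)
    (hsqE : ∀ θ : E, aeval θ a = 0 → ∃ y : E, y ^ 2 = aeval θ b) : False := by
  haveI : FiniteDimensional k E := Module.Finite.of_restrictScalars_finite ℚ k E
  haveI : CharZero L' := charZero_of_injective_algebraMap (algebraMap k L').injective
  obtain ⟨β, hβ⟩ : ∃ β : E → E, ∀ θ, aeval θ a = 0 → β θ ^ 2 = aeval θ b := by
    refine ⟨fun θ => if h : ∃ y : E, y ^ 2 = aeval θ b then h.choose else 0, fun θ hθ => ?_⟩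
    have h := hsqE θ hθ
    show (if h : ∃ y : E, y ^ 2 = aeval θ b then h.choose else 0) ^ 2 = _
    rw [dif_pos h]
    exact h.choose_spec
  obtain ⟨s, θ₁, θ₂, z₁, z₂, n₁, n₂, s₁, s₂, sfix⟩ := hsg E hspa β hβ
  have hsurj := hfull E hspa
  have hcard : Nat.card (a.rootSet E) = a.natDegree := by
    rw [Nat.card_eq_fintype_card, card_rootSet_eq_natDegree ha hspa]
  have hmemR : ∀ θ : E, aeval θ a = 0 → θ ∈ a.rootSet E := fun θ h => mem_rootSet.2 ⟨ha.ne_zero, h⟩
  have hRmem : ∀ θ : a.rootSet E, aeval (θ : E) a = 0 := fun θ => aeval_eq_zero_of_mem_rootSet θ.2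
  obtain ⟨t₁, ht₁⟩ : ∃ t : a.rootSet E, (t : E) = θ₁ := ⟨⟨θ₁, hmemR _ z₁⟩, rfl⟩
  obtain ⟨t₂, ht₂⟩ : ∃ t : a.rootSet E, (t : E) = θ₂ := ⟨⟨θ₂, hmemR _ z₂⟩, rfl⟩
  have h12 : t₁ ≠ t₂ := by
    intro h
    have h1 : θ₁ = θ₂ := by rw [← ht₁, ← ht₂, h]
    rw [← h1, s₁] at s₂
    have h2 : (2 : E) * β θ₁ = 0 := by linear_combination s₂
    rcases mul_eq_zero.1 h2 with h3 | h3
    · exact two_ne_zero h3
    · exact n₁ h3
  obtain ⟨t₃, h13, h23⟩ : ∃ t : a.rootSet E, t₁ ≠ t ∧ t₂ ≠ t := by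
    by_contra hall
    push Not at hall
    have h4 : (Finset.univ : Finset (a.rootSet E)) ⊆ {t₁, t₂} := by
      intro t _
      rw [Finset.mem_insert, Finset.mem_singleton]
      by_cases ht : t₁ = t
      · exact Or.inl ht.symm
      · exact Or.inr (hall t ht).symm
    have h5' := Finset.card_le_card h4
    have h6 := Finset.card_le_two (a := t₁) (b := t₂)
    rw [Finset.card_univ, ← Nat.card_eq_fintype_card, hcard] at h5'
    omega
  obtain ⟨t₄, h14, h24, h34⟩ : ∃ t : a.rootSet E, t₁ ≠ t ∧ t₂ ≠ t ∧ t₃ ≠ t := by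
    by_contra hall
    push Not at hall
    have h4 : (Finset.univ : Finset (a.rootSet E)) ⊆ {t₁, t₂, t₃} := by
      intro t _
      rw [Finset.mem_insert, Finset.mem_insert, Finset.mem_singleton]
      by_cases ht : t₁ = t
      · exact Or.inl ht.symm
      by_cases ht2 : t₂ = t
      · exact Or.inr (Or.inl ht2.symm)
      · exact Or.inr (Or.inr (hall t ht ht2).symm)
    have h5' := Finset.card_le_card h4
    have h6 := Finset.card_le_three (a := t₁) (b := t₂) (c := t₃)
    rw [Finset.card_univ, ← Nat.card_eq_fintype_card, hcard] at h5'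
    omega
  obtain ⟨h, hh, hc⟩ := even_fix (F := a) (E := E) (L' := L') hspa hsurj
    (by rw [hcard]; exact h5) M hns (Equiv.swap t₁ t₃ * Equiv.swap t₂ t₃)
    (Equiv.Perm.mul_mem_alternatingGroup_of_isSwap ⟨t₁, t₃, h13, rfl⟩ ⟨t₂, t₃, h23, rfl⟩)
  have hact : ∀ t : a.rootSet E, h (t : E) =
      (((Equiv.swap t₁ t₃ * Equiv.swap t₂ t₃) t : a.rootSet E) : E) := by
    intro t
    rw [← hc]
    rfl
  have hh2 : h θ₂ = θ₁ := by
    have := hact t₂
    rw [Equiv.Perm.mul_apply, Equiv.swap_apply_left, Equiv.swap_apply_right] at this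
    rwa [ht₁, ht₂] at this
  have hh4 : h (t₄ : E) = t₄ := by
    have := hact t₄
    rwa [Equiv.Perm.mul_apply, Equiv.swap_apply_of_ne_of_ne h24.symm h34.symm,
      Equiv.swap_apply_of_ne_of_ne h14.symm h34.symm] at this
  have hinv1 : h⁻¹ θ₁ = θ₂ := by
    rw [← hh2]
    exact h.symm_apply_apply θ₂
  have hinv4 : h⁻¹ (t₄ : E) = t₄ := by
    conv_lhs => rw [← hh4]
    exact h.symm_apply_apply _
  have hpm : ∀ (τ : E ≃ₐ[k] E) (θ : E), aeval θ a = 0 → aeval (τ θ) a = 0 ∧
      (τ (β θ) = β (τ θ) ∨ τ (β θ) = - β (τ θ)) := by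
    intro τ θ hθ
    have h1 : aeval (τ θ) a = 0 := by
      rw [aeval_algHom_apply τ θ a, hθ, map_zero]
    refine ⟨h1, sq_eq_sq_iff_eq_or_eq_neg.1 ?_⟩
    rw [← map_pow, hβ θ hθ, hβ _ h1, aeval_algHom_apply τ θ b]
  have sinv : ∀ θ, aeval θ a = 0 → s⁻¹ θ = θ := by
    intro θ hθ
    have := sfix θ hθ
    conv_lhs => rw [← this]
    exact s.symm_apply_apply θ
  obtain ⟨g, hg⟩ : ∃ g : E ≃ₐ[k] E, g = s * h * s⁻¹ * h⁻¹ := ⟨_, rfl⟩
  have hgmem : g ∈ (ME E M).fixingSubgroup := by
    rw [hg]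
    exact mul_mem ((ME_normal (E := E) M).conj_mem h hh s) (inv_mem hh)
  have hgap : ∀ x, g x = s (h (s⁻¹ (h⁻¹ x))) := by
    intro x
    rw [hg]
    rfl
  have hhinv : ∀ x, h (h⁻¹ x) = x := fun x => h.apply_symm_apply x
  have hsinv : ∀ x, s (s⁻¹ x) = x := fun x => s.apply_symm_apply x
  have hgfix : ∀ θ, aeval θ a = 0 → g θ = θ := by
    intro θ hθ
    have h1 : aeval (h⁻¹ θ) a = 0 := (hpm h⁻¹ θ hθ).1
    rw [hgap, sinv _ h1, hhinv, sfix θ hθ]
  have hs2' : s⁻¹ (β θ₂) = - β θ₂ := by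
    have h1 : s (- β θ₂) = β θ₂ := by rw [map_neg, s₂, neg_neg]
    conv_lhs => rw [← h1]
    exact s.symm_apply_apply _
  have hg1 : g (β θ₁) = - β θ₁ := by
    have h1 : s⁻¹ (h⁻¹ (β θ₁)) = - h⁻¹ (β θ₁) := by
      rcases (hpm h⁻¹ θ₁ z₁).2 with h2 | h2
      · rw [h2, hinv1, hs2']
      · rw [h2, hinv1, map_neg, hs2']
    rw [hgap, h1, map_neg, hhinv, map_neg, s₁]
  have z₄ : aeval (t₄ : E) a = 0 := hRmem t₄
  have hg4 : g (β t₄) = β t₄ := by
    have e1 : h⁻¹ (β t₄) = β t₄ ∨ h⁻¹ (β t₄) = - β t₄ := by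
      have := (hpm h⁻¹ t₄ z₄).2
      rwa [hinv4] at this
    have e2 : s⁻¹ (β t₄) = β t₄ ∨ s⁻¹ (β t₄) = - β t₄ := by
      have := (hpm s⁻¹ t₄ z₄).2
      rwa [sinv _ z₄] at this
    have e3 : s⁻¹ (h⁻¹ (β t₄)) = h⁻¹ (s⁻¹ (β t₄)) := by
      rcases e1 with e1 | e1 <;> rcases e2 with e2 | e2 <;>
        simp only [e1, e2, map_neg]
    rw [hgap, e3, hhinv, hsinv]
  have n₄ : β t₄ ≠ 0 := by
    intro h0
    obtain ⟨τ, hτ⟩ := hsurj (Equiv.swap t₁ t₄)
    have h1 : τ θ₁ = t₄ := by
      have h2 := congrArg (fun p : Equiv.Perm (a.rootSet E) => ((p t₁ : a.rootSet E) : E)) hτ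
      simp only [Equiv.swap_apply_left] at h2
      rw [← h2, ← ht₁]
      rfl
    rcases (hpm τ θ₁ z₁).2 with h2 | h2
    · rw [h1, h0] at h2
      exact n₁ ((map_eq_zero_iff τ τ.injective).1 h2)
    · rw [h1, h0, neg_zero] at h2
      exact n₁ ((map_eq_zero_iff τ τ.injective).1 h2)
  obtain ⟨γ, hγ⟩ := lift_fix (L := L) (L' := L') M hM hgmem
  -- the values of `z`
  obtain ⟨ρ, hρ⟩ : ∃ ρ : L', ρ ^ 2 = algebraMap L L' δ :=
    IsAlgClosed.exists_pow_nat_eq _ (by norm_num)
  have hρ0 : ρ ≠ 0 := by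
    intro h0
    rw [h0, zero_pow two_ne_zero] at hρ
    exact hδ ((map_eq_zero_iff _ (algebraMap L L').injective).1 hρ.symm)
  have hval : ∀ θ : E, aeval θ a = 0 → γ (ρ * algebraMap E L' (β θ)) = ρ * algebraMap E L' (β θ) := by
    intro θ hθ
    obtain ⟨w, hw⟩ := hdvd
    have h1 := congrArg (aeval (algebraMap E L' θ)) hw
    have e1 : aeval (algebraMap E L' θ) a = 0 := by
      rw [aeval_algebraMap_apply, hθ, map_zero]
    have e2 : aeval (algebraMap E L' θ) b = algebraMap E L' (β θ) ^ 2 := by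
      rw [aeval_algebraMap_apply, ← hβ θ hθ, map_pow]
    rw [map_sub, map_pow, map_mul, map_mul, aeval_C, aeval_map_algebraMap, aeval_map_algebraMap,
      e1, e2, zero_mul, ← hρ, ← mul_pow, sub_eq_zero] at h1
    have h2 : γ (aeval (algebraMap E L' θ) z) = aeval (algebraMap E L' θ) z := by
      rw [← aeval_algHom_apply γ, hγ, hgfix θ hθ]
    rcases sq_eq_sq_iff_eq_or_eq_neg.1 h1 with h3 | h3
    · rw [h3] at h2
      exact h2
    · rw [h3, map_neg, neg_inj] at h2
      exact h2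
  have v1 := hval θ₁ z₁
  have v4 := hval t₄ z₄
  rw [map_mul, hγ, hg1, map_neg] at v1
  rw [map_mul, hγ, hg4] at v4
  have m1 : algebraMap E L' (β θ₁) ≠ 0 := (map_ne_zero_iff _ (algebraMap E L').injective).2 n₁
  have m4 : algebraMap E L' (β t₄) ≠ 0 := (map_ne_zero_iff _ (algebraMap E L').injective).2 n₄
  have w4 := mul_right_cancel₀ m4 v4
  rw [w4] at v1
  have w1 : (2 : L') * (ρ * algebraMap E L' (β θ₁)) = 0 := by linear_combination -v1
  rcases mul_eq_zero.1 w1 with w | w
  · exact two_ne_zero w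
  · exact mul_ne_zero hρ0 m1 w

theorem key_ext {a b : k[X]} (ha : a.Separable) (h5 : 5 ≤ a.natDegree) (hfull : Full a)
    (hsg : SgnE a b) (L L' : Type) [Field L] [Field L'] [Algebra k L] [Algebra L L'] [Algebra k L']
    [IsScalarTower k L L'] [IsSepClosure L L'] (M : IntermediateField k L') [Normal k M]
    (hM : ∀ x : L, IsAlgebraic k x → algebraMap L L' x ∈ M)
    (hns : ¬ (a.map (algebraMap k M)).Splits) (δ : L) (hδ : δ ≠ 0) (z : L[X]) :
    ¬ a.map (algebraMap k L) ∣ z ^ 2 - C δ * b.map (algebraMap k L) := by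
  intro hdvd
  haveI : CharZero L := charZero_of_injective_algebraMap (algebraMap k L).injective
  haveI : CharZero L' := charZero_of_injective_algebraMap (algebraMap k L').injective
  haveI : IsSepClosed L' := IsSepClosure.sep_closed L
  haveI : IsAlgClosed L' := inferInstance
  haveI : IsGalois L L' := IsSepClosure.isGalois
  -- the square roots
  have hroot : ∀ x : L', ∃ y : L', y ^ 2 = x := fun x =>
    IsAlgClosed.exists_pow_nat_eq x (by norm_num)
  choose rt hrt using hroot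
  obtain ⟨T, hT⟩ : ∃ T : Finset L', T = (a.rootSet L').toFinset.image
    (fun θ => rt (aeval θ b)) := ⟨_, rfl⟩
  have hTint : ∀ x ∈ T, IsIntegral k x := by
    intro x hx
    rw [hT, Finset.mem_image] at hx
    obtain ⟨θ, hθ, rfl⟩ := hx
    rw [Set.mem_toFinset] at hθ
    apply IsIntegral.of_pow (n := 2) (by norm_num)
    rw [hrt]
    have h1 : IsIntegral k θ := by
      rw [← isAlgebraic_iff_isIntegral]
      exact ⟨a, ha.ne_zero, aeval_eq_zero_of_mem_rootSet hθ⟩
    exact IsIntegral.of_mem_of_fg (Algebra.adjoin k {θ}) h1.fg_adjoin_singleton _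
      (aeval_mem_adjoin_singleton k θ)
  obtain ⟨G, hG⟩ : ∃ G : k[X], G = ∏ x ∈ T, minpoly k x := ⟨_, rfl⟩
  have hG0 : G ≠ 0 := by
    rw [hG, Finset.prod_ne_zero_iff]
    exact fun x hx => minpoly.ne_zero (hTint x hx)
  obtain ⟨H, hH⟩ : ∃ H : k[X], H = a * G := ⟨_, rfl⟩
  have hH0 : H ≠ 0 := hH ▸ mul_ne_zero ha.ne_zero hG0
  have hsp := SplittingField.splits H
  haveI : FiniteDimensional k H.SplittingField := inferInstance
  haveI : CharZero H.SplittingField := charZero_of_injective_algebraMap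
    (algebraMap k H.SplittingField).injective
  haveI : NumberField H.SplittingField := NumberField.of_module_finite k H.SplittingField
  haveI : IsGalois k H.SplittingField := ⟨⟩
  obtain ⟨i, -⟩ : ∃ i : H.SplittingField →ₐ[k] L', i = i := ⟨IsAlgClosed.lift, rfl⟩
  letI : Algebra H.SplittingField L' := i.toRingHom.toAlgebra
  haveI : IsScalarTower k H.SplittingField L' :=
    IsScalarTower.of_algebraMap_eq fun x => (i.commutes x).symm
  have hHE : H.map (algebraMap k H.SplittingField) ≠ 0 :=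
    (Polynomial.map_ne_zero_iff (algebraMap k H.SplittingField).injective).2 hH0
  have hspa : (a.map (algebraMap k H.SplittingField)).Splits := by
    exact hsp.of_dvd hHE ((mapRingHom (algebraMap k H.SplittingField)).map_dvd
      (Dvd.intro _ hH.symm))
  have hspT : ∀ x ∈ T, ((minpoly k x).map (algebraMap k H.SplittingField)).Splits := by
    intro x hx
    have hd : minpoly k x ∣ G := by
      rw [hG]
      exact Finset.dvd_prod_of_mem _ hx
    exact hsp.of_dvd hHE ((mapRingHom (algebraMap k H.SplittingField)).map_dvd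
      (hd.trans (Dvd.intro_left _ hH.symm)))
  have hsqE : ∀ θ : H.SplittingField, aeval θ a = 0 →
      ∃ y : H.SplittingField, y ^ 2 = aeval θ b := by
    intro θ hθ
    have h1 : aeval (algebraMap H.SplittingField L' θ) a = 0 := by
      rw [aeval_algebraMap_apply, hθ, map_zero]
    have h2 : rt (aeval (algebraMap H.SplittingField L' θ) b) ∈ T := by
      rw [hT, Finset.mem_image]
      refine ⟨algebraMap H.SplittingField L' θ, ?_, rfl⟩
      rw [Set.mem_toFinset, mem_rootSet]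
      exact ⟨ha.ne_zero, h1⟩
    have h3 : (((minpoly k (rt (aeval (algebraMap H.SplittingField L' θ) b))).map
        (algebraMap k H.SplittingField)).map (algebraMap H.SplittingField L')).IsRoot
        (rt (aeval (algebraMap H.SplittingField L' θ) b)) := by
      rw [Polynomial.map_map, ← IsScalarTower.algebraMap_eq, IsRoot.def, eval_map_algebraMap,
        minpoly.aeval]
    obtain ⟨y, hy⟩ := (hspT _ h2).mem_range_of_isRoot
      ((Polynomial.map_ne_zero_iff (algebraMap k H.SplittingField).injective).2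
        (minpoly.ne_zero (hTint _ h2))) h3
    refine ⟨y, (algebraMap H.SplittingField L').injective ?_⟩
    rw [map_pow, hy, hrt, aeval_algebraMap_apply]
  exact key_aux ha h5 hfull hsg L L' M hM hns δ hδ z hdvd hspa hsqE

end sgn

end Pool.Agent.X243.Sol
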