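import Pool.Agent.X243.Sol.Cnt7
import Pool.Agent.X243.Sol.SgnE
import Pool.Agent.X243.Sol.Main
import Pool.Agent.X243.FL.Full
import Pool.Agent.X243.Tate.Ev4

/-!
The Tate conjecture at two over extensions of the ground field for 100% of the elliptic surfaces with
full level two, and all the twists by constants.
-/

set_option autoImplicit false
set_option linter.all false

open Polynomial IsDedekindDomain NumberField
open scoped Classical

namespace Pool.Agent.X243.Sol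

open Pool.Agent.TH115.GD Pool.Agent.X243.Tate Pool.Agent.Y160.T3

section main

variable {A k : Type} [Field A] [NumberField A] [Field k] [NumberField k] [Algebra A k]

theorem sgn_of {N B : ℕ} {a b : (𝓞 A)[X]} (ha : a.natDegree ≤ N) {p : HeightOneSpectrum (𝓞 A)}
    (hp : p ∈ Zset A k B) (h : J4 N (a.map (Ideal.Quotient.mk p.asIdeal))
      (b.map (Ideal.Quotient.mk p.asIdeal))) :
    SgnE (a.map (algebraMap (𝓞 A) k)) (b.map (algebraMap (𝓞 A) k)) := by
  have h2 := two_quot A k hp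
  obtain ⟨⟨P, a1, a2⟩, -⟩ := hp
  obtain ⟨θ, hθ⟩ := exists_theta p P a1 a2
  have h3 := J4_map θ h
  rw [← red_map hθ, ← red_map hθ] at h3
  have h2' : (2 : 𝓞 k ⧸ P.asIdeal) ≠ 0 := by
    rw [← map_ofNat θ 2]
    exact (map_ne_zero_iff _ θ.injective).2 h2
  intro E _ _ _ _ hspl β hβ
  rw [← map_twice (A := A) (k := k) a] at hspl hβ ⊢
  rw [← map_twice (A := A) (k := k) b] at hβ
  exact frob_sign P (natDegree_map_le.trans ha) h2' h3 hspl β hβ

theorem cop_of {a b : k[X]} {N : ℕ} (hN : 5 ≤ N) (ha : I1 N a) (fa : Full a) (hsg : SgnE a b) :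
    IsCoprime a b := by
  rw [ha.1.coprime_iff_not_dvd]
  intro hd
  haveI : NumberField a.SplittingField := by
    haveI : CharZero a.SplittingField := charZero_of_injective_algebraMap
      (algebraMap k a.SplittingField).injective
    exact NumberField.of_module_finite k a.SplittingField
  haveI : IsGalois k a.SplittingField := ⟨⟩
  have hz : ∀ θ : a.SplittingField, aeval θ a = 0 → aeval θ b = 0 := by
    intro θ hθ
    obtain ⟨c, rfl⟩ := hd
    rw [map_mul, hθ, zero_mul]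
  obtain ⟨s, θ₁, θ₂, z₁, -, n₁, -⟩ := hsg a.SplittingField (SplittingField.splits a) (fun _ => 0)
    (fun θ hθ => by
      show (0 : a.SplittingField) ^ 2 = _
      rw [hz θ hθ, zero_pow two_ne_zero])
  exact n₁ rfl

theorem fl_ext {a b : k[X]} {N : ℕ} (hN : 5 ≤ N) (ha : I1 N a) (hb : I1 N b) (hc : I1 N (a - b))
    (fa : Full a) (fb : Full b) (fc : Full (a - b)) (hsg : SgnE a b)
    {L L' K F : Type} [Field L] [Algebra k L] [Field L']
    [Algebra L L'] [Algebra k L'] [IsScalarTower k L L'] [Field K] [Algebra L[X] K]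
    [Field F] [Algebra L'[X] F] [IsFractionRing L'[X] F] [Algebra K F] (hT : IsTower L L' K F)
    (M : IntermediateField k L') (hMn : Normal k M)
    (hM : ∀ x : L, IsAlgebraic k x → algebraMap L L' x ∈ M)
    (h1 : ¬ (a.map (algebraMap k M)).Splits) (h2 : ¬ (b.map (algebraMap k M)).Splits)
    (h3 : ¬ ((a - b).map (algebraMap k M)).Splits) (δ : L) (hδ : δ ≠ 0) :
    TateAtTwo (F := F) L' (crv (algebraMap L[X] K (C δ * a.map (algebraMap k L)))
      (algebraMap L[X] K (C δ * b.map (algebraMap k L)))) ∧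
    GeneratedBy (F := F) L' (crv (algebraMap L[X] K (C δ * a.map (algebraMap k L)))
      (algebraMap L[X] K (C δ * b.map (algebraMap k L)))) 0 := by
  haveI := hT.sep
  haveI : CharZero L := charZero_of_injective_algebraMap (algebraMap k L).injective
  obtain ⟨i1, n1⟩ := three_of ha.1.separable (by rw [ha.2]; exact hN) fa L L' M hM h1
  obtain ⟨i2, n2⟩ := three_of hb.1.separable (by rw [hb.2]; exact hN) fb L L' M hM h2
  obtain ⟨i3, n3⟩ := three_of hc.1.separable (by rw [hc.2]; exact hN) fc L L' M hM h3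
  rw [Polynomial.map_sub] at i3
  have s1 : (a.map (algebraMap k L)).Separable := ha.1.separable.map
  have s2 : (b.map (algebraMap k L)).Separable := hb.1.separable.map
  have s3 : (a.map (algebraMap k L) - b.map (algebraMap k L)).Separable := by
    rw [← Polynomial.map_sub]
    exact hc.1.separable.map
  have key := key_ext ha.1.separable (by rw [ha.2]; exact hN) fa hsg L L' M hM h1
  have hco : IsCoprime (a.map (algebraMap k L)) (b.map (algebraMap k L)) := by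
    rw [i1.coprime_iff_not_dvd]
    intro hd
    refine key 1 one_ne_zero 0 ?_
    have e : (0 : L[X]) ^ 2 - C 1 * b.map (algebraMap k L) = -b.map (algebraMap k L) := by
      rw [C_1]
      ring
    rw [e]
    exact hd.neg_right
  exact Pool.Agent.X243.FL.full_twist hT two_ne_zero i1 i2 i3 s1 s2 s3 hco n1 n2 key hδ

theorem fl_rad {a b : k[X]} {N : ℕ} (hN : 5 ≤ N) (ha : I1 N a) (hb : I1 N b) (hc : I1 N (a - b))
    (fa : Full a) (fb : Full b) (fc : Full (a - b)) (hsg : SgnE a b)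
    {L L' K F : Type} [Field L] [Algebra k L] [Field L']
    [Algebra L L'] [Algebra k L'] [IsScalarTower k L L'] [Field K] [Algebra L[X] K]
    [Field F] [Algebra L'[X] F] [IsFractionRing L'[X] F] [Algebra K F] (hT : IsTower L L' K F)
    (hM : ∀ x : L, IsAlgebraic k x → algebraMap L L' x ∈ solvableByRad k L') (δ : L) (hδ : δ ≠ 0) :
    TateAtTwo (F := F) L' (crv (algebraMap L[X] K (C δ * a.map (algebraMap k L)))
      (algebraMap L[X] K (C δ * b.map (algebraMap k L)))) ∧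
    GeneratedBy (F := F) L' (crv (algebraMap L[X] K (C δ * a.map (algebraMap k L)))
      (algebraMap L[X] K (C δ * b.map (algebraMap k L)))) 0 := by
  haveI := hT.sep
  haveI : CharZero L' := charZero_of_injective_algebraMap (algebraMap k L').injective
  haveI : IsSepClosed L' := IsSepClosure.sep_closed L
  haveI : IsAlgClosed L' := inferInstance
  exact fl_ext hN ha hb hc fa fb fc hsg hT (solvableByRad k L') normal_rad hM
    (not_splits_rad ha.1 (by rw [ha.2]; exact hN) fa)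
    (not_splits_rad hb.1 (by rw [hb.2]; exact hN) fb)
    (not_splits_rad hc.1 (by rw [hc.2]; exact hN) fc) δ hδ

theorem fl_good {N B : ℕ} (hN : 5 ≤ N) {y : Fin (N + 1) ⊕ Fin (N + 1) → 𝓞 A}
    (h : ∀ s : Option (Fin 3 × Fin 3), ∃ p ∈ Zset A k B,
      (fun j => Ideal.Quotient.mk p.asIdeal (y j)) ∈ Fe7 N s (𝓞 A ⧸ p.asIdeal)) (a b : k[X])
    (ha : a = (bF (y ∘ Sum.inl)).map (algebraMap (𝓞 A) k))
    (hb : b = (bF (y ∘ Sum.inr)).map (algebraMap (𝓞 A) k)) :
    (I1 N a ∧ Full a) ∧ (I1 N b ∧ Full b) ∧ (I1 N (a - b) ∧ Full (a - b)) ∧ SgnE a b := by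
  have hPd : (bF (y ∘ Sum.inl)).natDegree ≤ N := bF_nd _
  have hQd : (bF (y ∘ Sum.inr)).natDegree ≤ N := bF_nd _
  have hDd : (bF (y ∘ Sum.inl) - bF (y ∘ Sum.inr)).natDegree ≤ N :=
    (natDegree_sub_le _ _).trans (max_le hPd hQd)
  have key : ∀ (G : (𝓞 A)[X]), G.natDegree ≤ N →
      (∀ t : Fin 3, ∃ p ∈ Zset A k B, ∃ w ∈ Ev (𝓞 A ⧸ p.asIdeal) N t,
        bF w = G.map (Ideal.Quotient.mk p.asIdeal)) →
      I1 N (G.map (algebraMap (𝓞 A) k)) ∧ Full (G.map (algebraMap (𝓞 A) k)) := by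
    intro G hG hev
    obtain ⟨p0, z0, w0, e0, g0⟩ := hev 0
    obtain ⟨p1, z1, w1, e1, g1⟩ := hev 1
    obtain ⟨p2, z2, w2, e2, g2⟩ := hev 2
    have f0 : I1 N (bF w0) := e0
    have f1 : I2 N (bF w1) := e1
    have f2 : I3 N (bF w2) := e2
    rw [g0] at f0
    rw [g1] at f1
    rw [g2] at f2
    have hirr := lift_irr z0 hG f0.2 f0.1
    exact ⟨hirr, full_of (by omega) hG hirr.1 z1 z2 f1 f2⟩
  have k1 := key (bF (y ∘ Sum.inl)) hPd (fun t => by
    obtain ⟨p, hp, e⟩ := h (some (0, t))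
    refine ⟨p, hp, (fun j => Ideal.Quotient.mk p.asIdeal (y j)) ∘ Sum.inl, e, ?_⟩
    rw [bF_map]
    rfl)
  have k2 := key (bF (y ∘ Sum.inr)) hQd (fun t => by
    obtain ⟨p, hp, e⟩ := h (some (1, t))
    refine ⟨p, hp, (fun j => Ideal.Quotient.mk p.asIdeal (y j)) ∘ Sum.inr, e, ?_⟩
    rw [bF_map]
    rfl)
  have k3 := key (bF (y ∘ Sum.inl) - bF (y ∘ Sum.inr)) hDd (fun t => by
    obtain ⟨p, hp, e⟩ := h (some (2, t))
    refine ⟨p, hp, fun j => Ideal.Quotient.mk p.asIdeal (y (Sum.inl j)) -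
      Ideal.Quotient.mk p.asIdeal (y (Sum.inr j)), e, ?_⟩
    rw [Polynomial.map_sub, bF_map, bF_map, bF_sub]
    rfl)
  rw [Polynomial.map_sub, ← ha, ← hb] at k3
  rw [← ha] at k1
  rw [← hb] at k2
  refine ⟨k1, k2, k3, ?_⟩
  obtain ⟨p, hp, e⟩ := h none
  have e' : J4 N ((bF (y ∘ Sum.inl)).map (Ideal.Quotient.mk p.asIdeal))
      ((bF (y ∘ Sum.inr)).map (Ideal.Quotient.mk p.asIdeal)) := by
    rw [bF_map, bF_map]
    exact e
  rw [ha, hb]
  exact sgn_of hPd hp e'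

theorem Fe7_Z {N : ℕ} (hN : 3 ≤ N) (s : Option (Fin 3 × Fin 3)) {p : HeightOneSpectrum (𝓞 A)}
    (hp : p ∈ Zset A k (2 * N + 2)) :
    (1 / ((D7 N : ℕ) : ℝ)) * (Nat.card (𝓞 A ⧸ p.asIdeal) : ℝ) ^
      (Fintype.card (Fin (N + 1) ⊕ Fin (N + 1))) ≤ ((Fe7 N s (𝓞 A ⧸ p.asIdeal)).ncard : ℝ) := by
  haveI := p.isMaximal
  letI : Field (𝓞 A ⧸ p.asIdeal) := Ideal.Quotient.field p.asIdeal
  haveI : Finite (𝓞 A ⧸ p.asIdeal) := Ideal.finiteQuotientOfFreeOfNeBot _ p.ne_bot
  have h1 := Fe7_card (F := 𝓞 A ⧸ p.asIdeal) hN hp.2.2 (two_quot A k hp) s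
  have hc : Fintype.card (Fin (N + 1) ⊕ Fin (N + 1)) = 2 * N + 2 := by
    rw [Fintype.card_sum, Fintype.card_fin]
    omega
  have hD : (0 : ℝ) < ((D7 N : ℕ) : ℝ) := by
    have : 0 < D7 N := D7_pos (by omega)
    exact_mod_cast this
  rw [hc, one_div, inv_mul_le_iff₀ hD]
  exact_mod_cast h1

variable (A k) in
theorem dens_seven {N : ℕ} (hN : 3 ≤ N) (η : ℝ) (hη : 0 < η) :
    ∃ M : Ideal (𝓞 A), M ≠ ⊥ ∧
      (1 - η) * (Nat.card (𝓞 A ⧸ M) : ℝ) ^ (Fintype.card (Fin (N + 1) ⊕ Fin (N + 1))) ≤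
      (({x : Fin (N + 1) ⊕ Fin (N + 1) → 𝓞 A ⧸ M | ∀ s : Option (Fin 3 × Fin 3),
        ∃ p ∈ Zset A k (2 * N + 2), ∀ y : Fin (N + 1) ⊕ Fin (N + 1) → 𝓞 A,
          (∀ j, Ideal.Quotient.mk M (y j) = x j) →
          (fun j => Ideal.Quotient.mk p.asIdeal (y j)) ∈ Fe7 N s (𝓞 A ⧸ p.asIdeal)}).ncard : ℝ) := by
  refine density (Zset A k (2 * N + 2)) (Zset_inf A k _)
    (fun s p => Fe7 N s (𝓞 A ⧸ p.asIdeal)) (c := 1 / ((D7 N : ℕ) : ℝ)) ?_ ?_ η hη
  · have : (0 : ℝ) < ((D7 N : ℕ) : ℝ) := by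
      have : 0 < D7 N := D7_pos (by omega)
      exact_mod_cast this
    positivity
  · intro s p hp
    exact Fe7_Z hN s hp

end main

end Pool.Agent.X243.Sol
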