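import Pool.Agent.X243.Sol.Main
import Pool.Agent.X243.Tate.RankOne

/-!
The Tate conjecture at two over extensions of the ground field for 100% of the elliptic surfaces with a
section of order two and a section of infinite order.
-/

set_option autoImplicit false
set_option linter.all false

open Polynomial IsDedekindDomain NumberField
open scoped Classical

namespace Pool.Agent.X243.Sol

open Pool.Agent.TH115.GD Pool.Agent.X243.Tate Pool.Agent.Y160.T3

section ev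

/-- The conditions at a prime. -/
def He7 (n : ℕ) (s : Option (Fin 3 × Fin 3)) (R : Type) [CommRing R] : Set (Ix n → R) :=
  match s with
  | none => H0 n R
  | some s => if s.1 = 0 then {z | (fun j => z (Sum.inl (Sum.inl j))) ∈ Ev R (2 * n) s.2} else
      if s.1 = 1 then {z | (fun j => z (Sum.inl (Sum.inr j))) ∈ Ev R (2 * n) s.2} else
        {z | (fun j : Fin (4 * n + 1) => (tD z).coeff j) ∈ Ev R (4 * n) s.2}

/-- The constant. -/
def D8 (n : ℕ) : ℕ := DD (2 * n) * DD (2 * n) * (DD (4 * n) * (4 * (8 * n) ^ n))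

theorem DD_pos {N : ℕ} (hN : 0 < N) : 0 < DD N := by
  have := D3_pos N
  unfold DD
  positivity

variable {F : Type} [Field F] [Finite F]

theorem Ev_scale {N : ℕ} {s : Fin 3} {y : Fin (N + 1) → F} (hy : y ∈ Ev F N s) {c : F} (hc : c ≠ 0) :
    (fun j => c * y j) ∈ Ev F N s := by
  haveI := Fintype.ofFinite F
  unfold Ev at hy ⊢
  split_ifs at hy ⊢ with h1 h2
  · exact E1_scale hy hc
  · exact E2_scale hy hc
  · obtain ⟨d, π, T, k1, k2, k3, k4, k5, k6⟩ := hy
    refine ⟨c * d, π, T, mul_ne_zero hc k1, k2, k3, k4, k5, ?_⟩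
    rw [bF_smul, k6, C_mul]
    ring

theorem Ev_ne {N : ℕ} (hN : 1 ≤ N) {s : Fin 3} {y : Fin (N + 1) → F} (hy : y ∈ Ev F N s) :
    bF y ≠ 0 := by
  unfold Ev at hy
  split_ifs at hy with h1 h2
  · exact hy.1.ne_zero
  · intro h0
    have h5 := hy.1
    rw [h0, natDegree_zero] at h5
    omega
  · obtain ⟨d, π, T, k1, k2, k3, k4, k5, k6⟩ := hy
    rw [k6]
    refine mul_ne_zero (mul_ne_zero (C_ne_zero.2 k1) k3.ne_zero) ?_
    exact (monic_prod_X_sub_C (fun c => c) T).ne_zero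

theorem He7_card {n : ℕ} (hn : 2 ≤ n) (hq : 8 * n + 2 ≤ Nat.card F) (h2 : (2 : F) ≠ 0)
    (s : Option (Fin 3 × Fin 3)) :
    Nat.card F ^ (5 * n + 3) ≤ D8 n * (He7 n s F).ncard := by
  haveI := Fintype.ofFinite F
  obtain ⟨q, hqd⟩ : ∃ q, q = Nat.card F := ⟨_, rfl⟩
  have hqF : q = Fintype.card F := by rw [hqd, Nat.card_eq_fintype_card]
  have a0 : ∀ s, q ^ (2 * n + 1) ≤ DD (2 * n) * (Ev F (2 * n) s).ncard := by
    intro s
    rw [hqF]
    exact Ev_card (by omega) (by rw [← hqF, hqd]; omega) s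
  have b0 : ∀ s, q ^ (4 * n + 1) ≤ DD (4 * n) * (Ev F (4 * n) s).ncard := by
    intro s
    rw [hqF]
    exact Ev_card (by omega) (by rw [← hqF, hqd]; omega) s
  have p1 : 0 < DD (2 * n) := DD_pos (by omega)
  have p3 : 0 < DD (4 * n) := DD_pos (by omega)
  have p4 : 0 < 4 * (8 * n) ^ n := by positivity
  have hall : (Set.univ : Set (Fin (2 * n + 1) → F)).ncard = q ^ (2 * n + 1) := by
    rw [Set.ncard_univ, Nat.card_fun, Nat.card_eq_fintype_card (α := Fin (2 * n + 1)),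
      Fintype.card_fin, hqd]
  have hD1 : DD (2 * n) * DD (2 * n) ≤ D8 n :=
    Nat.le_mul_of_pos_right _ (Nat.mul_pos p3 p4)
  have hD2 : DD (2 * n) ≤ D8 n := (Nat.le_mul_of_pos_right _ p1).trans hD1
  have hD3 : DD (4 * n) * (4 * (8 * n) ^ n) ≤ D8 n := Nat.le_mul_of_pos_left _ (Nat.mul_pos p1 p1)
  rw [← hqd]
  rcases s with _ | ⟨s, t⟩
  · show q ^ (5 * n + 3) ≤ D8 n * (H0 n F).ncard
    have e : (H0 n F).ncard = (Ev F (2 * n) 0).ncard * (Ev F (2 * n) 1).ncard * q ^ (n + 1) := by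
      rw [hqd]
      exact ncard_prod3 (E1 F (2 * n)) (E2 F (2 * n))
    rw [e]
    calc q ^ (5 * n + 3) = q ^ (2 * n + 1) * q ^ (2 * n + 1) * q ^ (n + 1) := by ring
      _ ≤ (DD (2 * n) * (Ev F (2 * n) 0).ncard) * (DD (2 * n) * (Ev F (2 * n) 1).ncard) *
          q ^ (n + 1) := Nat.mul_le_mul_right _ (Nat.mul_le_mul (a0 0) (a0 1))
      _ = (DD (2 * n) * DD (2 * n)) *
          ((Ev F (2 * n) 0).ncard * (Ev F (2 * n) 1).ncard * q ^ (n + 1)) := by ring
      _ ≤ _ := Nat.mul_le_mul_right _ hD1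
  · unfold He7
    simp only
    split_ifs with hs hs'
    · have e : ({z : Ix n → F | (fun j => z (Sum.inl (Sum.inl j))) ∈ Ev F (2 * n) t}).ncard =
          (Ev F (2 * n) t).ncard * q ^ (2 * n + 1) * q ^ (n + 1) := by
        have h5 : {z : Ix n → F | (fun j => z (Sum.inl (Sum.inl j))) ∈ Ev F (2 * n) t} =
            {z : Ix n → F | (fun j => z (Sum.inl (Sum.inl j))) ∈ Ev F (2 * n) t ∧
              (fun j => z (Sum.inl (Sum.inr j))) ∈ (Set.univ : Set (Fin (2 * n + 1) → F))} := by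
          ext z
          exact ⟨fun h => ⟨h, trivial⟩, fun h => h.1⟩
        rw [h5, ncard_prod3, hall, hqd]
      rw [e]
      calc q ^ (5 * n + 3) = q ^ (2 * n + 1) * q ^ (2 * n + 1) * q ^ (n + 1) := by ring
        _ ≤ (DD (2 * n) * (Ev F (2 * n) t).ncard) * q ^ (2 * n + 1) * q ^ (n + 1) :=
            Nat.mul_le_mul_right _ (Nat.mul_le_mul_right _ (a0 t))
        _ = DD (2 * n) * ((Ev F (2 * n) t).ncard * q ^ (2 * n + 1) * q ^ (n + 1)) := by ring
        _ ≤ _ := Nat.mul_le_mul_right _ hD2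
    · have e : ({z : Ix n → F | (fun j => z (Sum.inl (Sum.inr j))) ∈ Ev F (2 * n) t}).ncard =
          q ^ (2 * n + 1) * (Ev F (2 * n) t).ncard * q ^ (n + 1) := by
        have h5 : {z : Ix n → F | (fun j => z (Sum.inl (Sum.inr j))) ∈ Ev F (2 * n) t} =
            {z : Ix n → F | (fun j => z (Sum.inl (Sum.inl j))) ∈
              (Set.univ : Set (Fin (2 * n + 1) → F)) ∧
              (fun j => z (Sum.inl (Sum.inr j))) ∈ Ev F (2 * n) t} := by
          ext z
          exact ⟨fun h => ⟨trivial, h⟩, fun h => h.2⟩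
        rw [h5, ncard_prod3, hall, hqd]
      rw [e]
      calc q ^ (5 * n + 3) = q ^ (2 * n + 1) * q ^ (2 * n + 1) * q ^ (n + 1) := by ring
        _ ≤ q ^ (2 * n + 1) * (DD (2 * n) * (Ev F (2 * n) t).ncard) * q ^ (n + 1) :=
            Nat.mul_le_mul_right _ (Nat.mul_le_mul_left _ (a0 t))
        _ = DD (2 * n) * (q ^ (2 * n + 1) * (Ev F (2 * n) t).ncard * q ^ (n + 1)) := by ring
        _ ≤ _ := Nat.mul_le_mul_right _ hD2
    · have := prop3 (F := F) h2 (n := n) (by omega) (by rw [← hqF, hqd]; omega) (D := DD (4 * n))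
        (T := Ev F (4 * n) t) (fun y hy => Ev_ne (by omega) hy) (fun y hy c hc => Ev_scale hy hc)
        (by rw [← hqF]; exact b0 t)
      rw [← hqF] at this
      exact this.trans (Nat.mul_le_mul_right _ hD3)

end ev

section main

variable {A k : Type} [Field A] [NumberField A] [Field k] [NumberField k] [Algebra A k]

theorem ev_good {N B : ℕ} (hN : 3 ≤ N) {G : (𝓞 A)[X]} (hG : G.natDegree ≤ N)
    (hev : ∀ t : Fin 3, ∃ p ∈ Zset A k B, ∃ w ∈ Ev (𝓞 A ⧸ p.asIdeal) N t,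
        bF w = G.map (Ideal.Quotient.mk p.asIdeal)) :
    I1 N (G.map (algebraMap (𝓞 A) k)) ∧ Full (G.map (algebraMap (𝓞 A) k)) := by
  obtain ⟨p0, z0, w0, e0, g0⟩ := hev 0
  obtain ⟨p1, z1, w1, e1, g1⟩ := hev 1
  obtain ⟨p2, z2, w2, e2, g2⟩ := hev 2
  have f0 : I1 N (bF w0) := e0
  have f1 : I2 N (bF w1) := e1
  have f2 : I3 N (bF w2) := e2
  rw [g0] at f0
  rw [g1] at f1
  rw [g2] at f2
  have hirr := lift_irr z0 hG f0.2 f0.1
  exact ⟨hirr, full_of hN hG hirr.1 z1 z2 f1 f2⟩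

theorem ro_good {n B : ℕ} (hn : 2 ≤ n) {y : Ix n → 𝓞 A}
    (h : ∀ s : Option (Fin 3 × Fin 3), ∃ p ∈ Zset A k B,
      (fun j => Ideal.Quotient.mk p.asIdeal (y j)) ∈ He7 n s (𝓞 A ⧸ p.asIdeal)) (p q w : k[X])
    (hp : p = (tP y).map (algebraMap (𝓞 A) k)) (hq : q = (tQ y).map (algebraMap (𝓞 A) k))
    (hw : w = (tW y).map (algebraMap (𝓞 A) k)) :
    (I1 (2 * n) p ∧ Full p) ∧ (I1 (2 * n) q ∧ Full q) ∧
      (I1 (4 * n) ((w ^ 2 - p - q) ^ 2 - 4 * (p * q)) ∧
        Full ((w ^ 2 - p - q) ^ 2 - 4 * (p * q))) ∧ IsCoprime p q := by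
  have hPd : (tP y).natDegree ≤ 2 * n := bF_nd _
  have hQd : (tQ y).natDegree ≤ 2 * n := bF_nd _
  have hDd := natDegree_tD y
  have k1 := ev_good (k := k) (N := 2 * n) (B := B) (by omega) hPd (fun t => by
    obtain ⟨p, hp, e⟩ := h (some (0, t))
    refine ⟨p, hp, fun j => Ideal.Quotient.mk p.asIdeal (y (Sum.inl (Sum.inl j))), e, ?_⟩
    rw [tP_map]
    rfl)
  have k2 := ev_good (k := k) (N := 2 * n) (B := B) (by omega) hQd (fun t => by
    obtain ⟨p, hp, e⟩ := h (some (1, t))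
    refine ⟨p, hp, fun j => Ideal.Quotient.mk p.asIdeal (y (Sum.inl (Sum.inr j))), e, ?_⟩
    rw [tQ_map]
    rfl)
  have k3 := ev_good (k := k) (N := 4 * n) (B := B) (by omega) hDd (fun t => by
    obtain ⟨p, hp, e⟩ := h (some (2, t))
    refine ⟨p, hp, fun j : Fin (4 * n + 1) =>
      (tD (fun j => Ideal.Quotient.mk p.asIdeal (y j))).coeff j, e, ?_⟩
    rw [tD_map]
    haveI := p.isMaximal
    letI : Field (𝓞 A ⧸ p.asIdeal) := Ideal.Quotient.field p.asIdeal
    haveI : Finite (𝓞 A ⧸ p.asIdeal) := Ideal.finiteQuotientOfFreeOfNeBot _ p.ne_bot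
    letI := Fintype.ofFinite (𝓞 A ⧸ p.asIdeal)
    exact bF_coeffs (F := 𝓞 A ⧸ p.asIdeal) (natDegree_tD _))
  obtain ⟨p0, z0, e0⟩ := h none
  have e0' : I1 (2 * n) ((tP y).map (Ideal.Quotient.mk p0.asIdeal)) ∧
      I2 (2 * n) ((tQ y).map (Ideal.Quotient.mk p0.asIdeal)) := by
    rw [tP_map, tQ_map]; exact e0
  have hco := cop_of_red (k := k) (by omega) hPd hQd e0'.1 e0'.2 k1.1 k2.1
  have eD : (tD y).map (algebraMap (𝓞 A) k) = (w ^ 2 - p - q) ^ 2 - 4 * (p * q) := by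
    rw [hp, hq, hw, tD]
    simp only [Polynomial.map_sub, Polynomial.map_pow, Polynomial.map_mul, Polynomial.map_ofNat]
  rw [eD] at k3
  rw [← hp] at k1 hco
  rw [← hq] at k2 hco
  exact ⟨k1, k2, k3, hco⟩

theorem ro_ext {p q w : k[X]} {n : ℕ} (hn : 3 ≤ n) (hp : I1 (2 * n) p) (hq : I1 (2 * n) q)
    (hd : I1 (4 * n) ((w ^ 2 - p - q) ^ 2 - 4 * (p * q)))
    (fp : Full p) (fq : Full q) (fd : Full ((w ^ 2 - p - q) ^ 2 - 4 * (p * q)))
    (hco : IsCoprime p q) {L L' K F : Type} [Field L] [Algebra k L] [Field L']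
    [Algebra L L'] [Algebra k L'] [IsScalarTower k L L'] [Field K] [Algebra L[X] K]
    [Field F] [Algebra L'[X] F] [IsFractionRing L'[X] F] [Algebra K F] (hT : IsTower L L' K F)
    (M : IntermediateField k L') (hMn : Normal k M)
    (hM : ∀ x : L, IsAlgebraic k x → algebraMap L L' x ∈ M)
    (h1 : ¬ (p.map (algebraMap k M)).Splits) (h2 : ¬ (q.map (algebraMap k M)).Splits)
    (h3 : ¬ (((w ^ 2 - p - q) ^ 2 - 4 * (p * q)).map (algebraMap k M)).Splits) :
    TateAtTwo (F := F) L' (crvT (algebraMap L[X] K ((w ^ 2 - p - q).map (algebraMap k L)))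
      (algebraMap L[X] K ((p * q).map (algebraMap k L)))) ∧
    ∃ P : Pt (crvT (algebraMap L[X] K ((w ^ 2 - p - q).map (algebraMap k L)))
      (algebraMap L[X] K ((p * q).map (algebraMap k L)))) K, ∀ m : ℕ, 0 < m → m • P ≠ 0 := by
  haveI := hT.sep
  haveI := hT.fracK
  haveI : CharZero L := charZero_of_injective_algebraMap (algebraMap k L).injective
  obtain ⟨i1, n1⟩ := three_of hp.1.separable (by rw [hp.2]; omega) fp L L' M hM h1
  obtain ⟨i2, n2⟩ := three_of hq.1.separable (by rw [hq.2]; omega) fq L L' M hM h2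
  obtain ⟨i3, n3⟩ := three_of hd.1.separable (by rw [hd.2]; omega) fd L L' M hM h3
  have s1 : (p.map (algebraMap k L)).Separable := hp.1.separable.map
  have s2 : (q.map (algebraMap k L)).Separable := hq.1.separable.map
  have s3 := hd.1.separable.map (f := algebraMap k L)
  have hco' : IsCoprime (p.map (algebraMap k L)) (q.map (algebraMap k L)) :=
    hco.map (mapRingHom (algebraMap k L))
  have e : ((w ^ 2 - p - q) ^ 2 - 4 * (p * q)).map (algebraMap k L) =
      ((w.map (algebraMap k L)) ^ 2 - p.map (algebraMap k L) - q.map (algebraMap k L)) ^ 2 -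
        4 * (p.map (algebraMap k L) * q.map (algebraMap k L)) := by
    simp only [Polynomial.map_sub, Polynomial.map_pow, Polynomial.map_mul, Polynomial.map_ofNat]
  have e1 : (w ^ 2 - p - q).map (algebraMap k L) =
      (w.map (algebraMap k L)) ^ 2 - p.map (algebraMap k L) - q.map (algebraMap k L) := by
    simp only [Polynomial.map_sub, Polynomial.map_pow]
  rw [e] at i3 n3 s3
  rw [e1, Polynomial.map_mul]
  refine ⟨?_, ?_⟩
  · exact tate_one hT two_ne_zero i1 i2 s1 s2 i3 s3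
      (notNorm_mul i1 n1 hco' i2.ne_zero) n3
  · exact inf_order two_ne_zero i1 i2 hco' i3

theorem ro_rad {p q w : k[X]} {n : ℕ} (hn : 3 ≤ n) (hp : I1 (2 * n) p) (hq : I1 (2 * n) q)
    (hd : I1 (4 * n) ((w ^ 2 - p - q) ^ 2 - 4 * (p * q)))
    (fp : Full p) (fq : Full q) (fd : Full ((w ^ 2 - p - q) ^ 2 - 4 * (p * q)))
    (hco : IsCoprime p q) {L L' K F : Type} [Field L] [Algebra k L] [Field L']
    [Algebra L L'] [Algebra k L'] [IsScalarTower k L L'] [Field K] [Algebra L[X] K]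
    [Field F] [Algebra L'[X] F] [IsFractionRing L'[X] F] [Algebra K F] (hT : IsTower L L' K F)
    (hM : ∀ x : L, IsAlgebraic k x → algebraMap L L' x ∈ solvableByRad k L') :
    TateAtTwo (F := F) L' (crvT (algebraMap L[X] K ((w ^ 2 - p - q).map (algebraMap k L)))
      (algebraMap L[X] K ((p * q).map (algebraMap k L)))) ∧
    ∃ P : Pt (crvT (algebraMap L[X] K ((w ^ 2 - p - q).map (algebraMap k L)))
      (algebraMap L[X] K ((p * q).map (algebraMap k L)))) K, ∀ m : ℕ, 0 < m → m • P ≠ 0 := by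
  haveI := hT.sep
  haveI : CharZero L' := charZero_of_injective_algebraMap (algebraMap k L').injective
  haveI : IsSepClosed L' := IsSepClosure.sep_closed L
  haveI : IsAlgClosed L' := inferInstance
  exact ro_ext hn hp hq hd fp fq fd hco hT (solvableByRad k L') normal_rad hM
    (not_splits_rad hp.1 (by rw [hp.2]; omega) fp)
    (not_splits_rad hq.1 (by rw [hq.2]; omega) fq)
    (not_splits_rad hd.1 (by rw [hd.2]; omega) fd)

theorem He7_Z {n : ℕ} (hn : 2 ≤ n) (s : Option (Fin 3 × Fin 3)) {p : HeightOneSpectrum (𝓞 A)}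
    (hp : p ∈ Zset A k (8 * n + 2)) :
    (1 / ((D8 n : ℕ) : ℝ)) * (Nat.card (𝓞 A ⧸ p.asIdeal) : ℝ) ^
      (Fintype.card (Ix n)) ≤ ((He7 n s (𝓞 A ⧸ p.asIdeal)).ncard : ℝ) := by
  haveI := p.isMaximal
  letI : Field (𝓞 A ⧸ p.asIdeal) := Ideal.Quotient.field p.asIdeal
  haveI : Finite (𝓞 A ⧸ p.asIdeal) := Ideal.finiteQuotientOfFreeOfNeBot _ p.ne_bot
  have h1 := He7_card (F := 𝓞 A ⧸ p.asIdeal) hn hp.2.2 (two_quot A k hp) s
  have hc : Fintype.card (Ix n) = 5 * n + 3 := by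
    rw [Fintype.card_sum, Fintype.card_sum, Fintype.card_fin, Fintype.card_fin]
    omega
  have hD : (0 : ℝ) < ((D8 n : ℕ) : ℝ) := by
    have : 0 < D8 n := Nat.mul_pos (Nat.mul_pos (DD_pos (by omega)) (DD_pos (by omega)))
      (Nat.mul_pos (DD_pos (by omega)) (by positivity))
    exact_mod_cast this
  rw [hc, one_div, inv_mul_le_iff₀ hD]
  exact_mod_cast h1

variable (A k) in
theorem dens_ro {n : ℕ} (hn : 2 ≤ n) (η : ℝ) (hη : 0 < η) :
    ∃ M : Ideal (𝓞 A), M ≠ ⊥ ∧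
      (1 - η) * (Nat.card (𝓞 A ⧸ M) : ℝ) ^ (Fintype.card (Ix n)) ≤
      (({x : Ix n → 𝓞 A ⧸ M | ∀ s : Option (Fin 3 × Fin 3),
        ∃ p ∈ Zset A k (8 * n + 2), ∀ y : Ix n → 𝓞 A,
          (∀ j, Ideal.Quotient.mk M (y j) = x j) →
          (fun j => Ideal.Quotient.mk p.asIdeal (y j)) ∈ He7 n s (𝓞 A ⧸ p.asIdeal)}).ncard : ℝ) := by
  refine density (Zset A k (8 * n + 2)) (Zset_inf A k _)
    (fun s p => He7 n s (𝓞 A ⧸ p.asIdeal)) (c := 1 / ((D8 n : ℕ) : ℝ)) ?_ ?_ η hη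
  · have : (0 : ℝ) < ((D8 n : ℕ) : ℝ) := by
      have : 0 < D8 n := Nat.mul_pos (Nat.mul_pos (DD_pos (by omega)) (DD_pos (by omega)))
        (Nat.mul_pos (DD_pos (by omega)) (by positivity))
      exact_mod_cast this
    positivity
  · intro s p hp
    exact He7_Z hn s hp

end main

end Pool.Agent.X243.Sol
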