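import Pool.Agent.X243.Sol.Ext
import Pool.Agent.TH115.ID.Gener

/-!
Polynomials whose Galois group contains the cycles of length three.
-/

set_option autoImplicit false
set_option linter.all false

open Polynomial
open scoped Classical

namespace Pool.Agent.X243.Sol

open Pool.Agent.TH115.GD

section three

variable {L L' : Type} [Field L] [Field L'] [Algebra L L']

/-- Cycles of length three through any two elements of `Z`. -/
def Three (L : Type) {L' : Type} [Field L] [Field L'] [Algebra L L'] (Z : Set L') : Prop :=
  ∀ x ∈ Z, ∀ y ∈ Z, x ≠ y → ∃ (g : L' ≃ₐ[L] L') (z : L'), g x = y ∧ g y = z ∧ g z = x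

theorem irr_of_three {f : L[X]} (hsep : f.Separable) (hspl : (f.map (algebraMap L L')).Splits)
    (hd : 0 < f.natDegree) (h : Three L (f.rootSet L')) : Irreducible f := by
  have hf0 : f ≠ 0 := hsep.ne_zero
  have hfm0 : f.map (algebraMap L L') ≠ 0 :=
    (Polynomial.map_ne_zero_iff (algebraMap L L').injective).2 hf0
  have hcard : (f.map (algebraMap L L')).roots.toFinset.card = f.natDegree := by
    rw [Multiset.toFinset_card_of_nodup (nodup_roots hsep.map), ← hspl.natDegree_eq_card_roots,
      natDegree_map]
  obtain ⟨θ, hθ⟩ : ∃ θ, θ ∈ (f.map (algebraMap L L')).roots.toFinset := by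
    apply Finset.card_pos.1
    omega
  have hmem : ∀ x, x ∈ (f.map (algebraMap L L')).roots.toFinset ↔ x ∈ f.rootSet L' := by
    intro x
    rw [rootSet, aroots, Finset.mem_coe]
  have hθ0 : aeval θ f = 0 := aeval_eq_zero_of_mem_rootSet ((hmem θ).1 hθ)
  have hint : IsIntegral L θ := by
    rw [← isAlgebraic_iff_isIntegral]
    exact ⟨f, hf0, hθ0⟩
  obtain ⟨m, hm⟩ : ∃ m, m = minpoly L θ := ⟨_, rfl⟩
  have hm0 : m ≠ 0 := hm ▸ minpoly.ne_zero hint
  have hmm0 : m.map (algebraMap L L') ≠ 0 :=
    (Polynomial.map_ne_zero_iff (algebraMap L L').injective).2 hm0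
  have hsub : (f.map (algebraMap L L')).roots.toFinset ⊆ (m.map (algebraMap L L')).roots.toFinset := by
    intro x hx
    rw [Multiset.mem_toFinset, mem_roots hmm0, IsRoot.def, eval_map_algebraMap]
    rcases eq_or_ne θ x with rfl | hne
    · rw [hm, minpoly.aeval]
    · obtain ⟨g, z, hg, -, -⟩ := h θ ((hmem θ).1 hθ) x ((hmem x).1 hx) hne
      rw [← hg, aeval_algHom_apply g θ m, hm, minpoly.aeval, map_zero]
  have hle : f.natDegree ≤ m.natDegree := by
    rw [← hcard]
    calc _ ≤ (m.map (algebraMap L L')).roots.toFinset.card := Finset.card_le_card hsub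
      _ ≤ Multiset.card (m.map (algebraMap L L')).roots := Multiset.toFinset_card_le _
      _ ≤ (m.map (algebraMap L L')).natDegree := card_roots' _
      _ = m.natDegree := natDegree_map _
  have hdvd : m ∣ f := by
    rw [hm]
    exact minpoly.dvd L θ hθ0
  obtain ⟨q, hq⟩ := hdvd
  have hq0 : q ≠ 0 := by
    rintro rfl
    exact hf0 (by rw [hq, mul_zero])
  have hqd : q.natDegree = 0 := by
    have := natDegree_mul hm0 hq0
    rw [← hq] at this
    omega
  have hqu : IsUnit q := by
    rw [eq_C_of_natDegree_eq_zero hqd]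
    apply isUnit_C.2
    rw [isUnit_iff_ne_zero]
    intro h0
    apply hq0
    rw [eq_C_of_natDegree_eq_zero hqd, h0, C_0]
  rw [hq]
  exact (irreducible_mul_isUnit hqu).2 (hm ▸ minpoly.irreducible hint)

theorem notNorm_of_three [CharZero L] [IsSepClosure L L'] {f : L[X]} (hsep : f.Separable)
    (hspl : (f.map (algebraMap L L')).Splits) (hd : 0 < f.natDegree)
    (h : Three L (f.rootSet L')) : NotNorm f := by
  intro u D U V hf
  haveI : IsSepClosed L' := IsSepClosure.sep_closed L
  haveI : IsGalois L L' := IsSepClosure.isGalois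
  haveI : CharZero L' := charZero_of_injective_algebraMap (algebraMap L L').injective
  have hirr := irr_of_three hsep hspl hd h
  have hu : u ≠ 0 := by
    rintro rfl
    rw [C_0, zero_mul] at hf
    exact hsep.ne_zero hf
  constructor
  · rintro rfl
    have e : f = (C u * U) * U := by rw [hf]; ring
    rcases hirr.isUnit_or_isUnit e with h1 | h1
    · have h2 : IsUnit U := isUnit_of_mul_isUnit_right h1
      have h3 : IsUnit f := by rw [e]; exact h1.mul h2
      exact hirr.not_isUnit h3
    · have h3 : IsUnit f := by
        rw [e]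
        exact ((isUnit_C.2 (isUnit_iff_ne_zero.2 hu)).mul h1).mul h1
      exact hirr.not_isUnit h3
  · by_contra hD
    have hsf : Squarefree (f.map (algebraMap L L')) := hsep.map.squarefree
    have hfm0 : f.map (algebraMap L L') ≠ 0 := hsf.ne_zero
    have hZ : ∀ x, x ∈ f.rootSet L' ↔ (f.map (algebraMap L L')).eval x = 0 := by
      intro x
      rw [mem_rootSet, eval_map_algebraMap]
      exact ⟨fun h => h.2, fun h => ⟨hsep.ne_zero, h⟩⟩
    have hfe : ∀ x, (f.map (algebraMap L L')).eval x = algebraMap L L' u *
        ((U.map (algebraMap L L')).eval x ^ 2 - algebraMap L L' D *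
          (V.map (algebraMap L L')).eval x ^ 2) := by
      intro x
      conv_lhs => rw [hf]
      simp only [Polynomial.map_mul, Polynomial.map_sub, Polynomial.map_pow, map_C, eval_mul,
        eval_sub, eval_pow, eval_C]
    have hgal : ∀ (g : L' ≃ₐ[L] L') (x : L') (W : L[X]), (W.map (algebraMap L L')).eval (g x) =
        g ((W.map (algebraMap L L')).eval x) := by
      intro g x W
      rw [eval_map_algebraMap, eval_map_algebraMap, aeval_algHom_apply g x W]
    have key : ∀ (δ : L'), δ ^ 2 = algebraMap L L' D → ∀ x ∈ f.rootSet L',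
        (U.map (algebraMap L L')).eval x = δ * (V.map (algebraMap L L')).eval x → False := by
      intro δ hδ x hx he
      have hδ0 : δ ≠ 0 := by
        rintro rfl
        apply hD
        have : D = 0 := (algebraMap L L').injective (by rw [← hδ, map_zero]; ring)
        rw [this]
        exact IsSquare.zero
      have hsg : ∀ g : L' ≃ₐ[L] L', g δ = δ ∨ g δ = -δ := by
        intro g
        apply sq_eq_sq_iff_eq_or_eq_neg.1
        rw [← map_pow, hδ, g.commutes]
      obtain ⟨τ, hτ⟩ : ∃ τ : L' ≃ₐ[L] L', τ δ ≠ δ := by
        by_contra hall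
        push Not at hall
        have h1 : δ ∈ Set.range (algebraMap L L') := by
          rw [InfiniteGalois.mem_range_algebraMap_iff_fixed]
          exact hall
        obtain ⟨d, hd⟩ := h1
        apply hD
        refine ⟨d, (algebraMap L L').injective ?_⟩
        rw [map_mul, hd, ← hδ, sq]
      have hτ' : τ δ = -δ := (hsg τ).resolve_left hτ
      have hy : τ x ∈ f.rootSet L' := by
        rw [hZ] at hx ⊢
        rw [hgal, hx, map_zero]
      have e1 : (U.map (algebraMap L L')).eval (τ x) = -δ * (V.map (algebraMap L L')).eval (τ x) := by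
        rw [hgal, he, map_mul, hτ', hgal]
      have e2 : (U.map (algebraMap L L')).eval (τ x) = δ * (V.map (algebraMap L L')).eval (τ x) := by
        rcases eq_or_ne x (τ x) with h1 | h1
        · rw [← h1]
          exact he
        · obtain ⟨g, z, g1, g2, g3⟩ := h x hx (τ x) hy h1
          have h2 : (g * g * g * g) x = τ x := by
            show g (g (g (g x))) = τ x
            rw [g1, g2, g3, g1]
          have h3 : (g * g * g * g) δ = δ := by
            show g (g (g (g δ))) = δ
            rcases hsg g with h4 | h4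
            · rw [h4, h4, h4, h4]
            · rw [h4, map_neg, h4, neg_neg, h4, map_neg, h4, neg_neg]
          rw [← h2, hgal, he, map_mul, h3, hgal]
      have e3 : (V.map (algebraMap L L')).eval (τ x) = 0 := by
        have h1 : (2 * δ) * (V.map (algebraMap L L')).eval (τ x) = 0 := by
          linear_combination e1 - e2
        rcases mul_eq_zero.1 h1 with h2 | h2
        · exact absurd h2 (mul_ne_zero two_ne_zero hδ0)
        · exact h2
      have e4 : (U.map (algebraMap L L')).eval (τ x) = 0 := by rw [e2, e3, mul_zero]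
      have d1 : X - C (τ x) ∣ V.map (algebraMap L L') := dvd_iff_isRoot.2 e3
      have d2 : X - C (τ x) ∣ U.map (algebraMap L L') := dvd_iff_isRoot.2 e4
      have d3 : (X - C (τ x)) * (X - C (τ x)) ∣ f.map (algebraMap L L') := by
        conv_rhs => rw [hf]
        rw [Polynomial.map_mul, Polynomial.map_sub, Polynomial.map_pow, Polynomial.map_mul,
          Polynomial.map_pow, sq, sq]
        exact ((mul_dvd_mul d2 d2).sub ((mul_dvd_mul d1 d1).mul_left _)).mul_left _
      exact not_isUnit_X_sub_C _ (hsf _ d3)
    have hcard : Multiset.card (f.map (algebraMap L L')).roots = f.natDegree := by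
      rw [← hspl.natDegree_eq_card_roots, natDegree_map]
    obtain ⟨x, hx⟩ : ∃ x, x ∈ (f.map (algebraMap L L')).roots := by
      apply Multiset.card_pos_iff_exists_mem.1
      omega
    rw [mem_roots hfm0, IsRoot.def] at hx
    obtain ⟨δ, hδ⟩ : ∃ δ : L', δ ^ 2 = algebraMap L L' D := by
      haveI : IsAlgClosed L' := inferInstance
      exact IsAlgClosed.exists_pow_nat_eq _ (by norm_num)
    have h1 := hx
    rw [hfe] at h1
    have h2 : (U.map (algebraMap L L')).eval x ^ 2 - algebraMap L L' D *
          (V.map (algebraMap L L')).eval x ^ 2 = 0 := by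
      rcases mul_eq_zero.1 h1 with h3 | h3
      · exact absurd ((map_eq_zero _).1 h3) hu
      · exact h3
    have h3 : ((U.map (algebraMap L L')).eval x - δ * (V.map (algebraMap L L')).eval x) *
        ((U.map (algebraMap L L')).eval x - (-δ) * (V.map (algebraMap L L')).eval x) = 0 := by
      rw [← h2, ← hδ]
      ring
    rcases mul_eq_zero.1 h3 with h4 | h4
    · exact key δ hδ x ((hZ x).2 hx) (sub_eq_zero.1 h4)
    · exact key (-δ) (by rw [neg_sq, hδ]) x ((hZ x).2 hx) (sub_eq_zero.1 h4)

end three

end Pool.Agent.X243.Sol
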