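import Pool.Agent.X243.Sol.Good

/-!
The number of polynomials with one irreducible factor of degree two and distinct linear factors, and
the conditions at a prime.
-/

set_option autoImplicit false
set_option linter.all false

open Polynomial IsDedekindDomain NumberField
open scoped Classical

namespace Pool.Agent.X243.Sol

open Pool.Agent.Y160.T3 Pool.Agent.X243.Tate

section count

variable {F : Type} [Field F]

/-- The swap type. -/
def E3 (R : Type) [CommRing R] (N : ℕ) : Set (Fin (N + 1) → R) := {y | I3 N (bF y)}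

/-- The constant. -/
def D3 (N : ℕ) : ℕ := 8 * 2 ^ (N - 2) * (N - 2).factorial

theorem D3_pos (N : ℕ) : 0 < D3 N := by
  have := Nat.factorial_pos (N - 2)
  unfold D3
  positivity

theorem choose_ge {q r : ℕ} (h : 2 * r ≤ q + 2) : q ^ r ≤ 2 ^ r * r.factorial * q.choose r := by
  have h1 : q ≤ 2 * (q + 1 - r) := by omega
  calc q ^ r ≤ (2 * (q + 1 - r)) ^ r := Nat.pow_le_pow_left h1 r
    _ = 2 ^ r * (q + 1 - r) ^ r := mul_pow _ _ _
    _ ≤ 2 ^ r * q.descFactorial r := Nat.mul_le_mul_left _ (Nat.pow_sub_le_descFactorial q r)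
    _ = 2 ^ r * r.factorial * q.choose r := by
        rw [Nat.descFactorial_eq_factorial_mul_choose]
        ring

theorem E3_card [Fintype F] {N : ℕ} (hN : 2 ≤ N) (hq : 2 * N + 2 ≤ Fintype.card F) :
    Fintype.card F ^ (N + 1) ≤ D3 N * (E3 F N).ncard := by
  let Φ : Fˣ × {a : Fin 2 → F // GoodP 1 (mF a)} ×
      {S : Finset F // S ∈ Finset.powersetCard (N - 2) (Finset.univ : Finset F)} →
      (Fin (N + 1) → F) :=
    fun x j => (C (x.1 : F) * (mF x.2.1.1 * ∏ c ∈ x.2.2.1, (X - C c))).coeff j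
  have hS : ∀ S : {S : Finset F // S ∈ Finset.powersetCard (N - 2) (Finset.univ : Finset F)},
      S.1.card + 2 = N := by
    intro S
    have := (Finset.mem_powersetCard.1 S.2).2
    omega
  have hmon : ∀ S : Finset F, (∏ c ∈ S, (X - C c) : F[X]).Monic :=
    fun S => monic_prod_X_sub_C (fun c => c) S
  have hdeg : ∀ x : Fˣ × {a : Fin 2 → F // GoodP 1 (mF a)} ×
      {S : Finset F // S ∈ Finset.powersetCard (N - 2) (Finset.univ : Finset F)},
      (C (x.1 : F) * (mF x.2.1.1 * ∏ c ∈ x.2.2.1, (X - C c))).natDegree = N := by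
    intro x
    rw [natDegree_C_mul x.1.ne_zero, natDegree_mul (mF_monic _).ne_zero (hmon _).ne_zero,
      natDegree_finset_prod_X_sub_C_eq_card, mF_natDegree, add_comm, hS]
  have hb : ∀ x, bF (Φ x) = C (x.1 : F) * (mF x.2.1.1 * ∏ c ∈ x.2.2.1, (X - C c)) := by
    intro x
    apply bF_coeffs
    rw [hdeg]
  have hroots : ∀ (a : {a : Fin 2 → F // GoodP 1 (mF a)}) (S : Finset F),
      (mF a.1 * ∏ c ∈ S, (X - C c)).roots = S.val := by
    intro a S
    rw [roots_mul (mul_ne_zero (mF_monic _).ne_zero (hmon _).ne_zero), roots_prod_X_sub_C]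
    have h0 : (mF a.1).roots = 0 := by
      rw [Multiset.eq_zero_iff_forall_notMem]
      intro c hc
      have h1 := (mem_roots'.1 hc).2
      have h2 : (mF a.1).natDegree = 1 :=
        natDegree_eq_of_degree_eq_some (degree_eq_one_of_irreducible_of_root a.2.1 h1)
      rw [mF_natDegree] at h2
      omega
    rw [h0, zero_add]
  have hinj : Function.Injective Φ := by
    rintro ⟨u, a, S⟩ ⟨u', a', S'⟩ h
    have h1 := hb (u, a, S)
    rw [h, hb (u', a', S')] at h1
    obtain ⟨h2, h3⟩ := smul_inj ((mF_monic _).mul (hmon _)) ((mF_monic _).mul (hmon _)) h1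
    simp only at h2 h3
    have h4 : S'.1 = S.1 := by
      have h5 := congrArg roots h3
      rw [hroots a' S'.1, hroots a S.1] at h5
      exact Finset.val_injective h5
    rw [h4] at h3
    have h5 := mul_right_cancel₀ (hmon S.1).ne_zero h3
    exact Prod.ext h2.symm (Prod.ext (Subtype.ext (mF_inj h5).symm) (Subtype.ext h4.symm))
  have hmem : ∀ x, Φ x ∈ E3 F N := by
    intro x
    show I3 N (bF (Φ x))
    rw [hb]
    refine ⟨x.1, mF x.2.1.1, x.2.2.1, x.1.ne_zero, mF_monic _, x.2.1.2.1, ?_, hS _, ?_⟩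
    · rw [mF_natDegree]
    · rw [mul_assoc]
  have h1 := ncard_ge Φ hinj _ hmem
  rw [Fintype.card_prod, Fintype.card_prod, Fintype.card_coe, Finset.card_powersetCard,
    Finset.card_univ] at h1
  have h2 := irr_card (F := F) (N := 2) (by omega) (by omega)
  have h3 := two_le_units (F := F) (by omega)
  have h4 := choose_ge (q := Fintype.card F) (r := N - 2) (by omega)
  calc Fintype.card F ^ (N + 1) = Fintype.card F ^ (2 + 1 + (N - 2)) := by
        congr 1
        omega
    _ = Fintype.card F ^ 2 * Fintype.card F * Fintype.card F ^ (N - 2) := by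
        rw [pow_add, pow_add, pow_one]
    _ ≤ (2 * 2 * Fintype.card {a : Fin 2 → F // GoodP 1 (mF a)}) * (2 * Fintype.card Fˣ) *
          (2 ^ (N - 2) * (N - 2).factorial * (Fintype.card F).choose (N - 2)) :=
        Nat.mul_le_mul (Nat.mul_le_mul h2 h3) h4
    _ = D3 N * (Fintype.card Fˣ * (Fintype.card {a : Fin 2 → F // GoodP 1 (mF a)} *
          (Fintype.card F).choose (N - 2))) := by
        unfold D3
        ring
    _ ≤ D3 N * (E3 F N).ncard := Nat.mul_le_mul_left _ h1

/-- The events. -/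
def Ev (R : Type) [CommRing R] (N : ℕ) (s : Fin 3) : Set (Fin (N + 1) → R) :=
  if s = 0 then E1 R N else if s = 1 then E2 R N else E3 R N

def Gev3 (m N : ℕ) (s : Bool × Fin 3) (R : Type) [CommRing R] :
    Set (Fin (m + 1) ⊕ Fin (N + 1) → R) :=
  {z | cf s.1 z ∈ Ev R N s.2}

/-- The constant. -/
def DD (N : ℕ) : ℕ := 4 * N * D3 N

theorem Ev_card [Fintype F] {N : ℕ} (hN : 3 ≤ N) (hq : 2 * N + 2 ≤ Fintype.card F) (s : Fin 3) :
    Fintype.card F ^ (N + 1) ≤ DD N * (Ev F N s).ncard := by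
  have hD := D3_pos N
  unfold Ev DD
  split_ifs
  · refine (T1_card (N := N) (by omega) hq).trans ?_
    exact Nat.mul_le_mul_right _ (Nat.le_mul_of_pos_right _ hD)
  · obtain ⟨M, rfl⟩ : ∃ M, N = M + 1 := ⟨N - 1, by omega⟩
    refine (T2_card (M := M) (by omega) (by omega)).trans ?_
    exact Nat.mul_le_mul_right _ (Nat.le_mul_of_pos_right _ hD)
  · refine (E3_card (N := N) (by omega) hq).trans ?_
    exact Nat.mul_le_mul_right _ (Nat.le_mul_of_pos_left _ (by omega))

theorem Gev3_card {F : Type} [Field F] [Finite F] {m N : ℕ} (hN : 3 ≤ N)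
    (hq : 2 * N + 2 ≤ Nat.card F) (h2 : (2 : F) ≠ 0) (s : Bool × Fin 3) :
    (1 / ((DD N : ℕ) : ℝ)) * (Nat.card F : ℝ) ^ (Fintype.card (Fin (m + 1) ⊕ Fin (N + 1))) ≤
      ((Gev3 m N s F).ncard : ℝ) := by
  haveI := Fintype.ofFinite F
  have h4 : (-4 : F) ≠ 0 := by
    rw [neg_ne_zero, show (4 : F) = 2 * 2 by norm_num]
    exact mul_ne_zero h2 h2
  have hc : (if s.1 then (1 : F) else -4) ≠ 0 := by
    split_ifs
    · exact one_ne_zero
    · exact h4
  have h5 : Nat.card F ^ (N + 1) ≤ DD N * (Ev F N s.2).ncard := by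
    rw [Nat.card_eq_fintype_card] at hq ⊢
    exact Ev_card hN hq s.2
  have hD : 0 < DD N := by
    have := D3_pos N
    unfold DD
    positivity
  refine prop_ev (m := m) hD h5 ?_
  exact ncard_ev (F := F) (m := m) (N := N)
    (fun x j => if s.1 then 0 else ((bF x) ^ 2).coeff j) hc _

end count

end Pool.Agent.X243.Sol
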