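import Pool.Agent.X243.Sol.Cnt6
import Pool.Agent.X243.Sol.Frob2
import Pool.Agent.X243.Tate.Cnt4

/-!
The number of pairs `(a, b)` such that `a` splits and `b` has a square and a nonsquare among its values
at the roots of `a`.
-/

set_option autoImplicit false
set_option linter.all false

open Polynomial IsDedekindDomain NumberField
open scoped Classical

namespace Pool.Agent.X243.Sol

open Pool.Agent.Y160.T3 Pool.Agent.X243.Tate

section count

variable {F : Type} [Field F]

/-- The product of distinct linear factors. -/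
def E4 (R : Type) [CommRing R] (N : ℕ) : Set (Fin (N + 1) → R) :=
  {y | ∃ (d : R) (S : Finset R), d ≠ 0 ∧ S.card = N ∧ bF y = C d * ∏ c ∈ S, (X - C c)}

/-- The constant. -/
def D4 (N : ℕ) : ℕ := 2 * (2 ^ N * N.factorial)

theorem D4_pos (N : ℕ) : 0 < D4 N := by
  have := Nat.factorial_pos N
  unfold D4
  positivity

theorem E4_card [Fintype F] {N : ℕ} (hN : 2 ≤ N) (hq : 2 * N + 2 ≤ Fintype.card F) :
    Fintype.card F ^ (N + 1) ≤ D4 N * (E4 F N).ncard := by
  let Φ : Fˣ × {S : Finset F // S ∈ Finset.powersetCard N (Finset.univ : Finset F)} →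
      (Fin (N + 1) → F) :=
    fun x j => (C (x.1 : F) * ∏ c ∈ x.2.1, (X - C c)).coeff j
  have hS : ∀ S : {S : Finset F // S ∈ Finset.powersetCard N (Finset.univ : Finset F)},
      S.1.card = N := fun S => (Finset.mem_powersetCard.1 S.2).2
  have hmon : ∀ S : Finset F, (∏ c ∈ S, (X - C c) : F[X]).Monic :=
    fun S => monic_prod_X_sub_C (fun c => c) S
  have hdeg : ∀ x : Fˣ × {S : Finset F // S ∈ Finset.powersetCard N (Finset.univ : Finset F)},
      (C (x.1 : F) * ∏ c ∈ x.2.1, (X - C c)).natDegree = N := by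
    intro x
    rw [natDegree_C_mul x.1.ne_zero, natDegree_finset_prod_X_sub_C_eq_card, hS]
  have hb : ∀ x, bF (Φ x) = C (x.1 : F) * ∏ c ∈ x.2.1, (X - C c) := by
    intro x
    apply bF_coeffs
    rw [hdeg]
  have hinj : Function.Injective Φ := by
    rintro ⟨u, S⟩ ⟨u', S'⟩ h
    have h1 := hb (u, S)
    rw [h, hb (u', S')] at h1
    obtain ⟨h2, h3⟩ := smul_inj (hmon _) (hmon _) h1
    simp only at h2 h3
    have h4 : S'.1 = S.1 := by
      have h5 := congrArg roots h3
      rw [roots_prod_X_sub_C, roots_prod_X_sub_C] at h5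
      exact Finset.val_injective h5
    exact Prod.ext h2.symm (Subtype.ext h4.symm)
  have hmem : ∀ x, Φ x ∈ E4 F N := fun x => ⟨x.1, x.2.1, x.1.ne_zero, hS _, hb x⟩
  have h1 := ncard_ge Φ hinj _ hmem
  rw [Fintype.card_prod, Fintype.card_coe, Finset.card_powersetCard, Finset.card_univ] at h1
  have h3 := two_le_units (F := F) (by omega)
  have h4 := choose_ge (q := Fintype.card F) (r := N) (by omega)
  calc Fintype.card F ^ (N + 1) = Fintype.card F * Fintype.card F ^ N := by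
        rw [pow_succ, mul_comm]
    _ ≤ (2 * Fintype.card Fˣ) * (2 ^ N * N.factorial * (Fintype.card F).choose N) :=
        Nat.mul_le_mul h3 h4
    _ = D4 N * (Fintype.card Fˣ * (Fintype.card F).choose N) := by
        unfold D4
        ring
    _ ≤ D4 N * (E4 F N).ncard := Nat.mul_le_mul_left _ h1

theorem card_sq [Fintype F] (h2 : (2 : F) ≠ 0) (hq : 2 ≤ Fintype.card F) :
    Fintype.card F ≤ 4 * (Finset.univ.filter (fun x : F => x ≠ 0 ∧ IsSquare x)).card ∧
    Fintype.card F ≤ 4 * (Finset.univ.filter (fun x : F => ¬ IsSquare x)).card := by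
  have hcharF : ringChar F ≠ 2 := by
    intro hc
    apply h2
    have := ringChar.Nat.cast_ringChar (R := F)
    rw [hc] at this
    exact_mod_cast this
  obtain ⟨ν, hν⟩ := FiniteField.exists_nonsquare hcharF
  have hν0 : ν ≠ 0 := fun h => hν (h ▸ ⟨0, by ring⟩)
  have hflip : ∀ y : F, y ≠ 0 → (IsSquare (ν * y) ↔ ¬ IsSquare y) := by
    intro y hy
    constructor
    · rintro ⟨x, hx⟩ ⟨z, hz⟩
      have hz0 : z ≠ 0 := by
        rintro rfl
        rw [mul_zero] at hz
        exact hy hz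
      apply hν
      refine ⟨x / z, ?_⟩
      rw [hz] at hx
      field_simp
      rw [pow_two, pow_two]
      exact hx
    · intro h
      have h3 := quadraticChar_neg_one_iff_not_isSquare.2 h
      have h4 := quadraticChar_neg_one_iff_not_isSquare.2 hν
      have h5 : quadraticChar F (ν * y) = 1 := by
        rw [map_mul, h3, h4]; norm_num
      exact (quadraticChar_one_iff_isSquare (mul_ne_zero hν0 hy)).1 h5
  set A := Finset.univ.filter (fun x : F => x ≠ 0 ∧ IsSquare x) with hA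
  set B := Finset.univ.filter (fun x : F => ¬ IsSquare x) with hB
  have hB0 : ∀ x ∈ B, x ≠ 0 := by
    intro x hx h0
    rw [hB, Finset.mem_filter] at hx
    exact hx.2 (h0 ▸ ⟨0, by ring⟩)
  have h1 : A.card ≤ B.card := by
    refine Finset.card_le_card_of_injOn (fun x => ν * x) ?_ ?_
    · intro x hx
      have hx' := (Finset.mem_filter.1 (Finset.mem_coe.1 hx)).2
      refine Finset.mem_coe.2 (Finset.mem_filter.2 ⟨Finset.mem_univ _, ?_⟩)
      rw [hflip x hx'.1]
      exact not_not.2 hx'.2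
    · intro x _ y _ h
      exact mul_left_cancel₀ hν0 h
  have h3 : B.card ≤ A.card := by
    refine Finset.card_le_card_of_injOn (fun x => ν * x) ?_ ?_
    · intro x hx
      have hx0 := hB0 x (Finset.mem_coe.1 hx)
      have hx' := (Finset.mem_filter.1 (Finset.mem_coe.1 hx)).2
      refine Finset.mem_coe.2 (Finset.mem_filter.2 ⟨Finset.mem_univ _, mul_ne_zero hν0 hx0, ?_⟩)
      exact (hflip x hx0).2 hx'
    · intro x _ y _ h
      exact mul_left_cancel₀ hν0 h
  have h4 : (Finset.univ : Finset F) ⊆ {0} ∪ A ∪ B := by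
    intro x _
    rw [Finset.mem_union, Finset.mem_union, Finset.mem_singleton, hA, hB, Finset.mem_filter,
      Finset.mem_filter]
    by_cases h0 : x = 0
    · exact Or.inl (Or.inl h0)
    · by_cases hs : IsSquare x
      · exact Or.inl (Or.inr ⟨Finset.mem_univ _, h0, hs⟩)
      · exact Or.inr ⟨Finset.mem_univ _, hs⟩
  have h5 := (Finset.card_le_card h4).trans ((Finset.card_union_le _ _).trans
    (Nat.add_le_add_right (Finset.card_union_le _ _) _))
  rw [Finset.card_univ, Finset.card_singleton] at h5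
  omega

theorem val_card [Fintype F] (h2 : (2 : F) ≠ 0) {N : ℕ} (hN : 2 ≤ N) {c₁ c₂ : F} (hc : c₁ ≠ c₂)
    (hq : 2 ≤ Fintype.card F) :
    Fintype.card F ^ (N + 1) ≤ 16 * ({y : Fin (N + 1) → F | IsSquare ((bF y).eval c₁) ∧
      (bF y).eval c₁ ≠ 0 ∧ ¬ IsSquare ((bF y).eval c₂)}).ncard := by
  obtain ⟨M, rfl⟩ : ∃ M, N = M + 2 := ⟨N - 2, by omega⟩
  have hcc : c₂ - c₁ ≠ 0 := sub_ne_zero.2 hc.symm
  let lin : F → F → F[X] := fun u v => C u + C ((v - u) / (c₂ - c₁)) * (X - C c₁)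
  let Φ : {x : F // x ∈ Finset.univ.filter (fun x : F => x ≠ 0 ∧ IsSquare x)} ×
      {x : F // x ∈ Finset.univ.filter (fun x : F => ¬ IsSquare x)} × (Fin (M + 1) → F) →
      (Fin (M + 2 + 1) → F) :=
    fun x j => (lin x.1.1 x.2.1.1 + (X - C c₁) * (X - C c₂) * bF x.2.2).coeff j
  have hbF : ∀ x, bF (Φ x) = lin x.1.1 x.2.1.1 + (X - C c₁) * (X - C c₂) * bF x.2.2 := by
    intro x
    apply bF_coeffs
    refine (natDegree_add_le _ _).trans (max_le ?_ ?_)
    · refine (natDegree_add_le _ _).trans (max_le ?_ ?_)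
      · rw [natDegree_C]; omega
      · refine (natDegree_C_mul_le _ _).trans ?_
        rw [natDegree_X_sub_C]; omega
    · refine natDegree_mul_le.trans ?_
      have h1 : ((X - C c₁) * (X - C c₂) : F[X]).natDegree ≤ 2 := by
        refine natDegree_mul_le.trans ?_
        rw [natDegree_X_sub_C, natDegree_X_sub_C]
      have h3 := bF_nd (N := M) x.2.2
      omega
  have he1 : ∀ x, (bF (Φ x)).eval c₁ = x.1.1 := by
    intro x
    rw [hbF]
    simp [lin]
  have he2 : ∀ x, (bF (Φ x)).eval c₂ = x.2.1.1 := by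
    intro x
    rw [hbF]
    simp only [lin, eval_add, eval_mul, eval_sub, eval_C, eval_X, sub_self, mul_zero, zero_mul,
      add_zero]
    rw [div_mul_cancel₀ _ hcc]
    ring
  have hinj : Function.Injective Φ := by
    rintro ⟨u, v, w⟩ ⟨u', v', w'⟩ h
    have h1 : u = u' := by
      apply Subtype.ext
      have := he1 (u, v, w)
      rw [h, he1] at this
      exact this.symm
    have h3 : v = v' := by
      apply Subtype.ext
      have := he2 (u, v, w)
      rw [h, he2] at this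
      exact this.symm
    subst h1 h3
    have h4 := hbF (u, v, w)
    rw [h, hbF] at h4
    have h5 := mul_left_cancel₀ (mul_ne_zero (X_sub_C_ne_zero c₁) (X_sub_C_ne_zero c₂))
      (add_left_cancel h4)
    have h6 : w' = w := by
      funext j
      have h7 := congrArg (fun p : F[X] => p.coeff (j : ℕ)) h5
      simp only at h7
      rw [bF_coeff, bF_coeff] at h7
      exact h7
    rw [h6]
  have hmem : ∀ x, Φ x ∈ {y : Fin (M + 2 + 1) → F | IsSquare ((bF y).eval c₁) ∧
      (bF y).eval c₁ ≠ 0 ∧ ¬ IsSquare ((bF y).eval c₂)} := by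
    intro x
    show IsSquare ((bF (Φ x)).eval c₁) ∧ (bF (Φ x)).eval c₁ ≠ 0 ∧ ¬ IsSquare ((bF (Φ x)).eval c₂)
    rw [he1, he2]
    have h1 := (Finset.mem_filter.1 x.1.2).2
    have h3 := (Finset.mem_filter.1 x.2.1.2).2
    exact ⟨h1.2, h1.1, h3⟩
  have h1 := ncard_ge Φ hinj _ hmem
  obtain ⟨k1, k2⟩ := card_sq h2 hq
  rw [Fintype.card_prod, Fintype.card_prod, Fintype.card_coe, Fintype.card_coe, Fintype.card_fun,
    Fintype.card_fin] at h1
  calc Fintype.card F ^ (M + 2 + 1) =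
        Fintype.card F * (Fintype.card F * Fintype.card F ^ (M + 1)) := by ring
    _ ≤ (4 * (Finset.univ.filter (fun x : F => x ≠ 0 ∧ IsSquare x)).card) *
        ((4 * (Finset.univ.filter (fun x : F => ¬ IsSquare x)).card) *
          Fintype.card F ^ (M + 1)) :=
        Nat.mul_le_mul k1 (Nat.mul_le_mul_right _ k2)
    _ = 16 * ((Finset.univ.filter (fun x : F => x ≠ 0 ∧ IsSquare x)).card *
        ((Finset.univ.filter (fun x : F => ¬ IsSquare x)).card * Fintype.card F ^ (M + 1))) := by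
        ring
    _ ≤ _ := Nat.mul_le_mul_left _ h1

theorem J4_card [Fintype F] (h2 : (2 : F) ≠ 0) {N : ℕ} (hN : 2 ≤ N)
    (hq : 2 * N + 2 ≤ Fintype.card F) :
    Fintype.card F ^ (2 * N + 2) ≤ (16 * D4 N) *
      ({x : (Fin (N + 1) → F) × (Fin (N + 1) → F) | J4 N (bF x.1) (bF x.2)}).ncard := by
  obtain ⟨Q, hQ⟩ : ∃ Q, Q = Fintype.card F ^ (N + 1) := ⟨_, rfl⟩
  have h1 := E4_card (F := F) hN hq
  rw [← hQ] at h1
  let T : (Fin (N + 1) → F) → Set (Fin (N + 1) → F) := fun x => {y | J4 N (bF x) (bF y)}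
  have hT : ∀ x ∈ E4 F N, Q ≤ 16 * (T x).ncard := by
    rintro x ⟨d, S, hd, hS, hx⟩
    obtain ⟨c₁, hc₁, c₂, hc₂, hne⟩ := Finset.one_lt_card.1 (show 1 < S.card by omega)
    rw [hQ]
    refine (val_card h2 hN hne (by omega)).trans (Nat.mul_le_mul_left _ ?_)
    refine Set.ncard_le_ncard ?_ (Set.toFinite _)
    rintro y ⟨y1, y2, y3⟩
    exact ⟨d, S, c₁, c₂, hd, hS, hx, hc₁, hc₂, y1, y2, y3⟩
  obtain ⟨m, hm⟩ : ∃ m, m = (Q + 15) / 16 := ⟨_, rfl⟩
  have h3 := ncard_sigma (E4 F N) T (m := m) (fun x hx => by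
    have := hT x hx
    omega)
  have h4 : ({x : (Fin (N + 1) → F) × (Fin (N + 1) → F) | x.1 ∈ E4 F N ∧ x.2 ∈ T x.1}).ncard ≤
      ({x : (Fin (N + 1) → F) × (Fin (N + 1) → F) | J4 N (bF x.1) (bF x.2)}).ncard :=
    Set.ncard_le_ncard (fun x hx => hx.2) (Set.toFinite _)
  have h5 : Q ≤ 16 * m := by omega
  calc Fintype.card F ^ (2 * N + 2) = Q * Q := by
        rw [hQ]
        ring
    _ ≤ (D4 N * (E4 F N).ncard) * (16 * m) := Nat.mul_le_mul h1 h5
    _ = 16 * D4 N * ((E4 F N).ncard * m) := by ring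
    _ ≤ _ := Nat.mul_le_mul_left _ (h3.trans h4)

end count

section event

theorem J4_map {R S : Type} [CommRing R] [CommRing S] (θ : R ≃+* S) {N : ℕ} {a b : R[X]}
    (h : J4 N a b) : J4 N (a.map (θ : R →+* S)) (b.map (θ : R →+* S)) := by
  obtain ⟨d, T, c₁, c₂, h1, h2, h3, h4, h5, h6, h7, h8⟩ := h
  have hev : ∀ c : R, (b.map (θ : R →+* S)).eval (θ c) = θ (b.eval c) := by
    intro c
    exact eval_map_apply (f := (θ : R →+* S)) (p := b) (x := c)
  refine ⟨θ d, T.image θ, θ c₁, θ c₂, (map_ne_zero_iff _ θ.injective).2 h1, ?_, ?_,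
    Finset.mem_image_of_mem _ h4, Finset.mem_image_of_mem _ h5, ?_, ?_, ?_⟩
  · rw [Finset.card_image_of_injective _ θ.injective, h2]
  · rw [h3, Polynomial.map_mul, map_C, Polynomial.map_prod,
      Finset.prod_image (fun x _ y _ h => θ.injective h)]
    congr 1
    refine Finset.prod_congr rfl fun c _ => ?_
    rw [Polynomial.map_sub, map_X, map_C]
    rfl
  · rw [hev]
    exact h6.map θ
  · rw [hev]
    exact (map_ne_zero_iff _ θ.injective).2 h7
  · rw [hev]
    intro h
    apply h8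
    have := h.map θ.symm
    rwa [θ.symm_apply_apply] at this

/-- The seven conditions at a prime. -/
def Fe7 (N : ℕ) (s : Option (Fin 3 × Fin 3)) (R : Type) [CommRing R] :
    Set (Fin (N + 1) ⊕ Fin (N + 1) → R) :=
  match s with
  | none => {z | J4 N (bF (z ∘ Sum.inl)) (bF (z ∘ Sum.inr))}
  | some s => if s.1 = 0 then {z | z ∘ Sum.inl ∈ Ev R N s.2} else
      if s.1 = 1 then {z | z ∘ Sum.inr ∈ Ev R N s.2} else
        {z | (fun j => z (Sum.inl j) - z (Sum.inr j)) ∈ Ev R N s.2}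

/-- The constant. -/
def D7 (N : ℕ) : ℕ := DD N * (16 * D4 N)

theorem D7_pos {N : ℕ} (hN : 0 < N) : 0 < D7 N := by
  have h1 := D3_pos N
  have h3 := D4_pos N
  unfold D7 DD
  positivity

theorem Fe7_card {F : Type} [Field F] [Finite F] {N : ℕ} (hN : 3 ≤ N)
    (hq : 2 * N + 2 ≤ Nat.card F) (h2 : (2 : F) ≠ 0) (s : Option (Fin 3 × Fin 3)) :
    Nat.card F ^ (2 * N + 2) ≤ D7 N * (Fe7 N s F).ncard := by
  haveI := Fintype.ofFinite F
  obtain ⟨q, hqd⟩ : ∃ q, q = Nat.card F := ⟨_, rfl⟩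
  have hqF : q = Fintype.card F := by rw [hqd, Nat.card_eq_fintype_card]
  have hDD : 0 < DD N := by
    have := D3_pos N
    unfold DD
    positivity
  have h4 := D4_pos N
  have h3 : ∀ s, q ^ (N + 1) ≤ DD N * (Ev F N s).ncard := by
    intro s
    rw [hqF]
    exact Ev_card hN (by rw [← hqF, hqd]; omega) s
  have hev : ∀ (T : Set (Fin (N + 1) → F)), q ^ (N + 1) ≤ DD N * T.ncard →
      ∀ (w : (Fin (N + 1) → F) → (Fin (N + 1) → F)) (c : F), c ≠ 0 →
      q ^ (2 * N + 2) ≤ D7 N * ({z : Fin (N + 1) ⊕ Fin (N + 1) → F |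
        (fun j => w (z ∘ Sum.inl) j + c * z (Sum.inr j)) ∈ T}).ncard := by
    intro T hT w c hc
    rw [ncard_ev w hc, ← hqd]
    calc q ^ (2 * N + 2) = q ^ (N + 1) * q ^ (N + 1) := by ring
      _ ≤ q ^ (N + 1) * (DD N * T.ncard) := Nat.mul_le_mul_left _ hT
      _ = DD N * (q ^ (N + 1) * T.ncard) := by ring
      _ ≤ D7 N * (q ^ (N + 1) * T.ncard) :=
        Nat.mul_le_mul_right _ (Nat.le_mul_of_pos_right _ (by omega))
  have hpre : ∀ S : Set ((Fin (N + 1) → F) × (Fin (N + 1) → F)),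
      ({z : Fin (N + 1) ⊕ Fin (N + 1) → F | (z ∘ Sum.inl, z ∘ Sum.inr) ∈ S}).ncard = S.ncard := by
    intro S
    have h3 : {z : Fin (N + 1) ⊕ Fin (N + 1) → F | (z ∘ Sum.inl, z ∘ Sum.inr) ∈ S} =
        (prE F N N) ⁻¹' S := rfl
    rw [h3, Set.ncard_preimage_of_injective_subset_range (Equiv.injective _) (by simp)]
  have hleft : ∀ (T : Set (Fin (N + 1) → F)), q ^ (N + 1) ≤ DD N * T.ncard →
      q ^ (2 * N + 2) ≤ D7 N * ({z : Fin (N + 1) ⊕ Fin (N + 1) → F |
        (z ∘ Sum.inl, z ∘ Sum.inr) ∈ T ×ˢ (Set.univ : Set (Fin (N + 1) → F))}).ncard := by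
    intro T hT
    rw [hpre, Set.ncard_prod, Set.ncard_univ, Nat.card_fun,
      Nat.card_eq_fintype_card (α := Fin (N + 1)), Fintype.card_fin, ← hqd]
    calc q ^ (2 * N + 2) = q ^ (N + 1) * q ^ (N + 1) := by ring
      _ ≤ (DD N * T.ncard) * q ^ (N + 1) := Nat.mul_le_mul_right _ hT
      _ = DD N * (T.ncard * q ^ (N + 1)) := by ring
      _ ≤ D7 N * (T.ncard * q ^ (N + 1)) :=
        Nat.mul_le_mul_right _ (Nat.le_mul_of_pos_right _ (by omega))
  rw [← hqd]
  rcases s with _ | ⟨s, t⟩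
  · show q ^ (2 * N + 2) ≤ D7 N * ({z : Fin (N + 1) ⊕ Fin (N + 1) → F |
      (z ∘ Sum.inl, z ∘ Sum.inr) ∈ {x : (Fin (N + 1) → F) × (Fin (N + 1) → F) |
        J4 N (bF x.1) (bF x.2)}}).ncard
    rw [hpre, hqF]
    refine (J4_card h2 (by omega) (by rw [← hqF, hqd]; omega)).trans ?_
    exact Nat.mul_le_mul_right _ (Nat.le_mul_of_pos_left _ hDD)
  · unfold Fe7
    simp only
    split_ifs with hs hs'
    · have e : {z : Fin (N + 1) ⊕ Fin (N + 1) → F | z ∘ Sum.inl ∈ Ev F N t} =
          {z : Fin (N + 1) ⊕ Fin (N + 1) → F |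
            (z ∘ Sum.inl, z ∘ Sum.inr) ∈ (Ev F N t) ×ˢ (Set.univ : Set (Fin (N + 1) → F))} := by
        ext z
        exact ⟨fun h => ⟨h, trivial⟩, fun h => h.1⟩
      rw [e]
      exact hleft _ (h3 t)
    · have := hev _ (h3 t) (fun _ _ => 0) 1 one_ne_zero
      have e : {z : Fin (N + 1) ⊕ Fin (N + 1) → F | z ∘ Sum.inr ∈ Ev F N t} =
          {z : Fin (N + 1) ⊕ Fin (N + 1) → F |
            (fun j => (0 : F) + 1 * z (Sum.inr j)) ∈ Ev F N t} := by
        ext z
        show _ ↔ (fun j => (0 : F) + 1 * z (Sum.inr j)) ∈ Ev F N t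
        have : (fun j => (0 : F) + 1 * z (Sum.inr j)) = z ∘ Sum.inr := by
          funext j
          rw [zero_add, one_mul]
          rfl
        rw [this]
        exact Iff.rfl
      rw [e]
      exact this
    · have := hev _ (h3 t) (fun x => x) (-1) (neg_ne_zero.2 one_ne_zero)
      have e : {z : Fin (N + 1) ⊕ Fin (N + 1) → F |
            (fun j => z (Sum.inl j) - z (Sum.inr j)) ∈ Ev F N t} =
          {z : Fin (N + 1) ⊕ Fin (N + 1) → F |
            (fun j => (z ∘ Sum.inl) j + (-1) * z (Sum.inr j)) ∈ Ev F N t} := by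
        ext z
        have : (fun j => (z ∘ Sum.inl) j + (-1) * z (Sum.inr j)) =
            fun j => z (Sum.inl j) - z (Sum.inr j) := by
          funext j
          rw [neg_one_mul, ← sub_eq_add_neg]
          rfl
        show _ ↔ (fun j => (z ∘ Sum.inl) j + (-1) * z (Sum.inr j)) ∈ Ev F N t
        rw [this]
        exact Iff.rfl
      rw [e]
      exact this

end event

end Pool.Agent.X243.Sol
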