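import Mathlib

/-!
Cycle types of Frobenius elements.
-/

set_option autoImplicit false
set_option linter.all false

open Polynomial
open scoped Classical

namespace Pool.Agent.X243.Sol

section grp

variable {α : Type} [Fintype α] [DecidableEq α]

/-- A doubly transitive group with a transposition. -/
theorem top_of (H : Subgroup (Equiv.Perm α)) (a : α) (h1 : ∀ x, ∃ g ∈ H, g x = a)
    (h2 : ∀ x y, x ≠ a → y ≠ a → ∃ g ∈ H, g a = a ∧ g x = y)
    (hs : ∃ s ∈ H, s.IsSwap) : H = ⊤ := by
  rw [eq_top_iff, ← Equiv.Perm.closure_isSwap, Subgroup.closure_le]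
  rintro g ⟨x, y, hxy, rfl⟩
  obtain ⟨s, hsH, x0, y0, hne, rfl⟩ := hs
  obtain ⟨g1, hg1, e1⟩ := h1 x0
  obtain ⟨g2, hg2, e2⟩ := h1 x
  have n1 : g1 y0 ≠ a := by
    intro h
    exact hne (g1.injective (e1.trans h.symm))
  have n2 : g2 y ≠ a := by
    intro h
    exact hxy (g2.injective (e2.trans h.symm))
  obtain ⟨h, hh, e3, e4⟩ := h2 _ _ n1 n2
  have k1 : (g2⁻¹ * h * g1) x0 = x := by
    rw [Equiv.Perm.mul_apply, Equiv.Perm.mul_apply, e1, e3, Equiv.Perm.inv_eq_iff_eq, e2]
  have k2 : (g2⁻¹ * h * g1) y0 = y := by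
    rw [Equiv.Perm.mul_apply, Equiv.Perm.mul_apply, e4, Equiv.Perm.inv_eq_iff_eq]
  have k3 : Equiv.swap x y = (g2⁻¹ * h * g1) * Equiv.swap x0 y0 * (g2⁻¹ * h * g1)⁻¹ := by
    rw [Equiv.mul_swap_eq_swap_mul, k1, k2, mul_inv_cancel_right]
  show Equiv.swap x y ∈ H
  rw [k3]
  have h5 : g2⁻¹ * h * g1 ∈ H := H.mul_mem (H.mul_mem (H.inv_mem hg2) hh) hg1
  exact H.mul_mem (H.mul_mem h5 hsH) (H.inv_mem h5)

end grp

section cyc

variable {R κ : Type} [Field R] [Finite R] [Field κ] (j : R →+* κ)

/-- The elements fixed by the Frobenius map. -/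
theorem fixed_mem {x : κ} (hx : x ^ Nat.card R = x) : ∃ c : R, j c = x := by
  haveI := Fintype.ofFinite R
  rw [Nat.card_eq_fintype_card] at hx
  have h1 : (X ^ Fintype.card R - X : R[X]).Splits := by
    rw [splits_iff_card_roots, FiniteField.roots_X_pow_card_sub_X,
      FiniteField.X_pow_card_sub_X_natDegree_eq R Fintype.one_lt_card]
    rfl
  have h2 : (X ^ Fintype.card R - X : R[X]) ≠ 0 :=
    FiniteField.X_pow_card_sub_X_ne_zero R Fintype.one_lt_card
  have h3 : ((X ^ Fintype.card R - X : R[X]).map j).IsRoot x := by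
    rw [IsRoot.def, Polynomial.map_sub, Polynomial.map_pow, map_X, eval_sub, eval_pow, eval_X, hx,
      sub_self]
  exact h1.mem_range_of_isRoot h2 h3

variable {Z : Type} [Fintype Z] {r : Z → κ} {s : Equiv.Perm Z} {f : R[X]} {u : κ}

theorem inj_of (hsep : f.Separable) (hf : f.map j = C u * ∏ θ : Z, (X - C (r θ))) :
    Function.Injective r := by
  have h1 : (f.map j).Separable := hsep.map
  rw [hf] at h1
  have h2 : (∏ θ : Z, (X - C (r θ))).Separable := h1.of_mul_right
  exact (separable_prod_X_sub_C_iff).1 h2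

theorem u_ne (hsep : f.Separable) (hf : f.map j = C u * ∏ θ : Z, (X - C (r θ))) : u ≠ 0 := by
  rintro rfl
  rw [C_0, zero_mul] at hf
  exact (hsep.map (f := j)).ne_zero hf

theorem root_iff (hsep : f.Separable) (hf : f.map j = C u * ∏ θ : Z, (X - C (r θ))) (x : κ) :
    (f.map j).eval x = 0 ↔ ∃ θ, r θ = x := by
  rw [hf, eval_mul, eval_C, eval_prod, mul_eq_zero, Finset.prod_eq_zero_iff]
  constructor
  · rintro (h | ⟨θ, -, h⟩)
    · exact absurd h (u_ne j hsep hf)
    · refine ⟨θ, ?_⟩
      rw [eval_sub, eval_X, eval_C, sub_eq_zero] at h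
      exact h.symm
  · rintro ⟨θ, rfl⟩
    exact Or.inr ⟨θ, Finset.mem_univ _, by rw [eval_sub, eval_X, eval_C, sub_self]⟩

/-- A rational root gives a fixed point. -/
theorem fix_of (hsep : f.Separable) (hf : f.map j = C u * ∏ θ : Z, (X - C (r θ)))
    (hs : ∀ θ, r (s θ) = r θ ^ Nat.card R) {c : R} (hc : f.eval c = 0) :
    ∃ θ, r θ = j c ∧ s θ = θ := by
  haveI := Fintype.ofFinite R
  have h1 : (f.map j).eval (j c) = 0 := by
    rw [eval_map_apply, hc, map_zero]
  obtain ⟨θ, hθ⟩ := (root_iff j hsep hf _).1 h1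
  refine ⟨θ, hθ, ?_⟩
  apply inj_of j hsep hf
  rw [hs, hθ, ← map_pow, Nat.card_eq_fintype_card, FiniteField.pow_card]

theorem root_pow {g : R[X]} {x : κ} (hx : (g.map j).eval x = 0) :
    (g.map j).eval (x ^ Nat.card R) = 0 := by
  haveI := Fintype.ofFinite R
  letI := j.toAlgebra
  have h1 : (g.map j).eval (x ^ Nat.card R) = aeval (FiniteField.frobeniusAlgHom R κ x) g := by
    rw [aeval_def, eval_map]
    rw [FiniteField.frobeniusAlgHom_apply, Nat.card_eq_fintype_card]
    rfl
  have h2 : aeval x g = 0 := by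
    rw [aeval_def, ← eval_map]
    exact hx
  rw [h1, Polynomial.aeval_algHom_apply, h2, map_zero]

/-- The Frobenius element is transitive on the roots of an irreducible factor. -/
theorem trans_of (hsep : f.Separable) (hf : f.map j = C u * ∏ θ : Z, (X - C (r θ)))
    (hs : ∀ θ, r (s θ) = r θ ^ Nat.card R) {π : R[X]} (hπ : Irreducible π) {θ θ' : Z}
    (h1 : (π.map j).eval (r θ) = 0) (h2 : (π.map j).eval (r θ') = 0) : ∃ n : ℕ, (s ^ n) θ = θ' := by
  haveI := Fintype.ofFinite R
  obtain ⟨T, hT⟩ : ∃ T : Finset Z, T = Finset.univ.filter (fun t => ∃ n : ℕ, (s ^ n) θ = t) := ⟨_, rfl⟩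
  have hmem : ∀ t, t ∈ T ↔ ∃ n : ℕ, (s ^ n) θ = t := by
    intro t
    rw [hT, Finset.mem_filter]
    exact ⟨fun h => h.2, fun h => ⟨Finset.mem_univ _, h⟩⟩
  have hsT : ∀ t ∈ T, s t ∈ T := by
    intro t ht
    rw [hmem] at ht ⊢
    obtain ⟨n, rfl⟩ := ht
    exact ⟨n + 1, by rw [pow_succ']; rfl⟩
  have himg : T.image s = T := by
    refine Finset.eq_of_subset_of_card_le (fun x hx => ?_) ?_
    · obtain ⟨t, ht, rfl⟩ := Finset.mem_image.1 hx
      exact hsT t ht
    · rw [Finset.card_image_of_injective _ s.injective]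
  obtain ⟨h, hh⟩ : ∃ h : κ[X], h = ∏ t ∈ T, (X - C (r t)) := ⟨_, rfl⟩
  letI := j.toAlgebra
  have hmap : h.map (FiniteField.frobeniusAlgHom R κ : κ →+* κ) = h := by
    rw [hh, Polynomial.map_prod]
    conv_rhs => rw [← himg]
    rw [Finset.prod_image (fun x _ y _ h => s.injective h)]
    refine Finset.prod_congr rfl fun t _ => ?_
    rw [Polynomial.map_sub, map_X, map_C, hs]
    congr 2
    show (FiniteField.frobeniusAlgHom R κ) (r t) = _
    rw [FiniteField.frobeniusAlgHom_apply, Nat.card_eq_fintype_card]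
  have hcoef : ∀ n, ∃ c : R, j c = h.coeff n := by
    intro n
    apply fixed_mem j
    have h3 := congrArg (fun p : κ[X] => p.coeff n) hmap
    simp only [coeff_map] at h3
    have h4 : (FiniteField.frobeniusAlgHom R κ : κ →+* κ) (h.coeff n) = h.coeff n ^ Nat.card R := by
      show (FiniteField.frobeniusAlgHom R κ) (h.coeff n) = _
      rw [FiniteField.frobeniusAlgHom_apply, Nat.card_eq_fintype_card]
    rw [← h4]
    exact h3
  obtain ⟨h0, hh0⟩ : ∃ h0 : R[X], h0.map j = h := by
    have : h ∈ Polynomial.lifts j := by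
      rw [Polynomial.lifts_iff_coeff_lifts]
      intro n
      obtain ⟨c, hc⟩ := hcoef n
      exact ⟨c, hc⟩
    obtain ⟨h0, hh0⟩ := (Polynomial.mem_lifts h).1 this
    exact ⟨h0, hh0⟩
  have hθT : θ ∈ T := (hmem θ).2 ⟨0, rfl⟩
  have hev : (h0.map j).eval (r θ) = 0 := by
    rw [hh0, hh, eval_prod]
    exact Finset.prod_eq_zero hθT (by rw [eval_sub, eval_X, eval_C, sub_self])
  have hdvd : π ∣ h0 := by
    by_contra hnd
    have hco : IsCoprime π h0 := (hπ.coprime_iff_not_dvd).2 hnd
    obtain ⟨a, b, hab⟩ := hco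
    have h3 := congrArg (fun p : R[X] => (p.map j).eval (r θ)) hab
    simp only [Polynomial.map_add, Polynomial.map_mul, eval_add, eval_mul, Polynomial.map_one,
      eval_one, h1, hev, mul_zero, add_zero] at h3
    exact zero_ne_one h3
  obtain ⟨g, hg⟩ := hdvd
  have h3 : (h0.map j).eval (r θ') = 0 := by
    rw [hg, Polynomial.map_mul, eval_mul, h2, zero_mul]
  rw [hh0, hh, eval_prod, Finset.prod_eq_zero_iff] at h3
  obtain ⟨t, ht, h4⟩ := h3
  rw [eval_sub, eval_X, eval_C, sub_eq_zero] at h4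
  have h5 : θ' = t := inj_of j hsep hf h4
  rw [h5]
  exact (hmem t).1 ht

/-- The type with an irreducible factor of degree `N - 1`. -/
theorem type_two (hsep : f.Separable) (hf : f.map j = C u * ∏ θ : Z, (X - C (r θ)))
    (hs : ∀ θ, r (s θ) = r θ ^ Nat.card R) {π : R[X]} (hπ : Irreducible π) {c d : R}
    (hfac : f = C d * (X - C c) * π) :
    ∃ a : Z, s a = a ∧ ∀ x y, x ≠ a → y ≠ a → ∃ n : ℕ, (s ^ n) x = y := by
  obtain ⟨a, h1, h2⟩ := fix_of j hsep hf hs (c := c) (by
    rw [hfac]
    simp)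
  refine ⟨a, h2, fun x y hx hy => ?_⟩
  have hd : j d ≠ 0 := by
    intro h
    have : d = 0 := j.injective (by rw [h, map_zero])
    rw [hfac, this, C_0, zero_mul, zero_mul] at hsep
    exact hsep.ne_zero rfl
  have key : ∀ x, x ≠ a → (π.map j).eval (r x) = 0 := by
    intro x hx
    have h3 : (f.map j).eval (r x) = 0 := (root_iff j hsep hf _).2 ⟨x, rfl⟩
    rw [hfac, Polynomial.map_mul, Polynomial.map_mul, Polynomial.map_sub, map_C, map_X, map_C,
      eval_mul, eval_mul, eval_sub, eval_C, eval_X, eval_C, mul_eq_zero, mul_eq_zero] at h3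
    rcases h3 with (h3 | h3) | h3
    · exact absurd h3 hd
    · rw [sub_eq_zero, ← h1] at h3
      exact absurd (inj_of j hsep hf h3) hx
    · exact h3
  exact trans_of j hsep hf hs hπ (key x hx) (key y hy)

/-- The type with an irreducible factor of degree two, and linear factors. -/
theorem type_swap [DecidableEq Z] (hsep : f.Separable) (hf : f.map j = C u * ∏ θ : Z, (X - C (r θ)))
    (hs : ∀ θ, r (s θ) = r θ ^ Nat.card R) {π : R[X]} (hπ : Irreducible π) (hd : π.natDegree = 2)
    {S : Finset R} {d : R} (hfac : f = C d * π * ∏ c ∈ S, (X - C c)) : s.IsSwap := by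
  have hinj := inj_of j hsep hf
  have hd0 : j d ≠ 0 := by
    intro h
    have : d = 0 := j.injective (by rw [h, map_zero])
    rw [hfac, this, C_0, zero_mul, zero_mul] at hsep
    exact hsep.ne_zero rfl
  have hπj : (π.map j).natDegree = 2 := by rw [natDegree_map, hd]
  -- no rational roots
  have hnr : ∀ c : R, (π.map j).eval (j c) ≠ 0 := by
    intro c hc
    rw [eval_map_apply] at hc
    have h1 : π.eval c = 0 := j.injective (by rw [hc, map_zero])
    have h2 : π.natDegree = 1 :=
      natDegree_eq_of_degree_eq_some (degree_eq_one_of_irreducible_of_root hπ h1)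
    omega
  -- the dichotomy
  have hdich : ∀ x, (π.map j).eval (r x) = 0 ∨ s x = x := by
    intro x
    have h3 : (f.map j).eval (r x) = 0 := (root_iff j hsep hf _).2 ⟨x, rfl⟩
    rw [hfac, Polynomial.map_mul, Polynomial.map_mul, map_C, eval_mul, eval_mul, eval_C,
      mul_eq_zero, mul_eq_zero] at h3
    rcases h3 with (h3 | h3) | h3
    · exact absurd h3 hd0
    · exact Or.inl h3
    · right
      rw [Polynomial.map_prod, eval_prod, Finset.prod_eq_zero_iff] at h3
      obtain ⟨c, hc, h4⟩ := h3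
      rw [Polynomial.map_sub, map_X, map_C, eval_sub, eval_X, eval_C, sub_eq_zero] at h4
      obtain ⟨a, h5, h6⟩ := fix_of j hsep hf hs (c := c) (by
        rw [hfac, eval_mul, eval_prod, Finset.prod_eq_zero hc, mul_zero]
        rw [eval_sub, eval_X, eval_C, sub_self])
      have : x = a := hinj (h4.trans h5.symm)
      rw [this, h6]
  have hmove : ∀ x, (π.map j).eval (r x) = 0 → s x ≠ x := by
    intro x hx h
    have h1 := hs x
    rw [h] at h1
    obtain ⟨c, hc⟩ := fixed_mem j h1.symm
    exact hnr c (by rw [hc]; exact hx)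
  -- a root of `π`
  have hdvd : π.map j ∣ f.map j := by
    rw [hfac, Polynomial.map_mul, Polynomial.map_mul]
    exact Dvd.intro_left _ rfl |>.mul_right _
  have hfs : (f.map j).Splits := by
    rw [hf]
    exact (Splits.C u).mul (Splits.prod fun θ _ => Splits.X_sub_C _)
  have hπs : (π.map j).Splits := hfs.of_dvd (hsep.map (f := j)).ne_zero hdvd
  have hcard : Multiset.card (π.map j).roots = 2 := by
    rw [← hπs.natDegree_eq_card_roots, hπj]
  have hπ0 : π.map j ≠ 0 := by
    intro h
    rw [h, natDegree_zero] at hπj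
    omega
  obtain ⟨x0, hx0⟩ : ∃ x0, x0 ∈ (π.map j).roots := by
    apply Multiset.card_pos_iff_exists_mem.1
    omega
  rw [mem_roots hπ0, IsRoot.def] at hx0
  have hx0f : (f.map j).eval x0 = 0 := by
    obtain ⟨g, hg⟩ := hdvd
    rw [hg, eval_mul, hx0, zero_mul]
  obtain ⟨a, ha⟩ := (root_iff j hsep hf _).1 hx0f
  have ha0 : (π.map j).eval (r a) = 0 := by rw [ha]; exact hx0
  have hb0 : (π.map j).eval (r (s a)) = 0 := by
    rw [hs]
    exact root_pow j ha0
  have hab : s a ≠ a := hmove a ha0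
  have honly : ∀ x, (π.map j).eval (r x) = 0 → x = a ∨ x = s a := by
    intro x hx
    by_contra hne
    push Not at hne
    have h1 : ({r a, r (s a), r x} : Finset κ) ⊆ (π.map j).roots.toFinset := by
      intro y hy
      rw [Multiset.mem_toFinset, mem_roots hπ0, IsRoot.def]
      simp only [Finset.mem_insert, Finset.mem_singleton] at hy
      rcases hy with rfl | rfl | rfl
      · exact ha0
      · exact hb0
      · exact hx
    have h2 : ({r a, r (s a), r x} : Finset κ).card = 3 := by
      rw [Finset.card_eq_three]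
      exact ⟨_, _, _, fun h => hab (hinj h).symm, fun h => hne.1 (hinj h).symm,
        fun h => hne.2 (hinj h).symm, rfl⟩
    have h3 := Finset.card_le_card h1
    have h4 := Multiset.toFinset_card_le (π.map j).roots
    omega
  have hssa : s (s a) = a := by
    have h1 : (π.map j).eval (r (s (s a))) = 0 := by
      rw [hs]
      exact root_pow j hb0
    rcases honly _ h1 with h | h
    · exact h
    · exact absurd (s.injective h) hab
  refine ⟨a, s a, hab.symm, ?_⟩
  ext x
  rw [Equiv.swap_apply_def]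
  split_ifs with h1 h2
  · rw [h1]
  · rw [h2, hssa]
  · rcases hdich x with h | h
    · rcases honly x h with h3 | h3
      · exact absurd h3 h1
      · exact absurd h3 h2
    · exact h

end cyc

end Pool.Agent.X243.Sol
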