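import Mathlib

/-!
Field extensions over which a polynomial with full symmetric Galois group keeps its even permutations.
-/

set_option autoImplicit false
set_option linter.all false

open Polynomial
open scoped Classical

namespace Pool.Agent.X243.Sol

section ext

variable {k : Type} [Field k] {F : k[X]} {E : Type} [Field E] [Algebra k E] [FiniteDimensional k E]
  [IsGalois k E] {L L' : Type} [Field L] [Field L'] [Algebra k L] [Algebra L L'] [Algebra k L']
  [IsScalarTower k L L'] [IsGalois L L'] [Algebra E L'] [IsScalarTower k E L']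

/-- The part of `M` in `E`. -/
noncomputable def ME (E : Type) [Field E] [Algebra k E] [Algebra E L'] [IsScalarTower k E L']
    (M : IntermediateField k L') : IntermediateField k E :=
  M.comap (IsScalarTower.toAlgHom k E L')

theorem mem_ME {M : IntermediateField k L'} {x : E} : x ∈ ME E M ↔ algebraMap E L' x ∈ M := Iff.rfl

theorem ME_stable (M : IntermediateField k L') [Normal k M] (g : E ≃ₐ[k] E) {x : E}
    (hx : x ∈ ME E M) : g x ∈ ME E M := by
  rw [mem_ME] at hx ⊢
  obtain ⟨y, hy⟩ : ∃ y : M, (y : L') = algebraMap E L' x := ⟨⟨_, hx⟩, rfl⟩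
  have h1 : minpoly k y = minpoly k x := by
    rw [← minpoly.algebraMap_eq (algebraMap E L').injective x, ← hy]
    exact (minpoly.algebraMap_eq (algebraMap M L').injective y).symm
  have h2 : ((minpoly k y).map (algebraMap k M)).Splits := Normal.splits inferInstance y
  rw [h1] at h2
  have hint : IsIntegral k x := Algebra.IsIntegral.isIntegral x
  have h3 : (((minpoly k x).map (algebraMap k M)).map (algebraMap M L')).IsRoot
      (algebraMap E L' (g x)) := by
    rw [Polynomial.map_map, ← IsScalarTower.algebraMap_eq, IsRoot.def, eval_map_algebraMap,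
      aeval_algebraMap_apply, aeval_algHom_apply g x, minpoly.aeval,
      map_zero, map_zero]
  obtain ⟨z, hz⟩ := h2.mem_range_of_isRoot
    ((Polynomial.map_ne_zero_iff (algebraMap k M).injective).2 (minpoly.ne_zero hint)) h3
  rw [← hz]
  exact z.2

instance ME_normal (M : IntermediateField k L') [Normal k M] :
    ((ME E M).fixingSubgroup : Subgroup (E ≃ₐ[k] E)).Normal := by
  refine ⟨fun n hn g => ?_⟩
  rw [IntermediateField.mem_fixingSubgroup_iff] at hn ⊢
  intro x hx
  have h1 : g⁻¹ x ∈ ME E M := ME_stable M g⁻¹ hx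
  show g (n (g⁻¹ x)) = x
  rw [hn _ h1]
  exact g.apply_symm_apply x

/-- The even permutations of the roots. -/
theorem even_perm (hspl : (F.map (algebraMap k E)).Splits)
    (hsurj : Function.Surjective (MulAction.toPermHom (E ≃ₐ[k] E) (F.rootSet E)))
    (h5 : 5 ≤ Nat.card (F.rootSet E)) (M : IntermediateField k L') [Normal k M]
    (hM : ∀ x : L, IsAlgebraic k x → algebraMap L L' x ∈ M)
    (hns : ¬ (F.map (algebraMap k M)).Splits) (c : Equiv.Perm (F.rootSet E))
    (hc : c ∈ alternatingGroup (F.rootSet E)) :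
    ∃ g : L' ≃ₐ[L] L', ∀ θ : F.rootSet E, g (algebraMap E L' θ) = algebraMap E L' (c θ) := by
  haveI hn2 : ((ME E M).fixingSubgroup.map
      (MulAction.toPermHom (E ≃ₐ[k] E) (F.rootSet E))).Normal :=
    (ME_normal (E := E) M).map _ hsurj
  have hnt : Nontrivial ((ME E M).fixingSubgroup.map
      (MulAction.toPermHom (E ≃ₐ[k] E) (F.rootSet E))) := by
    rw [Subgroup.nontrivial_iff_ne_bot]
    intro hbot
    apply hns
    have h1 : ∀ θ ∈ F.rootSet E, θ ∈ ME E M := by
      intro θ hθ
      rw [← IsGalois.fixedField_fixingSubgroup (ME E M)]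
      rw [IntermediateField.mem_fixedField_iff]
      intro σ hσ
      have h2 : MulAction.toPermHom (E ≃ₐ[k] E) (F.rootSet E) σ = 1 := by
        rw [← Subgroup.mem_bot, ← hbot]
        exact ⟨σ, hσ, rfl⟩
      have h3 := congrArg (fun p : Equiv.Perm (F.rootSet E) => ((p ⟨θ, hθ⟩ : F.rootSet E) : E)) h2
      exact h3
    have h4 : (F.map (algebraMap k L')).Splits := by
      rw [IsScalarTower.algebraMap_eq k E L', ← Polynomial.map_map]
      exact hspl.map _
    apply IntermediateField.splits_of_splits h4
    intro x hx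
    rw [← hspl.image_rootSet_algebraMap (B := L')] at hx
    obtain ⟨θ, hθ, rfl⟩ := hx
    exact h1 θ hθ
  have halt := Equiv.Perm.alternatingGroup_le_of_normal h5 hnt
  obtain ⟨σ, hσ, rfl⟩ := halt hc
  let ρ : (L' ≃ₐ[L] L') →* (E ≃ₐ[k] E) :=
    (AlgEquiv.restrictNormalHom E).comp (AlgEquiv.restrictScalarsHom k)
  have hρ : ∀ (g : L' ≃ₐ[L] L') (x : E), algebraMap E L' (ρ g x) = g (algebraMap E L' x) := by
    intro g x
    exact AlgEquiv.restrictNormal_commutes (g.restrictScalars k) E x
  have hle : IntermediateField.fixedField ρ.range ≤ ME E M := by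
    intro x hx
    rw [IntermediateField.mem_fixedField_iff] at hx
    rw [mem_ME]
    have h1 : algebraMap E L' x ∈ Set.range (algebraMap L L') := by
      rw [InfiniteGalois.mem_range_algebraMap_iff_fixed]
      intro g
      rw [← hρ, hx _ ⟨g, rfl⟩]
    obtain ⟨y, hy⟩ := h1
    rw [← hy]
    apply hM
    rw [← isAlgebraic_algebraMap_iff (algebraMap L L').injective, hy]
    exact (Algebra.IsAlgebraic.isAlgebraic (R := k) x).algebraMap
  have hmem : σ ∈ ρ.range := by
    rw [← IntermediateField.fixingSubgroup_fixedField ρ.range]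
    exact IntermediateField.fixingSubgroup_le hle hσ
  obtain ⟨g, rfl⟩ := hmem
  exact ⟨g, fun θ => (hρ g θ).symm⟩

end ext

end Pool.Agent.X243.Sol
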