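import Pool.Agent.X243.Tate.Gauss2

/-!
Frobenius elements acting on the roots of a polynomial.
-/

set_option autoImplicit false
set_option linter.all false

open Polynomial IsLocalRing IsDedekindDomain NumberField
open scoped Classical

namespace Pool.Agent.X243.Sol

open Pool.Agent.X243.Tate

section frob

variable {k : Type} [Field k] [NumberField k] (P : HeightOneSpectrum (𝓞 k))

/-- The elements of the valuation ring, with the residue, and zero otherwise. -/
noncomputable def red {E : Type} [Field E] (B : ValuationSubring E) (x : E) : ResidueField B :=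
  if h : x ∈ B then residue B ⟨x, h⟩ else 0

theorem red_coe {E : Type} [Field E] {B : ValuationSubring E} (x : B) :
    red B (x : E) = residue B x := by
  rw [red, dif_pos x.2]

theorem red_mul {E : Type} [Field E] {B : ValuationSubring E} {x y : E} (hx : x ∈ B) (hy : y ∈ B) :
    red B (x * y) = red B x * red B y := by
  rw [red, red, red, dif_pos hx, dif_pos hy, dif_pos (mul_mem hx hy), ← map_mul]
  rfl

theorem red_pow {E : Type} [Field E] {B : ValuationSubring E} {x : E} (hx : x ∈ B) (n : ℕ) :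
    red B (x ^ n) = red B x ^ n := by
  rw [red, red, dif_pos hx, dif_pos (pow_mem hx n), ← map_pow]
  rfl

/-- The Frobenius element in a finite Galois extension. -/
theorem frob_fin {E : Type} [Field E] [NumberField E] [Algebra k E] [IsGalois k E]
    {f : (𝓞 k)[X]} (hc : f.leadingCoeff ∉ P.asIdeal) :
    ∃ (B : ValuationSubring E) (hB : Dom P k B) (σ : E ≃ₐ[k] E),
      ∀ θ : E, aeval θ (f.map (algebraMap (𝓞 k) k)) = 0 →
        θ ∈ B ∧ σ θ ∈ B ∧ red B (σ θ) = red B θ ^ Nat.card (𝓞 k ⧸ P.asIdeal) := by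
  obtain ⟨B, hB⟩ := exists_Dom (L := E) P (k := k)
  -- the integers are in `B`
  have hint : ∀ y : 𝓞 E, (y : E) ∈ B := by
    intro y
    have h1 : IsIntegral (𝓞 k) (y : E) := by
      have h2 : IsIntegral ℤ (y : E) := y.2
      exact h2.tower_top
    have h3 : IsIntegral B (y : E) := by
      obtain ⟨g, hg, hgy⟩ := h1
      refine ⟨g.map (rO hB), hg.map _, ?_⟩
      rw [eval₂_map]
      have : (algebraMap B E).comp (rO hB) = algebraMap (𝓞 k) E := by
        ext x
        show algebraMap k E (algebraMap (𝓞 k) k x) = _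
        rw [← IsScalarTower.algebraMap_apply]
      rw [this]
      exact hgy
    obtain ⟨z, hz⟩ := IsIntegrallyClosed.isIntegral_iff.1 h3
    rw [← hz]
    exact z.2
  let ι : 𝓞 E →+* B := (algebraMap (𝓞 E) E).codRestrict B.toSubring hint
  let ρ : 𝓞 E →+* ResidueField B := (residue B).comp ι
  obtain ⟨Q, hQ⟩ : ∃ Q : Ideal (𝓞 E), Q = RingHom.ker ρ := ⟨_, rfl⟩
  haveI hQp : Q.IsPrime := by rw [hQ]; exact RingHom.ker_isPrime ρ
  have hρk : ∀ x : 𝓞 k, ρ (algebraMap (𝓞 k) (𝓞 E) x) = rB hB x := by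
    intro x
    show residue B _ = residue B _
    congr 1
  have hunder : Q.under (𝓞 k) = P.asIdeal := by
    symm
    refine P.isMaximal.eq_of_le ?_ ?_
    · exact Ideal.IsPrime.ne_top inferInstance
    · intro x hx
      show algebraMap (𝓞 k) (𝓞 E) x ∈ Q
      rw [hQ, RingHom.mem_ker, hρk]
      exact rB_zero hB hx
  have hQb : Q ≠ ⊥ := by
    intro h
    obtain ⟨x, hx, hx0⟩ := Submodule.exists_mem_ne_zero_of_ne_bot P.ne_bot
    apply hx0
    have h1 : algebraMap (𝓞 k) (𝓞 E) x ∈ Q := by
      rw [hQ, RingHom.mem_ker, hρk]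
      exact rB_zero hB hx
    rw [h] at h1
    exact (FaithfulSMul.algebraMap_injective (𝓞 k) (𝓞 E)) (by rw [map_zero]; exact h1)
  haveI : Finite (𝓞 E ⧸ Q) := Ideal.finiteQuotientOfFreeOfNeBot _ hQb
  obtain ⟨σ, hσ⟩ := IsArithFrobAt.exists_of_isInvariant (𝓞 k) (Gal(E/k)) Q
  refine ⟨B, hB, σ, ?_⟩
  have hfrob : ∀ y : 𝓞 E, ρ (σ • y) = ρ y ^ Nat.card (𝓞 k ⧸ P.asIdeal) := by
    intro y
    have h1 := hσ y
    rw [hunder] at h1
    have h2 : σ • y - y ^ Nat.card (𝓞 k ⧸ P.asIdeal) ∈ RingHom.ker ρ := by rw [← hQ]; exact h1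
    rw [RingHom.mem_ker, map_sub, map_pow, sub_eq_zero] at h2
    exact h2
  have hsmul : ∀ y : 𝓞 E, ((σ • y : 𝓞 E) : E) = σ (y : E) := fun y => rfl
  set c := f.leadingCoeff with hcdef
  have hc0 : rB hB c ≠ 0 := rB_ne hB hc
  have hck : algebraMap (𝓞 k) E c ≠ 0 := by
    intro h
    apply hc0
    show residue B _ = 0
    have : rO hB c = 0 := by
      apply Subtype.ext
      show algebraMap k E (algebraMap (𝓞 k) k c) = 0
      rw [← IsScalarTower.algebraMap_apply]
      exact h
    rw [this, map_zero]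
  have hcinv : (algebraMap (𝓞 k) E c)⁻¹ ∈ B := by
    have h1 : rO hB c ∉ maximalIdeal B := by
      rw [← residue_eq_zero_iff]
      exact hc0
    have h2 : IsUnit (rO hB c) := by
      by_contra h
      exact h1 ((mem_maximalIdeal _).2 h)
    obtain ⟨u, hu⟩ := h2
    have h3 : ((u⁻¹ : Bˣ) : E) = (algebraMap (𝓞 k) E c)⁻¹ := by
      have h4 : ((u : B) : E) * ((u⁻¹ : Bˣ) : B) = 1 := by
        have := congrArg (fun z : B => (z : E)) (u.mul_inv)
        exact this
      have h5 : ((u : B) : E) = algebraMap (𝓞 k) E c := by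
        rw [hu]
        show algebraMap k E (algebraMap (𝓞 k) k c) = _
        rw [← IsScalarTower.algebraMap_apply]
      rw [h5] at h4
      exact eq_inv_of_mul_eq_one_right h4
    rw [← h3]
    exact ((u⁻¹ : Bˣ) : B).2
  have hcB : algebraMap (𝓞 k) E c ∈ B := by
    have := hB.mem c
    rwa [← IsScalarTower.algebraMap_apply] at this
  have hredc : red B (algebraMap (𝓞 k) E c) = rB hB c := by
    rw [red, dif_pos hcB]
    show residue B _ = residue B _
    congr 1
  have hroot : ∀ θ : E, aeval θ (f.map (algebraMap (𝓞 k) k)) = 0 →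
      ∃ y : 𝓞 E, (y : E) = algebraMap (𝓞 k) E c * θ := by
    intro θ hθ
    have h1 : aeval θ f = 0 := by
      rw [aeval_map_algebraMap] at hθ
      exact hθ
    have h2 := isIntegral_leadingCoeff_smul f θ h1
    have h3 : IsIntegral ℤ (f.leadingCoeff • θ) := isIntegral_trans _ h2
    refine ⟨⟨_, h3⟩, ?_⟩
    show f.leadingCoeff • θ = _
    rw [Algebra.smul_def]
  have hmemB : ∀ θ : E, ∀ y : 𝓞 E, (y : E) = algebraMap (𝓞 k) E c * θ →
      θ ∈ B ∧ rB hB c * red B θ = ρ y := by
    intro θ y hy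
    have h1 : θ = (algebraMap (𝓞 k) E c)⁻¹ * (y : E) := by
      rw [hy, inv_mul_cancel_left₀ hck]
    have h2 : θ ∈ B := by
      rw [h1]
      exact mul_mem hcinv (hint y)
    refine ⟨h2, ?_⟩
    rw [← hredc, ← red_mul hcB h2, ← hy]
    exact red_coe (ι y)
  intro θ hθ
  obtain ⟨y, hy⟩ := hroot θ hθ
  obtain ⟨h1, h2⟩ := hmemB θ y hy
  have hy' : ((σ • y : 𝓞 E) : E) = algebraMap (𝓞 k) E c * σ θ := by
    rw [hsmul, hy, map_mul]
    congr 1
    rw [IsScalarTower.algebraMap_apply (𝓞 k) k E, σ.commutes]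
  obtain ⟨h3, h4⟩ := hmemB (σ θ) (σ • y) hy'
  refine ⟨h1, h3, ?_⟩
  have h5 : rB hB c ^ Nat.card (𝓞 k ⧸ P.asIdeal) = rB hB c := by
    haveI := P.isMaximal
    letI : Field (𝓞 k ⧸ P.asIdeal) := Ideal.Quotient.field P.asIdeal
    haveI : Finite (𝓞 k ⧸ P.asIdeal) := Ideal.finiteQuotientOfFreeOfNeBot _ P.ne_bot
    letI := Fintype.ofFinite (𝓞 k ⧸ P.asIdeal)
    rw [← jB_mk, ← map_pow, Nat.card_eq_fintype_card, FiniteField.pow_card]
  apply mul_left_cancel₀ hc0
  rw [h4, hfrob, ← h2, mul_pow, h5]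

/-- The roots in the separable closure. -/
noncomputable def rts (k' : Type) [Field k'] [Algebra k k'] (f : (𝓞 k)[X]) : Finset k' :=
  ((f.map (algebraMap (𝓞 k) k)).map (algebraMap k k')).roots.toFinset

/-- The action of a Frobenius element on the roots, given a splitting field. -/
theorem exists_frob_aux (k' : Type) [Field k'] [Algebra k k'] [Normal k k'] {f : (𝓞 k)[X]} {N : ℕ}
    (hf : f.natDegree ≤ N)
    (hd : (f.map (Ideal.Quotient.mk P.asIdeal)).natDegree = N)
    (hsep : (f.map (Ideal.Quotient.mk P.asIdeal)).Separable)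
    (E : Type) [Field E] [NumberField E] [Algebra k E] [IsGalois k E] [Algebra E k']
    [IsScalarTower k E k']
    (hsplE : ((f.map (algebraMap (𝓞 k) k)).map (algebraMap k E)).Splits) :
    ∃ (κ : Type) (_ : Field κ) (j : 𝓞 k ⧸ P.asIdeal →+* κ) (r : k' → κ) (σ : k' ≃ₐ[k] k'),
      (∀ θ ∈ rts k' f, r (σ θ) = r θ ^ Nat.card (𝓞 k ⧸ P.asIdeal)) ∧
      (f.map (Ideal.Quotient.mk P.asIdeal)).map j =
        C (j (f.map (Ideal.Quotient.mk P.asIdeal)).leadingCoeff) *
          ∏ θ ∈ rts k' f, (X - C (r θ)) := by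
  haveI := P.isMaximal
  letI : Field (𝓞 k ⧸ P.asIdeal) := Ideal.Quotient.field P.asIdeal
  have hfN : f.natDegree = N := le_antisymm hf (hd ▸ natDegree_map_le)
  obtain ⟨fb, hfb⟩ : ∃ fb, fb = f.map (Ideal.Quotient.mk P.asIdeal) := ⟨_, rfl⟩
  rw [← hfb] at hd hsep ⊢
  have hfb0 : fb ≠ 0 := hsep.ne_zero
  have hlc : fb.leadingCoeff = Ideal.Quotient.mk P.asIdeal f.leadingCoeff := by
    rw [leadingCoeff, hd, hfb, coeff_map, leadingCoeff, hfN]
  have hc : f.leadingCoeff ∉ P.asIdeal := by
    intro h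
    apply leadingCoeff_ne_zero.2 hfb0
    rw [hlc, Ideal.Quotient.eq_zero_iff_mem]
    exact h
  have hinjk : Function.Injective (algebraMap (𝓞 k) k) := IsFractionRing.injective (𝓞 k) k
  have hf0 : f ≠ 0 := by
    rintro rfl
    apply hc
    rw [leadingCoeff_zero]
    exact Ideal.zero_mem _
  obtain ⟨F, hF⟩ : ∃ F, F = f.map (algebraMap (𝓞 k) k) := ⟨_, rfl⟩
  have hlcF : F.leadingCoeff = algebraMap (𝓞 k) k f.leadingCoeff := by
    rw [hF, leadingCoeff_map_of_injective hinjk]
  have hF0 : F ≠ 0 := hF ▸ (Polynomial.map_ne_zero_iff hinjk).2 hf0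
  obtain ⟨B, hB, σ, hσ⟩ := frob_fin (E := E) P hc
  rw [← hF] at hsplE hσ
  -- the factorization in `E`
  have hFE0 : F.map (algebraMap k E) ≠ 0 := (Polynomial.map_ne_zero_iff (algebraMap k E).injective).2 hF0
  have hrt : ∀ θ : E, θ ∈ (F.map (algebraMap k E)).roots ↔ aeval θ F = 0 := by
    intro θ
    rw [mem_roots hFE0, IsRoot.def, eval_map_algebraMap]
  have hBθ : ∀ θ ∈ (F.map (algebraMap k E)).roots, θ ∈ B := fun θ h => (hσ θ ((hrt θ).1 h)).1
  have hfac : (f.map (rO hB)) = C (rO hB f.leadingCoeff) *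
      ((F.map (algebraMap k E)).roots.attach.map
        (fun θ => (X - C (⟨θ.1, hBθ θ.1 θ.2⟩ : B)))).prod := by
    apply Polynomial.map_injective (algebraMap B E) Subtype.val_injective
    rw [map_rO, Polynomial.map_mul, map_C, Polynomial.map_multiset_prod, Multiset.map_map]
    have h1 : (Multiset.map ((Polynomial.map (algebraMap B E)) ∘
        (fun θ : {x // x ∈ (F.map (algebraMap k E)).roots} => (X - C (⟨θ.1, hBθ θ.1 θ.2⟩ : B))))
        (F.map (algebraMap k E)).roots.attach) =
        (F.map (algebraMap k E)).roots.map (fun θ => X - C θ) := by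
      conv_rhs => rw [← Multiset.attach_map_val (F.map (algebraMap k E)).roots]
      rw [Multiset.map_map]
      refine Multiset.map_congr rfl fun θ _ => ?_
      simp only [Function.comp, Polynomial.map_sub, map_X, map_C]
      rfl
    rw [h1]
    have h2 := hsplE.eq_prod_roots
    have hl : algebraMap B E (rO hB f.leadingCoeff) = (F.map (algebraMap k E)).leadingCoeff := by
      rw [leadingCoeff_map, hlcF]
      rfl
    rw [← hF, hl]
    exact h2
  have hfac2 : fb.map (jB hB) = C (jB hB fb.leadingCoeff) *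
      ((F.map (algebraMap k E)).roots.map (fun θ => X - C (red B θ))).prod := by
    rw [hfb, ← map_rB hB f, hfac, Polynomial.map_mul, map_C, Polynomial.map_multiset_prod,
      Multiset.map_map, ← hfb, hlc]
    congr 2
    conv_rhs => rw [← Multiset.attach_map_val (F.map (algebraMap k E)).roots]
    rw [Multiset.map_map]
    refine Multiset.map_congr rfl fun θ _ => ?_
    simp only [Function.comp, Polynomial.map_sub, map_X, map_C]
    congr 2
    exact (red_coe (⟨θ.1, hBθ θ.1 θ.2⟩ : B)).symm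
  have hsep2 : (fb.map (jB hB)).Separable := hsep.map
  have hnd : ((F.map (algebraMap k E)).roots.map (red B)).Nodup := by
    have h1 : fb.map (jB hB) ≠ 0 := hsep2.ne_zero
    have h2 : (fb.map (jB hB)).roots = (F.map (algebraMap k E)).roots.map (red B) := by
      rw [hfac2, roots_C_mul]
      · have h3 : (F.map (algebraMap k E)).roots.map (fun θ => X - C (red B θ)) =
            ((F.map (algebraMap k E)).roots.map (red B)).map (fun x => X - C x) := by
          rw [Multiset.map_map]; rfl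
        rw [h3, roots_multiset_prod_X_sub_C]
      · intro h0
        rw [h0, C_0, zero_mul] at hfac2
        exact h1 hfac2
    rw [← h2]
    exact nodup_roots hsep2
  have hndE : (F.map (algebraMap k E)).roots.Nodup := Multiset.Nodup.of_map _ hnd
  -- the big field
  obtain ⟨i, hidef⟩ : ∃ i : E →ₐ[k] k', i = IsScalarTower.toAlgHom k E k' := ⟨_, rfl⟩
  have hialg : ∀ x : E, i x = algebraMap E k' x := by rw [hidef]; exact fun x => rfl
  have hi : Function.Injective i := i.toRingHom.injective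
  have hZ : rts k' f = (F.map (algebraMap k E)).roots.toFinset.image i := by
    rw [rts, ← hF]
    have h1 : F.map (algebraMap k k') = (F.map (algebraMap k E)).map (i : E →+* k') := by
      rw [Polynomial.map_map, i.comp_algebraMap]
    rw [h1, hsplE.roots_map]
    ext x
    simp
  let r : k' → ResidueField B := fun x => if h : ∃ θ : E, i θ = x then red B h.choose else 0
  have hr : ∀ θ : E, r (i θ) = red B θ := by
    intro θ
    have h : ∃ θ' : E, i θ' = i θ := ⟨θ, rfl⟩
    show (if h : ∃ θ' : E, i θ' = i θ then red B h.choose else 0) = _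
    rw [dif_pos h]
    congr 1
    exact hi h.choose_spec
  refine ⟨ResidueField B, inferInstance, jB hB, r, σ.liftNormal k', ?_, ?_⟩
  · intro x hx
    rw [hZ, Finset.mem_image] at hx
    obtain ⟨θ, hθ, rfl⟩ := hx
    rw [Multiset.mem_toFinset, hrt] at hθ
    have h1 : (σ.liftNormal k') (i θ) = i (σ θ) := by
      rw [hialg, hialg]
      exact σ.liftNormal_commutes k' θ
    rw [h1, hr, hr, (hσ θ hθ).2.2]
  · rw [hfac2, hZ, Finset.prod_image (fun x _ y _ h => hi h)]
    congr 1
    rw [Finset.prod_multiset_map_count]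
    refine Finset.prod_congr rfl fun θ hθ => ?_
    rw [Multiset.count_eq_one_of_mem hndE (Multiset.mem_toFinset.1 hθ), pow_one, hr]

/-- The action of a Frobenius element on the roots. -/
theorem exists_frob (k' : Type) [Field k'] [Algebra k k'] [IsSepClosure k k'] {f : (𝓞 k)[X]} {N : ℕ}
    (hf : f.natDegree ≤ N)
    (hd : (f.map (Ideal.Quotient.mk P.asIdeal)).natDegree = N)
    (hsep : (f.map (Ideal.Quotient.mk P.asIdeal)).Separable) :
    ∃ (κ : Type) (_ : Field κ) (j : 𝓞 k ⧸ P.asIdeal →+* κ) (r : k' → κ) (σ : k' ≃ₐ[k] k'),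
      (∀ θ ∈ rts k' f, r (σ θ) = r θ ^ Nat.card (𝓞 k ⧸ P.asIdeal)) ∧
      (f.map (Ideal.Quotient.mk P.asIdeal)).map j =
        C (j (f.map (Ideal.Quotient.mk P.asIdeal)).leadingCoeff) *
          ∏ θ ∈ rts k' f, (X - C (r θ)) := by
  haveI : IsSepClosed k' := IsSepClosure.sep_closed k
  obtain ⟨F, hF⟩ : ∃ F, F = f.map (algebraMap (𝓞 k) k) := ⟨_, rfl⟩
  have hsp := SplittingField.splits F
  haveI : FiniteDimensional k F.SplittingField := inferInstance
  haveI : CharZero F.SplittingField := charZero_of_injective_algebraMap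
    (algebraMap k F.SplittingField).injective
  haveI : NumberField F.SplittingField := NumberField.of_module_finite k F.SplittingField
  haveI : IsGalois k F.SplittingField := ⟨⟩
  let i : F.SplittingField →ₐ[k] k' := IsSepClosed.lift
  letI : Algebra F.SplittingField k' := i.toRingHom.toAlgebra
  haveI : IsScalarTower k F.SplittingField k' :=
    IsScalarTower.of_algebraMap_eq fun x => (i.commutes x).symm
  haveI : IsGalois k k' := IsSepClosure.isGalois
  exact exists_frob_aux P k' hf hd hsep F.SplittingField (by rw [← hF]; exact hsp)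

end frob

end Pool.Agent.X243.Sol
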