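import Pool.Agent.X243.Sol.Frob
import Pool.Agent.X243.Sol.Cyc
import Pool.Agent.X243.Tate.Ev3

/-!
Full symmetric Galois groups from three primes.
-/

set_option autoImplicit false
set_option linter.all false

open Polynomial IsLocalRing IsDedekindDomain NumberField
open scoped Classical

namespace Pool.Agent.X243.Sol

open Pool.Agent.X243.Tate

section surj

variable {k : Type} [Field k] [NumberField k] (P : HeightOneSpectrum (𝓞 k))

theorem exists_frob' {f : (𝓞 k)[X]} {N : ℕ} (hf : f.natDegree ≤ N)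
    (hd : (f.map (Ideal.Quotient.mk P.asIdeal)).natDegree = N)
    (hsep : (f.map (Ideal.Quotient.mk P.asIdeal)).Separable)
    (E : Type) [Field E] [NumberField E] [Algebra k E] [IsGalois k E]
    (hsplE : ((f.map (algebraMap (𝓞 k) k)).map (algebraMap k E)).Splits) :
    ∃ (κ : Type) (_ : Field κ) (j : 𝓞 k ⧸ P.asIdeal →+* κ)
      (r : (f.map (algebraMap (𝓞 k) k)).rootSet E → κ) (σ : E ≃ₐ[k] E) (u : κ),
      (∀ θ, r (MulAction.toPermHom (E ≃ₐ[k] E) ((f.map (algebraMap (𝓞 k) k)).rootSet E) σ θ) =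
        r θ ^ Nat.card (𝓞 k ⧸ P.asIdeal)) ∧
      (f.map (Ideal.Quotient.mk P.asIdeal)).map j =
        C u * ∏ θ : (f.map (algebraMap (𝓞 k) k)).rootSet E, (X - C (r θ)) := by
  obtain ⟨κ, _, j, r, σ, h1, h2⟩ := exists_frob_aux P E hf hd hsep E hsplE
  have hmem : ∀ x : E, x ∈ rts E f ↔ x ∈ (f.map (algebraMap (𝓞 k) k)).rootSet E := by
    intro x
    rw [rts, rootSet, aroots, Finset.mem_coe]
  refine ⟨κ, inferInstance, j, fun θ => r θ, σ,
    j (f.map (Ideal.Quotient.mk P.asIdeal)).leadingCoeff, ?_, ?_⟩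
  · intro θ
    exact h1 θ ((hmem θ).2 θ.2)
  · rw [h2]
    congr 1
    refine Finset.prod_bij' (fun x hx => (⟨x, (hmem x).1 hx⟩ : (f.map (algebraMap (𝓞 k) k)).rootSet E))
      (fun x _ => (x : E)) (fun _ _ => Finset.mem_univ _) (fun x _ => (hmem x).2 x.2)
      (fun _ _ => rfl) (fun _ _ => rfl) (fun _ _ => rfl)

/-- The swap type. -/
def I3 {R : Type} [CommRing R] (N : ℕ) (f : R[X]) : Prop :=
  ∃ (d : R) (π : R[X]) (S : Finset R), d ≠ 0 ∧ π.Monic ∧ Irreducible π ∧ π.natDegree = 2 ∧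
    S.card + 2 = N ∧ f = C d * π * ∏ c ∈ S, (X - C c)

theorem sep_lin {R : Type} [Field R] [Finite R] {π : R[X]} (hπ : Irreducible π)
    (h : 2 ≤ π.natDegree) {d : R} (hd : d ≠ 0) (S : Finset R) :
    (C d * π * ∏ c ∈ S, (X - C c)).Separable := by
  haveI : PerfectField R := PerfectField.ofFinite
  have h1 : π.Separable := PerfectField.separable_of_irreducible hπ
  have h2 : (∏ c ∈ S, (X - C c) : R[X]).Separable := by
    apply separable_prod_X_sub_C_iff'.2
    exact fun x _ y _ h => h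
  have h3 : IsCoprime π (∏ c ∈ S, (X - C c) : R[X]) := by
    rw [hπ.coprime_iff_not_dvd]
    intro hdv
    obtain ⟨c, -, hc⟩ := (hπ.prime.dvd_finset_prod_iff _).1 hdv
    have := natDegree_le_of_dvd hc (X_sub_C_ne_zero c)
    rw [natDegree_X_sub_C] at this
    omega
  have h4 : (π * ∏ c ∈ S, (X - C c)).Separable := h1.mul h2 h3
  have h5 : C d * π * ∏ c ∈ S, (X - C c) = C d * (π * ∏ c ∈ S, (X - C c)) := by ring
  rw [h5]
  exact Separable.unit_mul (isUnit_C.2 (isUnit_iff_ne_zero.2 hd)) h4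

/-- Degree `N`, with an irreducible factor of degree `N - 1`. -/
theorem two_fac {R : Type} [Field R] {f π : R[X]} {N : ℕ} (hN : 3 ≤ N) (hf : f.natDegree = N)
    (hd : π.natDegree + 1 = N) (hdv : π ∣ f) : ∃ c d : R, d ≠ 0 ∧ f = C d * (X - C c) * π := by
  obtain ⟨g, hg⟩ := hdv
  have hf0 : f ≠ 0 := by
    rintro rfl
    rw [natDegree_zero] at hf
    omega
  have hg0 : g ≠ 0 := by
    rintro rfl
    exact hf0 (by rw [hg, mul_zero])
  have hπ0 : π ≠ 0 := by
    rintro rfl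
    exact hf0 (by rw [hg, zero_mul])
  have h1 : g.natDegree = 1 := by
    have := natDegree_mul hπ0 hg0
    rw [← hg] at this
    omega
  obtain ⟨a, ha, b, hb⟩ := natDegree_eq_one.1 h1
  refine ⟨-b / a, a, ha, ?_⟩
  rw [hg, ← hb]
  have e : C a * (X - C (-b / a)) = C a * X + C b := by
    rw [mul_sub, ← C_mul, mul_div_cancel₀ _ ha, C_neg, sub_neg_eq_add]
  rw [e]
  ring

variable {P} in
theorem surj_of {Q2 Q3 : HeightOneSpectrum (𝓞 k)} {f : (𝓞 k)[X]} {N : ℕ} (hN : 3 ≤ N)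
    (hf : f.natDegree ≤ N) (hirr : Irreducible (f.map (algebraMap (𝓞 k) k)))
    (h2 : I2 N (f.map (Ideal.Quotient.mk Q2.asIdeal)))
    (h3 : I3 N (f.map (Ideal.Quotient.mk Q3.asIdeal)))
    (E : Type) [Field E] [NumberField E] [Algebra k E] [IsGalois k E]
    (hsplE : ((f.map (algebraMap (𝓞 k) k)).map (algebraMap k E)).Splits) :
    Function.Surjective (MulAction.toPermHom (E ≃ₐ[k] E)
      ((f.map (algebraMap (𝓞 k) k)).rootSet E)) := by
  obtain ⟨ha, π, hπ, hπd, hdv⟩ := h2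
  obtain ⟨d', π', S, hd', hm', hπ', hπd', hS, hfac'⟩ := h3
  haveI := Q2.isMaximal
  haveI := Q3.isMaximal
  letI : Field (𝓞 k ⧸ Q2.asIdeal) := Ideal.Quotient.field Q2.asIdeal
  letI : Field (𝓞 k ⧸ Q3.asIdeal) := Ideal.Quotient.field Q3.asIdeal
  haveI : Finite (𝓞 k ⧸ Q2.asIdeal) := Ideal.finiteQuotientOfFreeOfNeBot _ Q2.ne_bot
  haveI : Finite (𝓞 k ⧸ Q3.asIdeal) := Ideal.finiteQuotientOfFreeOfNeBot _ Q3.ne_bot
  obtain ⟨c, d, hd, hfac⟩ := two_fac hN ha hπd hdv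
  have hsep2 : (f.map (Ideal.Quotient.mk Q2.asIdeal)).Separable := by
    have h4 := sep_lin hπ (by omega) hd {c}
    rw [Finset.prod_singleton] at h4
    rw [hfac]
    have e : C d * (X - C c) * π = C d * π * (X - C c) := by ring
    rw [e]
    exact h4
  have hsep3 : (f.map (Ideal.Quotient.mk Q3.asIdeal)).Separable := by
    rw [hfac']
    exact sep_lin hπ' hπd'.ge hd' S
  have hdeg3 : (f.map (Ideal.Quotient.mk Q3.asIdeal)).natDegree = N := by
    rw [hfac', mul_assoc, natDegree_C_mul hd', natDegree_mul hπ'.ne_zero, hπd',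
      natDegree_finset_prod_X_sub_C_eq_card]
    · rw [← hS]
      omega
    · exact (monic_prod_X_sub_C (fun c => c) S).ne_zero
  obtain ⟨κ, _, j, r, σ, u, hσ, hr⟩ := exists_frob' Q2 hf ha hsep2 E hsplE
  obtain ⟨κ', _, j', r', σ', u', hσ', hr'⟩ := exists_frob' Q3 hf hdeg3 hsep3 E hsplE
  obtain ⟨a, hsa, htr⟩ := type_two j hsep2 hr hσ hπ hfac
  have hsw := type_swap j' hsep3 hr' hσ' hπ' hπd' hfac'
  rw [← MonoidHom.range_eq_top]
  refine top_of _ a ?_ ?_ ⟨_, ⟨σ', rfl⟩, hsw⟩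
  · intro x
    have h5 : minpoly k (x : E) = minpoly k (a : E) := by
      rw [← minpoly.eq_of_irreducible hirr (aeval_eq_zero_of_mem_rootSet x.2),
        ← minpoly.eq_of_irreducible hirr (aeval_eq_zero_of_mem_rootSet a.2)]
    have h6 := (Normal.minpoly_eq_iff_mem_orbit (F := k) (E := E)).1 h5.symm
    obtain ⟨g, hg⟩ := h6
    refine ⟨_, ⟨g, rfl⟩, ?_⟩
    exact Subtype.ext hg
  · intro x y hx hy
    obtain ⟨n, hn⟩ := htr x y hx hy
    refine ⟨_, ⟨σ ^ n, rfl⟩, ?_, ?_⟩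
    · rw [map_pow]
      exact Function.IsFixedPt.perm_pow hsa n
    · rw [map_pow]
      exact hn

end surj

end Pool.Agent.X243.Sol
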