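import Pool.Agent.X243.Sol.Three
import Pool.Agent.X243.Sol.Surj

/-!
Large Galois groups over extensions of a number field.
-/

set_option autoImplicit false
set_option linter.all false

open Polynomial IsDedekindDomain NumberField
open scoped Classical

namespace Pool.Agent.X243.Sol

open Pool.Agent.TH115.GD Pool.Agent.X243.Tate

section good

variable {k : Type} [Field k] [NumberField k]

/-- The Galois group over `k` is the full symmetric group. -/
def Full (F : k[X]) : Prop :=
  ∀ (E : Type) [Field E] [NumberField E] [Algebra k E] [IsGalois k E],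
    (F.map (algebraMap k E)).Splits →
      Function.Surjective (MulAction.toPermHom (E ≃ₐ[k] E) (F.rootSet E))

theorem three_of {F : k[X]} (hF : F.Separable) (h5 : 5 ≤ F.natDegree) (hfull : Full F)
    (L L' : Type) [Field L] [Field L'] [Algebra k L] [Algebra L L'] [Algebra k L']
    [IsScalarTower k L L'] [IsSepClosure L L'] (M : IntermediateField k L') [Normal k M]
    (hM : ∀ x : L, IsAlgebraic k x → algebraMap L L' x ∈ M)
    (hns : ¬ (F.map (algebraMap k M)).Splits) :
    Irreducible (F.map (algebraMap k L)) ∧ NotNorm (F.map (algebraMap k L)) := by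
  haveI : CharZero L := charZero_of_injective_algebraMap (algebraMap k L).injective
  haveI : CharZero L' := charZero_of_injective_algebraMap (algebraMap k L').injective
  haveI : IsSepClosed L' := IsSepClosure.sep_closed L
  haveI : IsAlgClosed L' := inferInstance
  haveI : IsGalois L L' := IsSepClosure.isGalois
  have hsp := SplittingField.splits F
  haveI : FiniteDimensional k F.SplittingField := inferInstance
  haveI : CharZero F.SplittingField := charZero_of_injective_algebraMap
    (algebraMap k F.SplittingField).injective
  haveI : NumberField F.SplittingField := NumberField.of_module_finite k F.SplittingField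
  haveI : IsGalois k F.SplittingField := ⟨⟩
  obtain ⟨i, -⟩ : ∃ i : F.SplittingField →ₐ[k] L', i = i := ⟨IsAlgClosed.lift, rfl⟩
  letI : Algebra F.SplittingField L' := i.toRingHom.toAlgebra
  haveI : IsScalarTower k F.SplittingField L' :=
    IsScalarTower.of_algebraMap_eq fun x => (i.commutes x).symm
  have hsurj := hfull F.SplittingField hsp
  have hcard : Nat.card (F.rootSet F.SplittingField) = F.natDegree := by
    rw [Nat.card_eq_fintype_card, card_rootSet_eq_natDegree hF hsp]
  have hsepL : (F.map (algebraMap k L)).Separable := hF.map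
  have hsplL : ((F.map (algebraMap k L)).map (algebraMap L L')).Splits := IsAlgClosed.splits _
  have hZ : (F.map (algebraMap k L)).rootSet L' =
      (algebraMap F.SplittingField L') '' F.rootSet F.SplittingField := by
    rw [hsp.image_rootSet_algebraMap]
    ext x
    rw [mem_rootSet, mem_rootSet, aeval_map_algebraMap]
    exact ⟨fun h => ⟨hF.ne_zero, h.2⟩, fun h => ⟨hsepL.ne_zero, h.2⟩⟩
  have h3 : Three L ((F.map (algebraMap k L)).rootSet L') := by
    intro x hx y hy hxy
    rw [hZ] at hx hy
    obtain ⟨x, hx, rfl⟩ := hx
    obtain ⟨y, hy, rfl⟩ := hy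
    obtain ⟨X', hX'⟩ : ∃ X' : F.rootSet F.SplittingField, X' = ⟨x, hx⟩ := ⟨_, rfl⟩
    obtain ⟨Y', hY'⟩ : ∃ Y' : F.rootSet F.SplittingField, Y' = ⟨y, hy⟩ := ⟨_, rfl⟩
    have hne : X' ≠ Y' := by
      intro h
      apply hxy
      rw [hX', hY'] at h
      rw [Subtype.mk.inj h]
    obtain ⟨Z', hZ1, hZ2⟩ : ∃ Z' : F.rootSet F.SplittingField, Z' ≠ X' ∧ Z' ≠ Y' := by
      by_contra hall
      push Not at hall
      have h4 : (Finset.univ : Finset (F.rootSet F.SplittingField)) ⊆ {X', Y'} := by
        intro z _
        rw [Finset.mem_insert, Finset.mem_singleton]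
        by_cases hz : z = X'
        · exact Or.inl hz
        · exact Or.inr (hall z hz)
      have h5' := Finset.card_le_card h4
      have h6 := Finset.card_le_two (a := X') (b := Y')
      rw [Finset.card_univ, ← Nat.card_eq_fintype_card, hcard] at h5'
      omega
    obtain ⟨g, hg⟩ := even_perm (F := F) (E := F.SplittingField) (L := L) (L' := L') hsp hsurj
      (by rw [hcard]; exact h5) M hM hns (Equiv.swap X' Y' * Equiv.swap Y' Z')
      (Equiv.Perm.mul_mem_alternatingGroup_of_isSwap ⟨X', Y', hne, rfl⟩ ⟨Y', Z', hZ2.symm, rfl⟩)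
    refine ⟨g, algebraMap F.SplittingField L' (Z' : F.SplittingField), ?_, ?_, ?_⟩
    · have h7 := hg X'
      rw [Equiv.Perm.mul_apply, Equiv.swap_apply_of_ne_of_ne hne hZ1.symm,
        Equiv.swap_apply_left] at h7
      rw [hX', hY'] at h7
      exact h7
    · have h7 := hg Y'
      rw [Equiv.Perm.mul_apply, Equiv.swap_apply_left,
        Equiv.swap_apply_of_ne_of_ne hZ1 hZ2] at h7
      rw [hY'] at h7
      exact h7
    · have h7 := hg Z'
      rw [Equiv.Perm.mul_apply, Equiv.swap_apply_right, Equiv.swap_apply_right] at h7
      rw [hX'] at h7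
      exact h7
  have hd : 0 < (F.map (algebraMap k L)).natDegree := by
    rw [natDegree_map]
    omega
  exact ⟨irr_of_three hsepL hsplL hd h3, notNorm_of_three hsepL hsplL hd h3⟩

end good

section rad

variable {k L' : Type} [Field k] [NumberField k] [Field L'] [Algebra k L'] [IsAlgClosed L']

theorem normal_rad : Normal k (solvableByRad k L') := by
  haveI halg : Algebra.IsAlgebraic k (solvableByRad k L') := ⟨fun x => by
    rw [← isAlgebraic_algebraMap_iff (algebraMap (solvableByRad k L') L').injective]
    exact isAlgebraic_solvableByRad _ x.2⟩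
  refine normal_iff.2 fun x => ⟨Algebra.IsIntegral.isIntegral x, ?_⟩
  have hxi : IsIntegral k (x : L') := isIntegral_of_mem_solvableByRad x.2
  have hmin : minpoly k x = minpoly k (x : L') :=
    (minpoly.algebraMap_eq (algebraMap (solvableByRad k L') L').injective x).symm
  rw [hmin]
  apply IntermediateField.splits_of_splits (IsAlgClosed.splits _)
  intro y hy
  have hy0 : aeval y (minpoly k (x : L')) = 0 := aeval_eq_zero_of_mem_rootSet hy
  -- an embedding of the algebraic closure
  obtain ⟨x', hx'⟩ : ∃ x' : algebraicClosure k L', (x' : L') = x :=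
    ⟨⟨x, solvableByRad_le_algClosure k L' x.2⟩, rfl⟩
  have hmin' : minpoly k x' = minpoly k (x : L') := by
    rw [← hx']
    exact (minpoly.algebraMap_eq (algebraMap (algebraicClosure k L') L').injective x').symm
  obtain ⟨φ, hφ⟩ := IntermediateField.exists_algHom_of_splits_of_aeval (F := k)
    (E := algebraicClosure k L') (K := L') (fun s => ⟨Algebra.IsIntegral.isIntegral s,
      IsAlgClosed.splits _⟩) (x := x') (y := y) (by rw [hmin']; exact hy0)
  have hle : solvableByRad k L' ≤
      ((solvableByRad k L').comap φ).map (algebraicClosure k L').val := by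
    apply solvableByRad_le
    intro z n hn hz
    obtain ⟨w, hw, hwz⟩ := hz
    have hzalg : z ∈ algebraicClosure k L' := by
      rw [mem_algebraicClosure_iff]
      have h1 : IsAlgebraic k (z ^ n) := by
        rw [← hwz]
        exact mem_algebraicClosure_iff.1 w.2
      exact IsAlgebraic.of_pow (Nat.pos_of_ne_zero hn) h1
    refine ⟨⟨z, hzalg⟩, ?_, rfl⟩
    show φ ⟨z, hzalg⟩ ∈ solvableByRad k L'
    apply solvableByRad.rad_mem hn
    rw [← map_pow]
    have h2 : (⟨z, hzalg⟩ : algebraicClosure k L') ^ n = w := Subtype.ext hwz.symm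
    rw [h2]
    exact hw
  obtain ⟨w, hw, hwx⟩ := hle x.2
  have h3 : w = x' := Subtype.ext (hwx.trans hx'.symm)
  rw [h3] at hw
  rw [← hφ]
  exact hw

theorem not_splits_rad {F : k[X]} (hF : Irreducible F) (h5 : 5 ≤ F.natDegree) (hfull : Full F) :
    ¬ (F.map (algebraMap k (solvableByRad k L'))).Splits := by
  intro hspl
  have hF0 := hF.ne_zero
  have hd : (F.map (algebraMap k (solvableByRad k L'))).natDegree ≠ 0 := by
    rw [natDegree_map]
    omega
  obtain ⟨x, hx⟩ := hspl.exists_eval_eq_zero (by
    intro h
    apply hd
    exact natDegree_eq_of_degree_eq_some h)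
  have h1 : aeval (x : L') F = 0 := by
    have h2 : aeval x F = 0 := by
      rw [aeval_def, ← eval_map]
      exact hx
    have h3 := congrArg (algebraMap (solvableByRad k L') L') h2
    rw [← aeval_algebraMap_apply, map_zero] at h3
    exact h3
  have hsol := isSolvable_gal_of_irreducible x.2 hF h1
  haveI : FiniteDimensional k F.SplittingField := inferInstance
  haveI : CharZero F.SplittingField := charZero_of_injective_algebraMap
    (algebraMap k F.SplittingField).injective
  haveI : NumberField F.SplittingField := NumberField.of_module_finite k F.SplittingField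
  haveI : IsGalois k F.SplittingField := ⟨⟩
  have hsurj := hfull F.SplittingField (SplittingField.splits F)
  have hsol' : Group.IsSolvable (F.SplittingField ≃ₐ[k] F.SplittingField) := hsol
  have h4 : Group.IsSolvable (Equiv.Perm (F.rootSet F.SplittingField)) :=
    Group.isSolvable_of_surjective hsurj
  have hcard : Nat.card (F.rootSet F.SplittingField) = F.natDegree := by
    rw [Nat.card_eq_fintype_card, card_rootSet_eq_natDegree hF.separable (SplittingField.splits F)]
  exact Equiv.Perm.not_solvable _ (by
    rw [Cardinal.mk_fintype, ← Nat.card_eq_fintype_card, hcard]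
    exact_mod_cast h5) h4

end rad

end Pool.Agent.X243.Sol
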